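import Mathlib

set_option autoImplicit false
open Matrix
open scoped ComplexOrder MatrixOrder

namespace Pool.Agent.Helper90.Spin

variable {n m : Type*} [Fintype n] [DecidableEq n] [Fintype m] [DecidableEq m]

/-- real part of the determinant -/
noncomputable def rdet (A : Matrix n n ℂ) : ℝ := A.det.re

lemma det_shift {A : Matrix n n ℂ} (hA : A.IsHermitian) (t : ℝ) :
    (((t : ℂ) • (1 : Matrix n n ℂ)) + A).det = ∏ i, ((t + hA.eigenvalues i : ℝ) : ℂ) := by
  have h := hA.spectral_theorem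
  set U := hA.eigenvectorUnitary with hU
  have h1 : ((t : ℂ) • (1 : Matrix n n ℂ)) + A =
      (U : Matrix n n ℂ) * (diagonal (fun i => ((t + hA.eigenvalues i : ℝ) : ℂ))) *
        star (U : Matrix n n ℂ) := by
    have hd : diagonal (fun i => ((t + hA.eigenvalues i : ℝ) : ℂ)) =
        (t : ℂ) • (1 : Matrix n n ℂ) + diagonal ((RCLike.ofReal : ℝ → ℂ) ∘ hA.eigenvalues) := by
      ext i j
      by_cases hij : i = j
      · subst hij
        simp
      · simp [hij]
    rw [hd, mul_add, add_mul]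
    have h2 : (U : Matrix n n ℂ) * ((t : ℂ) • (1 : Matrix n n ℂ)) * star (U : Matrix n n ℂ) =
        (t : ℂ) • (1 : Matrix n n ℂ) := by
      rw [Matrix.mul_smul, Matrix.mul_one, Matrix.smul_mul]
      congr 1
      exact Unitary.coe_mul_star_self U
    rw [h2]
    congr 1
  rw [h1, det_mul_right_comm]
  have h3 : (U : Matrix n n ℂ) * star (U : Matrix n n ℂ) = 1 := Unitary.coe_mul_star_self U
  rw [h3, one_mul, det_diagonal]

lemma det_one_add_psd {P : Matrix n n ℂ} (hP : P.PosSemidef) : 1 ≤ (1 + P).det.re := by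
  have h := det_shift hP.1 1
  rw [Complex.ofReal_one, one_smul] at h
  rw [h, ← Complex.ofReal_prod, Complex.ofReal_re]
  have : (1:ℝ) = ∏ i : n, (1:ℝ) := by simp
  rw [this]
  apply Finset.prod_le_prod
  · intro i _; norm_num
  · intro i _
    have := hP.eigenvalues_nonneg i
    linarith

lemma det_im {A : Matrix n n ℂ} (hA : A.PosSemidef) : A.det.im = 0 := by
  have := hA.det_nonneg
  rw [Complex.le_def] at this
  simpa using this.2.symm

lemma det_eq_re {A : Matrix n n ℂ} (hA : A.PosSemidef) : A.det = (A.det.re : ℂ) := by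
  apply Complex.ext
  · simp
  · simp [det_im hA]

lemma det_re_pos {A : Matrix n n ℂ} (hA : A.PosDef) : 0 < A.det.re := by
  have := hA.det_pos
  rw [Complex.lt_def] at this
  simpa using this.1

lemma det_re_nonneg {A : Matrix n n ℂ} (hA : A.PosSemidef) : 0 ≤ A.det.re := by
  have := hA.det_nonneg
  rw [Complex.le_def] at this
  simpa using this.1

/-- factorisation of positive definite matrices -/
lemma posDef_factor {A : Matrix n n ℂ} (hA : A.PosDef) :
    ∃ S : Matrix n n ℂ, IsUnit S ∧ A = Sᴴ * S := by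
  obtain ⟨S, hS⟩ := CStarAlgebra.nonneg_iff_eq_star_mul_self.mp hA.posSemidef.nonneg
  refine ⟨S, ?_, hS⟩
  have h1 : IsUnit A := hA.isUnit
  rw [hS] at h1
  rw [Matrix.isUnit_iff_isUnit_det] at h1 ⊢
  rw [det_mul] at h1
  exact isUnit_of_mul_isUnit_right h1

lemma det_add_psd {A P : Matrix n n ℂ} (hA : A.PosDef) (hP : P.PosSemidef) :
    A.det.re ≤ (A + P).det.re := by
  obtain ⟨S, hS, rfl⟩ := posDef_factor hA
  have hSd : IsUnit S.det := (Matrix.isUnit_iff_isUnit_det S).mp hS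
  have e1 : Sᴴ * S + P = Sᴴ * (1 + (S⁻¹)ᴴ * P * S⁻¹) * S := by
    rw [mul_add, add_mul, mul_one]
    congr 1
    have h1 : Sᴴ * (S⁻¹)ᴴ = 1 := by
      rw [← conjTranspose_mul, Matrix.nonsing_inv_mul S hSd, conjTranspose_one]
    have h2 : S⁻¹ * S = 1 := Matrix.nonsing_inv_mul S hSd
    calc P = (Sᴴ * (S⁻¹)ᴴ) * P * (S⁻¹ * S) := by rw [h1, h2, one_mul, mul_one]
      _ = Sᴴ * ((S⁻¹)ᴴ * P * S⁻¹) * S := by simp only [Matrix.mul_assoc]
  have hP' : ((S⁻¹)ᴴ * P * S⁻¹).PosSemidef := hP.conjTranspose_mul_mul_same _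
  have h3 := det_one_add_psd hP'
  have hSS : (Sᴴ * S).PosSemidef := posSemidef_conjTranspose_mul_self S
  have hdet : (Sᴴ * (1 + (S⁻¹)ᴴ * P * S⁻¹) * S).det = (Sᴴ * S).det * (1 + (S⁻¹)ᴴ * P * S⁻¹).det := by
    rw [det_mul, det_mul, det_mul]; ring
  rw [e1, hdet, det_eq_re hSS, Complex.re_ofReal_mul]
  have h4 := det_re_nonneg hSS
  simp only [Complex.ofReal_re]
  nlinarith

lemma det_mono {A B : Matrix n n ℂ} (hA : A.PosDef) (hAB : (B - A).PosSemidef) :
    A.det.re ≤ B.det.re := by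
  have := det_add_psd hA hAB
  simpa using this

/-- determinant lemma -/
lemma det_add_mul_conj {B : Matrix n n ℂ} (hB : IsUnit B) (V : Matrix n m ℂ) :
    (B + V * Vᴴ).det = B.det * (1 + Vᴴ * B⁻¹ * V).det := by
  have hBd : IsUnit B.det := (Matrix.isUnit_iff_isUnit_det B).mp hB
  have e : B + V * Vᴴ = B * (1 + (B⁻¹ * V) * Vᴴ) := by
    rw [mul_add, mul_one]
    congr 1
    rw [← Matrix.mul_assoc, ← Matrix.mul_assoc, Matrix.mul_nonsing_inv B hBd, Matrix.one_mul]
  rw [e, det_mul, det_one_add_mul_comm, ← Matrix.mul_assoc]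

/-- inverse is antitone -/
lemma inv_anti {A B : Matrix n n ℂ} (hA : A.PosDef) (hB : B.PosDef)
    (hAB : (B - A).PosSemidef) : (A⁻¹ - B⁻¹).PosSemidef := by
  have hAd : IsUnit A.det := (Matrix.isUnit_iff_isUnit_det A).mp hA.isUnit
  have hBd : IsUnit B.det := (Matrix.isUnit_iff_isUnit_det B).mp hB.isUnit
  have hAi : (A⁻¹).IsHermitian := hA.inv.1
  have hBi : (B⁻¹).IsHermitian := hB.inv.1
  have e : A⁻¹ - B⁻¹ = (A⁻¹ - B⁻¹)ᴴ * A * (A⁻¹ - B⁻¹) + (B⁻¹)ᴴ * (B - A) * B⁻¹ := by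
    rw [conjTranspose_sub, hAi.eq, hBi.eq]
    have h1 : A⁻¹ * A = 1 := Matrix.nonsing_inv_mul A hAd
    have h2 : B⁻¹ * B = 1 := Matrix.nonsing_inv_mul B hBd
    have h3 : A * A⁻¹ = 1 := Matrix.mul_nonsing_inv A hAd
    have h4 : B * B⁻¹ = 1 := Matrix.mul_nonsing_inv B hBd
    simp only [sub_mul, mul_sub, Matrix.mul_assoc, h1, h2, h3, Matrix.mul_one, Matrix.one_mul]
    abel
  rw [e]
  exact (hA.posSemidef.conjTranspose_mul_mul_same _).add (hAB.conjTranspose_mul_mul_same _)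

/-- quasi-concavity of the determinant on positive definite matrices -/
lemma det_quasiconcave {A B : Matrix n n ℂ} (hA : A.PosDef) (hB : B.PosDef) {θ : ℝ}
    (h0 : 0 ≤ θ) (h1 : θ ≤ 1) :
    min A.det.re B.det.re ≤ (((θ : ℂ) • A) + ((1 - θ : ℝ) : ℂ) • B).det.re := by
  rcases eq_or_lt_of_le h1 with h1e | h1l
  · subst h1e
    simp
  obtain ⟨S, hS, hSA⟩ := posDef_factor hA
  have hSd : IsUnit S.det := (Matrix.isUnit_iff_isUnit_det S).mp hS
  set C : Matrix n n ℂ := (S⁻¹)ᴴ * B * S⁻¹ with hC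
  have hBC : B = Sᴴ * C * S := by
    have h1 : Sᴴ * (S⁻¹)ᴴ = 1 := by
      rw [← conjTranspose_mul, Matrix.nonsing_inv_mul S hSd, conjTranspose_one]
    have h2 : S⁻¹ * S = 1 := Matrix.nonsing_inv_mul S hSd
    calc B = (Sᴴ * (S⁻¹)ᴴ) * B * (S⁻¹ * S) := by rw [h1, h2, one_mul, mul_one]
      _ = Sᴴ * ((S⁻¹)ᴴ * B * S⁻¹) * S := by simp only [Matrix.mul_assoc]
  have hCpsd : C.PosSemidef := hB.posSemidef.conjTranspose_mul_mul_same _
  have hCdet : C.det ≠ 0 := by
    intro h0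
    have : B.det = 0 := by rw [hBC, det_mul, det_mul, h0]; ring
    exact absurd this hB.det_pos.ne'
  have hCpd : C.PosDef := hCpsd.posDef_iff_det_ne_zero.mpr hCdet
  have hpos : ∀ i, 0 < hCpd.1.eigenvalues i := hCpd.eigenvalues_pos
  set r : ℝ := θ / (1 - θ) with hr
  have h1θ : 0 < 1 - θ := by linarith
  have hcomb : ((θ : ℂ) • A) + ((1 - θ : ℝ) : ℂ) • B =
      Sᴴ * (((1 - θ : ℝ) : ℂ) • ((r : ℂ) • (1 : Matrix n n ℂ) + C)) * S := by
    rw [hSA]
    nth_rewrite 1 [hBC]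
    have e1 : ((1 - θ : ℝ) : ℂ) * (r : ℂ) = (θ : ℂ) := by
      rw [← Complex.ofReal_mul]
      congr 1
      rw [hr]; field_simp
    rw [smul_add, smul_smul, e1, mul_add, add_mul]
    simp only [Matrix.mul_smul, Matrix.smul_mul, Matrix.mul_one]
  have hdetA : A.det.re = (Sᴴ * S).det.re := by rw [hSA]
  have hSS : (Sᴴ * S).PosSemidef := posSemidef_conjTranspose_mul_self S
  set K : ℝ := (Sᴴ * S).det.re with hK
  have hK0 : 0 ≤ K := det_re_nonneg hSS
  have hKeq : (Sᴴ * S).det = (K : ℂ) := det_eq_re hSS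
  have hd1 : (((θ : ℂ) • A) + ((1 - θ : ℝ) : ℂ) • B).det.re =
      K * ∏ i, (θ + (1 - θ) * hCpd.1.eigenvalues i) := by
    rw [hcomb, det_mul, det_mul, det_smul, det_shift hCpd.1]
    have e2 : Sᴴ.det * ((((1 - θ : ℝ) : ℂ)) ^ Fintype.card n *
        ∏ i, ((r + hCpd.1.eigenvalues i : ℝ) : ℂ)) * S.det =
        (Sᴴ * S).det * ((((1 - θ : ℝ) : ℂ)) ^ Fintype.card n *
        ∏ i, ((r + hCpd.1.eigenvalues i : ℝ) : ℂ)) := by
      rw [det_mul]; ring
    rw [e2, hKeq]
    have e3 : ((((1 - θ : ℝ) : ℂ)) ^ Fintype.card n *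
        ∏ i, ((r + hCpd.1.eigenvalues i : ℝ) : ℂ)) =
        ((∏ i, (θ + (1 - θ) * hCpd.1.eigenvalues i) : ℝ) : ℂ) := by
      rw [← Finset.card_univ, ← Finset.prod_const, ← Finset.prod_mul_distrib, Complex.ofReal_prod]
      apply Finset.prod_congr rfl
      intro i _
      rw [← Complex.ofReal_mul]
      congr 1
      rw [hr]; field_simp
    rw [e3, ← Complex.ofReal_mul, Complex.ofReal_re]
  have hd2 : B.det.re = K * ∏ i, hCpd.1.eigenvalues i := by
    rw [hBC, det_mul, det_mul, hCpd.1.det_eq_prod_eigenvalues]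
    have e2 : Sᴴ.det * (∏ i, (hCpd.1.eigenvalues i : ℂ)) * S.det =
        (Sᴴ * S).det * (∏ i, (hCpd.1.eigenvalues i : ℂ)) := by
      rw [det_mul]; ring
    erw [e2]
    rw [hKeq, ← Complex.ofReal_prod, ← Complex.ofReal_mul, Complex.ofReal_re]
  rw [hd1, hd2, hdetA]
  set p : ℝ := ∏ i, hCpd.1.eigenvalues i with hp
  have hppos : 0 < p := Finset.prod_pos (fun i _ => hpos i)
  have hprod : p ^ (1 - θ) ≤ ∏ i, (θ + (1 - θ) * hCpd.1.eigenvalues i) := by
    rw [hp, ← Real.finsetProd_rpow _ _ (fun i _ => (hpos i).le)]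
    apply Finset.prod_le_prod
    · intro i _
      exact Real.rpow_nonneg (hpos i).le _
    · intro i _
      have := Real.geom_mean_le_arith_mean2_weighted h0 h1θ.le (by norm_num : (0:ℝ) ≤ 1)
        (hpos i).le (by ring : θ + (1 - θ) = 1)
      rw [Real.one_rpow, one_mul, mul_one] at this
      exact this
  have hmin : min 1 p ≤ p ^ (1 - θ) := by
    rcases le_total 1 p with h | h
    · exact (min_le_left _ _).trans (Real.one_le_rpow h h1θ.le)
    · refine (min_le_right _ _).trans ?_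
      calc p = p ^ (1 : ℝ) := (Real.rpow_one p).symm
        _ ≤ p ^ (1 - θ) := Real.rpow_le_rpow_of_exponent_ge hppos h (by linarith)
  calc min K (K * p) = K * min 1 p := by
        rw [mul_min_of_nonneg _ _ hK0, mul_one]
    _ ≤ _ := mul_le_mul_of_nonneg_left (hmin.trans hprod) hK0

end Pool.Agent.Helper90.Spin
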