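import Mathlib

set_option autoImplicit false
open Matrix
open scoped ComplexOrder MatrixOrder

namespace Pool.Agent.Helper90.Spin

set_option linter.unusedSectionVars false

variable {κ : Type*} [Fintype κ] [DecidableEq κ]

/-- the real pairing of two matrices -/
noncomputable def lin (G β : Matrix κ κ ℂ) : ℝ := (G * β).trace.re

/-- rank one matrix -/
def r1 (c : κ → ℂ) : Matrix κ κ ℂ := vecMulVec c (star c)

lemma lin_add (G β γ : Matrix κ κ ℂ) : lin G (β + γ) = lin G β + lin G γ := by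
  simp [lin, mul_add]

lemma lin_smul (G β : Matrix κ κ ℂ) (r : ℝ) : lin G ((r : ℂ) • β) = r * lin G β := by
  simp [lin]

lemma lin_zero (G : Matrix κ κ ℂ) : lin G 0 = 0 := by
  simp [lin]

lemma r1_psd (c : κ → ℂ) : (r1 c).PosSemidef := posSemidef_vecMulVec_self_star c

lemma lin_r1_nonneg {G : Matrix κ κ ℂ} (hG : G.PosSemidef) (c : κ → ℂ) : 0 ≤ lin G (r1 c) := by
  have h : (G * r1 c).trace = star c ⬝ᵥ (G *ᵥ c) := by
    rw [r1, mul_vecMulVec, trace_vecMulVec, dotProduct_comm]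
  rw [lin, h]
  exact (Complex.le_def.mp (hG.dotProduct_mulVec_nonneg c)).1

lemma r1_smul (r : ℝ) (hr : 0 ≤ r) (c : κ → ℂ) : r1 (((√r : ℝ) : ℂ) • c) = (r : ℂ) • r1 c := by
  ext i j
  simp only [r1, vecMulVec_apply, Pi.smul_apply, Pi.star_apply, smul_eq_mul, star_mul',
    Matrix.smul_apply, RCLike.star_def, Complex.conj_ofReal]
  have : ((√r : ℝ) : ℂ) * ((√r : ℝ) : ℂ) = (r : ℂ) := by
    rw [← Complex.ofReal_mul, Real.mul_self_sqrt hr]
  calc _ = (((√r : ℝ) : ℂ) * ((√r : ℝ) : ℂ)) * (c i * (starRingEnd ℂ) (c j)) := by ring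
    _ = _ := by rw [this]

/-- 2×2 hermitian parametrisation -/
noncomputable def hh : (Fin 4 → ℝ) →ₗ[ℝ] Matrix (Fin 2) (Fin 2) ℂ where
  toFun a := !![(a 0 : ℂ), a 1 + a 2 * Complex.I; a 1 - a 2 * Complex.I, a 3]
  map_add' a b := by
    ext i j
    fin_cases i <;> fin_cases j <;> simp <;> ring
  map_smul' r a := by
    ext i j
    fin_cases i <;> fin_cases j <;> simp <;> ring

lemma hh_herm (a : Fin 4 → ℝ) : (hh a).IsHermitian := by
  ext i j
  fin_cases i <;> fin_cases j <;> simp [hh, conjTranspose_apply] <;> ring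

lemma hh_ne {a : Fin 4 → ℝ} (ha : a ≠ 0) : hh a ≠ 0 := by
  intro h
  apply ha
  have h00 := congrFun (congrFun h 0) 0
  have h01 := congrFun (congrFun h 0) 1
  have h11 := congrFun (congrFun h 1) 1
  simp [hh] at h00 h01 h11
  have h1 := congrArg Complex.re h01
  have h2 := congrArg Complex.im h01
  simp at h1 h2
  funext i
  fin_cases i <;> simp [h00, h11, h1, h2]

lemma exists_herm2 {σ : Type*} [Fintype σ] (hσ : Fintype.card σ ≤ 3) (P : Matrix κ (Fin 2) ℂ)
    (G : σ → Matrix κ κ ℂ) :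
    ∃ h : Matrix (Fin 2) (Fin 2) ℂ, h.IsHermitian ∧ h ≠ 0 ∧ ∀ s, lin (G s) (P * h * Pᴴ) = 0 := by
  let f : (Fin 4 → ℝ) →ₗ[ℝ] (σ → ℝ) :=
    { toFun := fun a s => lin (G s) (P * hh a * Pᴴ)
      map_add' := by
        intro a b
        funext s
        simp only [map_add, Pi.add_apply]
        rw [Matrix.mul_add, Matrix.add_mul, lin_add]
      map_smul' := by
        intro r a
        funext s
        simp only [map_smul, RingHom.id_apply, Pi.smul_apply, smul_eq_mul]
        rw [← lin_smul]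
        congr 1
        rw [Matrix.mul_smul, Matrix.smul_mul]
        ext i j
        simp }
  have hk : LinearMap.ker f ≠ ⊥ := by
    apply LinearMap.ker_ne_bot_of_finrank_lt
    simp only [Module.finrank_fintype_fun_eq_card, Fintype.card_fin]
    omega
  obtain ⟨a, ha, ha0⟩ := Submodule.exists_mem_ne_zero_of_ne_bot hk
  refine ⟨hh a, hh_herm a, hh_ne ha0, fun s => ?_⟩
  have := LinearMap.mem_ker.mp ha
  exact congrFun this s

lemma herm2_split {σ : Type*} [Fintype σ] (hσ : Fintype.card σ ≤ 3) (b0 b1 : κ → ℂ)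
    (G : σ → Matrix κ κ ℂ) :
    ∃ (c0 c1 : κ → ℂ) (α β : ℝ), (α ≠ 0 ∨ β ≠ 0) ∧ r1 b0 + r1 b1 = r1 c0 + r1 c1 ∧
      ∀ s, α * lin (G s) (r1 c0) + β * lin (G s) (r1 c1) = 0 := by
  set P : Matrix κ (Fin 2) ℂ := Matrix.of (fun i j => if j = 0 then b0 i else b1 i) with hP
  obtain ⟨h, hh1, hh0, hG⟩ := exists_herm2 hσ P G
  set U : Matrix (Fin 2) (Fin 2) ℂ := (hh1.eigenvectorUnitary : Matrix (Fin 2) (Fin 2) ℂ) with hU
  have hUU : U * Uᴴ = 1 := Unitary.coe_mul_star_self hh1.eigenvectorUnitary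
  set lam := hh1.eigenvalues with hlam
  have hsp : h = U * diagonal (fun i => (lam i : ℂ)) * Uᴴ := hh1.spectral_theorem
  set C := P * U with hC
  have hPP : P * Pᴴ = C * Cᴴ := by
    rw [hC, conjTranspose_mul]
    calc P * Pᴴ = P * (U * Uᴴ) * Pᴴ := by rw [hUU, Matrix.mul_one]
      _ = _ := by simp only [Matrix.mul_assoc]
  have hPhP : P * h * Pᴴ = C * diagonal (fun i => (lam i : ℂ)) * Cᴴ := by
    rw [hC, conjTranspose_mul, hsp]
    simp only [Matrix.mul_assoc]
  have e1 : P * Pᴴ = r1 b0 + r1 b1 := by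
    ext i j
    simp [Matrix.mul_apply, Fin.sum_univ_two, hP, r1, vecMulVec_apply]
  have e2 : C * Cᴴ = r1 (fun i => C i 0) + r1 (fun i => C i 1) := by
    ext i j
    simp [Matrix.mul_apply, Fin.sum_univ_two, r1, vecMulVec_apply]
  have e3 : C * diagonal (fun i => (lam i : ℂ)) * Cᴴ =
      (lam 0 : ℂ) • r1 (fun i => C i 0) + (lam 1 : ℂ) • r1 (fun i => C i 1) := by
    ext i j
    rw [Matrix.mul_apply, Fin.sum_univ_two, Matrix.mul_diagonal, Matrix.mul_diagonal]
    simp only [r1, vecMulVec_apply, Matrix.add_apply, Matrix.smul_apply, smul_eq_mul,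
      conjTranspose_apply, Pi.star_apply]
    ring
  refine ⟨fun i => C i 0, fun i => C i 1, lam 0, lam 1, ?_, ?_, ?_⟩
  · by_contra hcon
    push Not at hcon
    apply hh0
    rw [hsp]
    have : (diagonal (fun i => (lam i : ℂ)) : Matrix (Fin 2) (Fin 2) ℂ) = 0 := by
      ext i j
      fin_cases i <;> fin_cases j <;> simp [hcon.1, hcon.2]
    rw [this]
    simp
  · rw [← e1, hPP, e2]
  · intro s
    have h1 := hG s
    rw [hPhP, e3, lin_add, lin_smul, lin_smul] at h1
    exact h1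

/-- Abstract hypotheses on the objective function. -/
structure Obj (D : Matrix κ κ ℂ → ℝ) : Prop where
  mono : ∀ β γ : Matrix κ κ ℂ, β.PosSemidef → γ.PosSemidef → D β ≤ D (β + γ)
  qc : ∀ β γ : Matrix κ κ ℂ, β.PosSemidef → γ.PosSemidef → ∀ θ : ℝ, 0 ≤ θ → θ ≤ 1 →
    min (D β) (D γ) ≤ D ((θ : ℂ) • β + ((1 - θ : ℝ) : ℂ) • γ)

lemma two_step {σ : Type*} [Fintype σ] (hσ : Fintype.card σ ≤ 3)
    (G : σ → Matrix κ κ ℂ) (hG : ∀ s, (G s).PosSemidef) {D : Matrix κ κ ℂ → ℝ} (hD : Obj D)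
    (R : Matrix κ κ ℂ) (hR : R.PosSemidef) (b0 b1 : κ → ℂ) :
    ∃ c : κ → ℂ, (∀ s, lin (G s) (r1 c) = lin (G s) (r1 b0) + lin (G s) (r1 b1)) ∧
      D (R + r1 c) ≤ D (R + (r1 b0 + r1 b1)) := by
  obtain ⟨c0, c1, α, β, hαβ, hsum, hrel⟩ := herm2_split hσ b0 b1 G
  have hl : ∀ s, lin (G s) (r1 b0) + lin (G s) (r1 b1) =
      lin (G s) (r1 c0) + lin (G s) (r1 c1) := by
    intro s
    rw [← lin_add, hsum, lin_add]
  rw [hsum]
  have hn0 : ∀ s, 0 ≤ lin (G s) (r1 c0) := fun s => lin_r1_nonneg (hG s) c0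
  have hn1 : ∀ s, 0 ≤ lin (G s) (r1 c1) := fun s => lin_r1_nonneg (hG s) c1
  rcases le_or_gt 0 (α * β) with hpos | hneg
  · rcases hαβ with hα | hβ
    · refine ⟨c1, fun s => ?_, ?_⟩
      · rw [hl s]
        have h1 := hrel s
        have h2 : α ^ 2 * lin (G s) (r1 c0) = - (α * β) * lin (G s) (r1 c1) := by
          linear_combination α * h1
        have h3 : α ^ 2 * lin (G s) (r1 c0) ≤ 0 := by
          rw [h2]
          have := mul_nonneg hpos (hn1 s)
          linarith
        have h4 : 0 < α ^ 2 := by positivity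
        have h5 : lin (G s) (r1 c0) ≤ 0 := by
          by_contra hc
          push Not at hc
          have := mul_pos h4 hc
          linarith
        have := hn0 s
        linarith
      · have := hD.mono (R + r1 c1) (r1 c0) (hR.add (r1_psd c1)) (r1_psd c0)
        rw [add_assoc, add_comm (r1 c1)] at this
        exact this
    · refine ⟨c0, fun s => ?_, ?_⟩
      · rw [hl s]
        have h1 := hrel s
        have h2 : β ^ 2 * lin (G s) (r1 c1) = - (α * β) * lin (G s) (r1 c0) := by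
          linear_combination β * h1
        have h3 : β ^ 2 * lin (G s) (r1 c1) ≤ 0 := by
          rw [h2]
          have := mul_nonneg hpos (hn0 s)
          linarith
        have h4 : 0 < β ^ 2 := by positivity
        have h5 : lin (G s) (r1 c1) ≤ 0 := by
          by_contra hc
          push Not at hc
          have := mul_pos h4 hc
          linarith
        have := hn1 s
        linarith
      · have := hD.mono (R + r1 c0) (r1 c1) (hR.add (r1_psd c0)) (r1_psd c1)
        rw [add_assoc] at this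
        exact this
  · have hα : α ≠ 0 := by
      rintro rfl
      simp at hneg
    set k : ℝ := -β / α with hk
    have hkpos : 0 < k := by
      have : k = -(α * β) / α ^ 2 := by
        rw [hk]; field_simp
      rw [this]
      have h4 : 0 < α ^ 2 := by positivity
      apply div_pos _ h4
      linarith
    have hk2 : ∀ s, lin (G s) (r1 c0) = k * lin (G s) (r1 c1) := by
      intro s
      have h1 := hrel s
      rw [hk]
      field_simp
      linarith
    have h1k : 0 < 1 + k := by linarith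
    have hra : 0 ≤ 1 + 1 / k := by positivity
    set ca : κ → ℂ := ((√(1 + 1 / k) : ℝ) : ℂ) • c0 with hca
    set cb : κ → ℂ := ((√(1 + k) : ℝ) : ℂ) • c1 with hcb
    have ea : r1 ca = ((1 + 1 / k : ℝ) : ℂ) • r1 c0 := r1_smul _ hra c0
    have eb : r1 cb = ((1 + k : ℝ) : ℂ) • r1 c1 := r1_smul _ h1k.le c1
    set θ : ℝ := k / (1 + k) with hθ
    have hθ0 : 0 ≤ θ := by positivity
    have hθ1 : θ ≤ 1 := by
      rw [hθ, div_le_one h1k]
      linarith
    have ecomb : R + (r1 c0 + r1 c1) = (θ : ℂ) • (R + r1 ca) + ((1 - θ : ℝ) : ℂ) • (R + r1 cb) := by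
      have t1 : (θ : ℂ) * ((1 + 1 / k : ℝ) : ℂ) = 1 := by
        rw [← Complex.ofReal_mul, ← Complex.ofReal_one]
        congr 1
        rw [hθ]; field_simp; ring
      have t2 : ((1 - θ : ℝ) : ℂ) * ((1 + k : ℝ) : ℂ) = 1 := by
        rw [← Complex.ofReal_mul, ← Complex.ofReal_one]
        congr 1
        rw [hθ]; field_simp; ring
      rw [ea, eb, smul_add, smul_add, smul_smul, smul_smul, t1, t2, one_smul, one_smul]
      have t3 : (θ : ℂ) • R + ((1 - θ : ℝ) : ℂ) • R = R := by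
        rw [← add_smul, ← Complex.ofReal_add]
        simp
      calc R + (r1 c0 + r1 c1) = ((θ : ℂ) • R + ((1 - θ : ℝ) : ℂ) • R) + (r1 c0 + r1 c1) := by
            rw [t3]
        _ = _ := by abel
    have hmin := hD.qc (R + r1 ca) (R + r1 cb) (hR.add (r1_psd _)) (hR.add (r1_psd _)) θ hθ0 hθ1
    rw [← ecomb] at hmin
    rcases min_le_iff.mp hmin with h | h
    · refine ⟨ca, fun s => ?_, h⟩
      rw [hl s, ea, lin_smul, hk2 s]
      field_simp
    · refine ⟨cb, fun s => ?_, h⟩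
      rw [hl s, eb, lin_smul, hk2 s]
      ring

lemma finset_step {σ : Type*} [Fintype σ] (hσ : Fintype.card σ ≤ 3)
    (G : σ → Matrix κ κ ℂ) (hG : ∀ s, (G s).PosSemidef) {D : Matrix κ κ ℂ → ℝ} (hD : Obj D)
    {ι : Type*} [DecidableEq ι] (b : ι → κ → ℂ) (S : Finset ι) :
    ∀ (R : Matrix κ κ ℂ), R.PosSemidef →
    ∃ c : κ → ℂ, (∀ s, lin (G s) (r1 c) = ∑ k ∈ S, lin (G s) (r1 (b k))) ∧
      D (R + r1 c) ≤ D (R + ∑ k ∈ S, r1 (b k)) := by
  induction S using Finset.induction_on with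
  | empty =>
    intro R hR
    refine ⟨0, fun s => ?_, ?_⟩
    · simp [r1, lin]
    · simp [r1]
  | insert a S ha ih =>
    intro R hR
    obtain ⟨c', hc1, hc2⟩ := ih (R + r1 (b a)) (hR.add (r1_psd _))
    obtain ⟨c, hc3, hc4⟩ := two_step hσ G hG hD R hR (b a) c'
    refine ⟨c, fun s => ?_, ?_⟩
    · rw [hc3 s, hc1 s, Finset.sum_insert ha]
    · rw [Finset.sum_insert ha, ← add_assoc]
      refine hc4.trans ?_
      rw [← add_assoc]
      exact hc2

/-- Rank reduction of the identity. -/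
theorem rank_reduce {σ : Type*} [Fintype σ] (hσ : Fintype.card σ ≤ 3)
    (G : σ → Matrix κ κ ℂ) (hG : ∀ s, (G s).PosSemidef) {D : Matrix κ κ ℂ → ℝ} (hD : Obj D) :
    ∃ c : κ → ℂ, (∀ s, lin (G s) (r1 c) = (G s).trace.re) ∧ D (r1 c) ≤ D 1 := by
  have h1 : (1 : Matrix κ κ ℂ) = ∑ k ∈ Finset.univ, r1 (Pi.single k (1:ℂ)) := by
    ext i j
    rw [Matrix.sum_apply]
    simp only [r1, vecMulVec_apply, Pi.star_apply, Matrix.one_apply]
    rw [Finset.sum_eq_single i]
    · by_cases hij : i = j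
      · subst hij; simp
      · simp [hij, Pi.single_apply, Ne.symm hij]
    · intro k _ hk
      simp [Pi.single_apply, Ne.symm hk]
    · simp
  obtain ⟨c, hc1, hc2⟩ := finset_step hσ G hG hD (fun k => Pi.single k (1:ℂ)) Finset.univ 0
    PosSemidef.zero
  refine ⟨c, fun s => ?_, ?_⟩
  · rw [hc1 s]
    have : ∑ k, lin (G s) (r1 (Pi.single k (1:ℂ))) = lin (G s) (∑ k, r1 (Pi.single k (1:ℂ))) := by
      simp only [lin, Matrix.mul_sum, Matrix.trace_sum, Complex.re_sum]
    rw [this, ← h1]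
    simp [lin]
  · rw [zero_add, zero_add, ← h1] at hc2
    exact hc2

end Pool.Agent.Helper90.Spin
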