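import Mathlib
import Pool.Agent.Helper90.Spin.LinAlg
import Pool.Agent.Helper90.Spin.RankRed

set_option autoImplicit false
open Matrix
open scoped ComplexOrder MatrixOrder Kronecker

namespace Pool.Agent.Helper90.Spin

set_option linter.unusedSectionVars false

variable {κ α : Type*} [Fintype κ] [DecidableEq κ] [Fintype α] [DecidableEq α]

/-- compression of the first tensor factor -/
def comp (b : κ → ℂ) (X : Matrix (κ × α) (κ × α) ℂ) : Matrix α α ℂ :=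
  fun x y => ∑ u, ∑ v, b u * star (b v) * X (u, x) (v, y)

/-- the positive linear map -/
noncomputable def Xi (V : Matrix (κ × α) (κ × α) ℂ) (Zi : Matrix α α ℂ) (β : Matrix κ κ ℂ) :
    Matrix (κ × α) (κ × α) ℂ := Vᴴ * (βᵀ ⊗ₖ Zi) * V

lemma Xi_add (V : Matrix (κ × α) (κ × α) ℂ) (Zi : Matrix α α ℂ) (β γ : Matrix κ κ ℂ) :
    Xi V Zi (β + γ) = Xi V Zi β + Xi V Zi γ := by
  simp only [Xi, transpose_add, add_kronecker, Matrix.mul_add, Matrix.add_mul]

lemma Xi_smul (V : Matrix (κ × α) (κ × α) ℂ) (Zi : Matrix α α ℂ) (r : ℂ) (β : Matrix κ κ ℂ) :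
    Xi V Zi (r • β) = r • Xi V Zi β := by
  simp only [Xi, transpose_smul, smul_kronecker, Matrix.mul_smul, Matrix.smul_mul]

lemma Xi_psd (V : Matrix (κ × α) (κ × α) ℂ) {Zi : Matrix α α ℂ} (hZ : Zi.PosSemidef)
    {β : Matrix κ κ ℂ} (hβ : β.PosSemidef) : (Xi V Zi β).PosSemidef :=
  (hβ.transpose.kronecker hZ).conjTranspose_mul_mul_same _

lemma obj_Xi (V : Matrix (κ × α) (κ × α) ℂ) {Zi : Matrix α α ℂ} (hZ : Zi.PosSemidef) :
    Obj (fun β => (1 + Xi V Zi β).det.re) where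
  mono β γ hβ hγ := by
    have h1 : (1 + Xi V Zi β).PosDef := PosDef.one.add_posSemidef (Xi_psd V hZ hβ)
    have := det_add_psd h1 (Xi_psd V hZ hγ)
    simp only [Xi_add, ← add_assoc]
    exact this
  qc β γ hβ hγ θ h0 h1 := by
    have hb : (1 + Xi V Zi β).PosDef := PosDef.one.add_posSemidef (Xi_psd V hZ hβ)
    have hc : (1 + Xi V Zi γ).PosDef := PosDef.one.add_posSemidef (Xi_psd V hZ hγ)
    have := det_quasiconcave hb hc h0 h1
    have e : (1 + Xi V Zi ((θ : ℂ) • β + ((1 - θ : ℝ) : ℂ) • γ)) =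
        ((θ : ℂ) • (1 + Xi V Zi β)) + ((1 - θ : ℝ) : ℂ) • (1 + Xi V Zi γ) := by
      rw [Xi_add, Xi_smul, Xi_smul, smul_add, smul_add]
      have t3 : (θ : ℂ) • (1 : Matrix (κ × α) (κ × α) ℂ) + ((1 - θ : ℝ) : ℂ) • 1 = 1 := by
        rw [← add_smul, ← Complex.ofReal_add]
        simp
      calc (1 : Matrix (κ × α) (κ × α) ℂ) + _ =
          ((θ : ℂ) • (1 : Matrix (κ × α) (κ × α) ℂ) + ((1 - θ : ℝ) : ℂ) • 1) + _ := by rw [t3]
        _ = _ := by abel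
    simp only [e]
    exact this

/-- `emb b = bᵀ ⊗ 1` -/
def emb (b : κ → ℂ) : Matrix α (κ × α) ℂ := Matrix.of fun x p => if x = p.2 then b p.1 else 0

lemma emb_kron (b : κ → ℂ) (Z : Matrix α α ℂ) :
    (emb b : Matrix α (κ × α) ℂ)ᴴ * Z * (emb b : Matrix α (κ × α) ℂ) = (r1 b)ᵀ ⊗ₖ Z := by
  ext ⟨u, x⟩ ⟨v, y⟩
  rw [kroneckerMap_apply, Matrix.mul_apply]
  simp only [Matrix.mul_apply, conjTranspose_apply, emb, Matrix.of_apply, apply_ite star, star_zero,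
    ite_mul, zero_mul, mul_ite, mul_zero, Finset.sum_ite_eq', Finset.mem_univ, if_true,
    r1, transpose_apply, vecMulVec_apply, Pi.star_apply]
  ring

lemma comp_eq (b : κ → ℂ) (X : Matrix (κ × α) (κ × α) ℂ) :
    comp b X = (emb b : Matrix α (κ × α) ℂ) * X * (emb b : Matrix α (κ × α) ℂ)ᴴ := by
  ext x y
  rw [Matrix.mul_apply, Fintype.sum_prod_type]
  simp only [Matrix.mul_apply, conjTranspose_apply, emb, Matrix.of_apply, apply_ite star, star_zero,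
    ite_mul, zero_mul, mul_ite, mul_zero, Finset.sum_ite_eq, Finset.mem_univ, if_true,
    Fintype.sum_prod_type, comp]
  rw [Finset.sum_comm]
  apply Finset.sum_congr rfl
  intro u _
  rw [Finset.sum_mul]
  apply Finset.sum_congr rfl
  intro v _
  ring

/-- The key single-site compression inequality. -/
theorem engine {σ : Type*} [Fintype σ] (hσ : Fintype.card σ ≤ 3)
    (G : σ → Matrix κ κ ℂ) (hG : ∀ s, (G s).PosSemidef)
    {X B B' : Matrix (κ × α) (κ × α) ℂ} {Z : Matrix α α ℂ} {q : κ → ℂ} (hq : star q ⬝ᵥ q = 1)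
    (hX : X.PosSemidef) (hB : B.PosDef) (hB' : B'.PosDef) (hZ : Z.PosDef)
    (hBZ : ((1 : Matrix κ κ ℂ) ⊗ₖ Z - B).PosSemidef)
    (hB'Z : ∀ u x y, ∑ v, B' (u, x) (v, y) * q v = q u * Z x y) :
    ∃ b : κ → ℂ, (∀ s, lin (G s) (r1 b) = (G s).trace.re) ∧
      (B' + (r1 q) ⊗ₖ comp b X).det.re * B.det.re ≤ (B + X).det.re * B'.det.re := by
  obtain ⟨S, hS⟩ := CStarAlgebra.nonneg_iff_eq_star_mul_self.mp hX.nonneg
  set V : Matrix (κ × α) (κ × α) ℂ := Sᴴ with hV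
  have hXV : X = V * Vᴴ := by
    rw [hV, conjTranspose_conjTranspose]
    exact hS
  have hZi : (Z⁻¹).PosDef := hZ.inv
  obtain ⟨b, hb1, hb2⟩ := rank_reduce hσ G hG (obj_Xi V hZi.posSemidef)
  refine ⟨b, hb1, ?_⟩
  have hBu : IsUnit B := hB.isUnit
  have hBu' : IsUnit B' := hB'.isUnit
  -- left factor
  have hone : (1 : Matrix κ κ ℂ).PosDef := PosDef.one
  have hZk : ((1 : Matrix κ κ ℂ) ⊗ₖ Z).PosDef := hone.kronecker hZ
  have hinv : (B⁻¹ - ((1 : Matrix κ κ ℂ) ⊗ₖ Z)⁻¹).PosSemidef := inv_anti hB hZk hBZ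
  have hinv' : (B⁻¹ - (1 : Matrix κ κ ℂ) ⊗ₖ Z⁻¹).PosSemidef := by
    rw [inv_kronecker, inv_one] at hinv
    exact hinv
  have h1 : (1 + Xi V Z⁻¹ 1).det.re ≤ (1 + Vᴴ * B⁻¹ * V).det.re := by
    apply det_mono
    · exact PosDef.one.add_posSemidef (Xi_psd V hZi.posSemidef PosSemidef.one)
    · have : 1 + Vᴴ * B⁻¹ * V - (1 + Xi V Z⁻¹ 1) = Vᴴ * (B⁻¹ - (1 : Matrix κ κ ℂ) ⊗ₖ Z⁻¹) * V := by
        rw [Xi, transpose_one, Matrix.mul_sub, Matrix.sub_mul]
        abel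
      rw [this]
      exact hinv'.conjTranspose_mul_mul_same _
  have hdetB : (B + X).det.re = B.det.re * (1 + Vᴴ * B⁻¹ * V).det.re := by
    rw [hXV, det_add_mul_conj hBu, det_eq_re hB.posSemidef, Complex.re_ofReal_mul,
      Complex.ofReal_re]
  -- right factor
  set Vb : Matrix α (κ × α) ℂ := (emb b : Matrix α (κ × α) ℂ) * V with hVb
  obtain ⟨V', hV'⟩ : ∃ V' : Matrix (κ × α) (κ × α) ℂ, ∀ p j, V' p j = q p.1 * Vb p.2 j :=
    ⟨fun p j => q p.1 * Vb p.2 j, fun _ _ => rfl⟩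
  obtain ⟨V'', hV''⟩ : ∃ V'' : Matrix (κ × α) (κ × α) ℂ,
      ∀ p j, V'' p j = q p.1 * (Z⁻¹ * Vb) p.2 j :=
    ⟨fun p j => q p.1 * (Z⁻¹ * Vb) p.2 j, fun _ _ => rfl⟩
  have hcomp : comp b X = Vb * Vbᴴ := by
    rw [comp_eq, hXV, hVb, conjTranspose_mul]
    simp only [Matrix.mul_assoc]
  have hV'V' : V' * V'ᴴ = (r1 q) ⊗ₖ comp b X := by
    rw [hcomp]
    ext ⟨u, x⟩ ⟨v, y⟩
    rw [kroneckerMap_apply, Matrix.mul_apply, Matrix.mul_apply, Finset.mul_sum]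
    apply Finset.sum_congr rfl
    intro j _
    simp only [hV', conjTranspose_apply, star_mul', r1, vecMulVec_apply, Pi.star_apply]
    ring
  have hB'V : B' * V'' = V' := by
    ext ⟨u, x⟩ j
    rw [Matrix.mul_apply, Fintype.sum_prod_type, Finset.sum_comm]
    have h2 : ∀ y, ∑ v, B' (u, x) (v, y) * V'' (v, y) j = q u * (Z x y * (Z⁻¹ * Vb) y j) := by
      intro y
      rw [← mul_assoc, ← hB'Z, Finset.sum_mul]
      apply Finset.sum_congr rfl
      intro v _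
      rw [hV'']
      ring
    simp only [h2]
    rw [← Finset.mul_sum, ← Matrix.mul_apply, ← Matrix.mul_assoc,
      Matrix.mul_nonsing_inv Z ((Matrix.isUnit_iff_isUnit_det Z).mp hZ.isUnit), Matrix.one_mul,
      hV']
  have hV'i : B'⁻¹ * V' = V'' := by
    rw [← hB'V, ← Matrix.mul_assoc,
      Matrix.nonsing_inv_mul B' ((Matrix.isUnit_iff_isUnit_det B').mp hBu'), Matrix.one_mul]
  have hXi : V'ᴴ * B'⁻¹ * V' = Xi V Z⁻¹ (r1 b) := by
    rw [Matrix.mul_assoc, hV'i]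
    have h3 : Xi V Z⁻¹ (r1 b) = Vbᴴ * (Z⁻¹ * Vb) := by
      rw [Xi, ← emb_kron, hVb, conjTranspose_mul]
      simp only [Matrix.mul_assoc]
    rw [h3]
    ext j k
    rw [Matrix.mul_apply, Matrix.mul_apply, Fintype.sum_prod_type, Finset.sum_comm]
    apply Finset.sum_congr rfl
    intro x _
    simp only [conjTranspose_apply, hV', hV'', star_mul']
    have h4 : ∑ u, star (q u) * q u = 1 := hq
    calc ∑ u, star (q u) * star (Vb x j) * (q u * (Z⁻¹ * Vb) x k)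
        = (∑ u, star (q u) * q u) * (star (Vb x j) * (Z⁻¹ * Vb) x k) := by
          rw [Finset.sum_mul]
          apply Finset.sum_congr rfl
          intro u _
          ring
      _ = _ := by rw [h4, one_mul]
  have hdetB' : (B' + (r1 q) ⊗ₖ comp b X).det.re = B'.det.re * (1 + Xi V Z⁻¹ (r1 b)).det.re := by
    rw [← hV'V', det_add_mul_conj hBu', hXi, det_eq_re hB'.posSemidef, Complex.re_ofReal_mul,
      Complex.ofReal_re]
  rw [hdetB, hdetB']
  have hp : 0 < B.det.re := det_re_pos hB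
  have hp' : 0 < B'.det.re := det_re_pos hB'
  have h3 : (1 + Xi V Z⁻¹ (r1 b)).det.re ≤ (1 + Vᴴ * B⁻¹ * V).det.re := hb2.trans h1
  calc B'.det.re * (1 + Xi V Z⁻¹ (r1 b)).det.re * B.det.re
      = (B'.det.re * B.det.re) * (1 + Xi V Z⁻¹ (r1 b)).det.re := by ring
    _ ≤ (B'.det.re * B.det.re) * (1 + Vᴴ * B⁻¹ * V).det.re :=
        mul_le_mul_of_nonneg_left h3 (mul_pos hp' hp).le
    _ = _ := by ring

end Pool.Agent.Helper90.Spin
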