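import Mathlib
import Pool.Agent.Helper90.Spin.LinAlg
import Pool.Agent.Helper90.Spin.RankRed

set_option autoImplicit false
open Matrix
open scoped ComplexOrder MatrixOrder Kronecker

namespace Pool.Agent.Helper90.Spin

set_option linter.unusedSectionVars false

variable {κ α : Type*} [Fintype κ] [DecidableEq κ] [Fintype α] [DecidableEq α]

lemma det_diag_kron (h : κ → ℂ) (Y : Matrix α α ℂ) (T : ℂ) :
    (T • (1 : Matrix (κ × α) (κ × α) ℂ) + (diagonal h) ⊗ₖ Y).det =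
      ∏ i, (T • (1 : Matrix α α ℂ) + h i • Y).det := by
  rw [← det_blockDiagonal, ← det_submatrix_equiv_self (Equiv.prodComm α κ)]
  congr 1
  ext ⟨x, u⟩ ⟨y, v⟩
  simp only [submatrix_apply, Equiv.prodComm_apply, Prod.swap_prod_mk, Matrix.add_apply,
    Matrix.smul_apply, kroneckerMap_apply, blockDiagonal_apply, smul_eq_mul, diagonal_apply,
    Matrix.one_apply, Prod.mk.injEq]
  by_cases huv : u = v
  · subst huv
    simp
  · simp [huv]

lemma det_kron_herm {H : Matrix κ κ ℂ} (hH : H.IsHermitian) (Y : Matrix α α ℂ) (T : ℂ) :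
    (T • (1 : Matrix (κ × α) (κ × α) ℂ) + H ⊗ₖ Y).det =
      ∏ i, (T • (1 : Matrix α α ℂ) + (hH.eigenvalues i : ℂ) • Y).det := by
  set U : Matrix κ κ ℂ := (hH.eigenvectorUnitary : Matrix κ κ ℂ) with hU
  have hUU : U * Uᴴ = 1 := Unitary.coe_mul_star_self hH.eigenvectorUnitary
  have hsp : H = U * diagonal (fun i => (hH.eigenvalues i : ℂ)) * Uᴴ := hH.spectral_theorem
  rw [← det_diag_kron]
  have e : T • (1 : Matrix (κ × α) (κ × α) ℂ) + H ⊗ₖ Y =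
      (U ⊗ₖ (1 : Matrix α α ℂ)) * (T • (1 : Matrix (κ × α) (κ × α) ℂ) +
        (diagonal (fun i => (hH.eigenvalues i : ℂ))) ⊗ₖ Y) * (Uᴴ ⊗ₖ (1 : Matrix α α ℂ)) := by
    rw [Matrix.mul_add, Matrix.add_mul, Matrix.mul_smul, Matrix.smul_mul, Matrix.mul_one,
      ← mul_kronecker_mul, hUU, Matrix.one_mul, one_kronecker_one, ← mul_kronecker_mul,
      ← mul_kronecker_mul, Matrix.one_mul, Matrix.mul_one, ← hsp]
  rw [e, det_mul_right_comm, ← mul_kronecker_mul, hUU, Matrix.one_mul, one_kronecker_one,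
    Matrix.one_mul]

lemma r1_mul_r1 {q : κ → ℂ} (hq : star q ⬝ᵥ q = 1) : r1 q * r1 q = r1 q := by
  rw [r1, vecMulVec_mul_vecMulVec, hq, one_smul]

lemma mul_r1 {Q : Matrix κ κ ℂ} {q : κ → ℂ} {c : ℂ} (hQq : Q *ᵥ q = c • q) :
    Q * r1 q = c • r1 q := by
  rw [r1, mul_vecMulVec, hQq, smul_vecMulVec]

lemma r1_herm (q : κ → ℂ) : (r1 q)ᴴ = r1 q := (r1_psd q).1

lemma r1_mul {Q : Matrix κ κ ℂ} (hQ : Q.IsHermitian) {q : κ → ℂ} {c : ℝ}
    (hQq : Q *ᵥ q = (c : ℂ) • q) : r1 q * Q = (c : ℂ) • r1 q := by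
  have h := congrArg conjTranspose (mul_r1 hQq)
  rw [conjTranspose_mul, hQ.eq, r1_herm, conjTranspose_smul, r1_herm] at h
  simpa using h

/-- deflated matrix -/
noncomputable def defl (Q : Matrix κ κ ℂ) (q : κ → ℂ) (c : ℝ) : Matrix κ κ ℂ :=
  Q - (c : ℂ) • r1 q

lemma defl_psd {Q : Matrix κ κ ℂ} (hQ : Q.PosSemidef) {q : κ → ℂ} {c : ℝ}
    (hq : star q ⬝ᵥ q = 1) (hQq : Q *ᵥ q = (c : ℂ) • q) : (defl Q q c).PosSemidef := by
  have e : defl Q q c = (1 - r1 q)ᴴ * Q * (1 - r1 q) := by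
    rw [defl, conjTranspose_sub, conjTranspose_one, r1_herm, Matrix.sub_mul, Matrix.one_mul,
      r1_mul hQ.1 hQq, Matrix.mul_sub, Matrix.mul_one, Matrix.sub_mul, mul_r1 hQq,
      Matrix.smul_mul, r1_mul_r1 hq, sub_self, sub_zero]
  rw [e]
  exact hQ.conjTranspose_mul_mul_same _

lemma defl_mul {Q : Matrix κ κ ℂ} {q : κ → ℂ} {c : ℝ}
    (hq : star q ⬝ᵥ q = 1) (hQq : Q *ᵥ q = (c : ℂ) • q) : defl Q q c * r1 q = 0 := by
  rw [defl, Matrix.sub_mul, mul_r1 hQq, Matrix.smul_mul, r1_mul_r1 hq, sub_self]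

lemma factor_det {Q : Matrix κ κ ℂ} {q : κ → ℂ} {c : ℝ}
    (hq : star q ⬝ᵥ q = 1) (hQq : Q *ᵥ q = (c : ℂ) • q) (T : ℂ) (Y G : Matrix α α ℂ) :
    T ^ Fintype.card (κ × α) *
      (T • (1 : Matrix (κ × α) (κ × α) ℂ) + Q ⊗ₖ Y + (r1 q) ⊗ₖ G).det =
    (T • (1 : Matrix (κ × α) (κ × α) ℂ) + (defl Q q c) ⊗ₖ Y).det *
      (T • (1 : Matrix (κ × α) (κ × α) ℂ) + (r1 q) ⊗ₖ ((c : ℂ) • Y + G)).det := by
  rw [← det_smul, ← det_mul]
  congr 1
  rw [Matrix.add_mul, Matrix.mul_add, Matrix.mul_add ((defl Q q c) ⊗ₖ Y), ← mul_kronecker_mul,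
    defl_mul hq hQq, zero_kronecker, add_zero]
  simp only [Matrix.smul_mul, Matrix.mul_smul, Matrix.one_mul, Matrix.mul_one, smul_add]
  have e : Q ⊗ₖ Y + (r1 q) ⊗ₖ G = (r1 q) ⊗ₖ ((c : ℂ) • Y + G) + (defl Q q c) ⊗ₖ Y := by
    rw [defl, kronecker_add, kronecker_smul, sub_eq_add_neg, add_kronecker, ← neg_smul,
      smul_kronecker, neg_smul]
    abel
  have e2 : T • Q ⊗ₖ Y + T • (r1 q) ⊗ₖ G =
      T • (r1 q) ⊗ₖ ((c : ℂ) • Y + G) + T • (defl Q q c) ⊗ₖ Y := by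
    rw [← smul_add, e, smul_add]
  rw [add_assoc, e2, add_assoc]

lemma posDef_T {T : ℝ} (hT : 0 < T) {A : Matrix α α ℂ} (hA : A.PosSemidef) :
    ((T : ℂ) • (1 : Matrix α α ℂ) + A).PosDef := by
  apply PosDef.add_posSemidef _ hA
  exact PosDef.one.smul (by exact_mod_cast hT)

theorem factor_mono {Q : Matrix κ κ ℂ} (hQ : Q.PosSemidef) {q : κ → ℂ} {c : ℝ}
    (hq : star q ⬝ᵥ q = 1) (hQq : Q *ᵥ q = (c : ℂ) • q) (hc : 0 ≤ c) {T : ℝ} (hT : 0 < T)
    {Y G Y0 G0 : Matrix α α ℂ} (hY : Y.PosSemidef) (hG : G.PosSemidef)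
    (hY0 : Y0.PosSemidef) (hG0 : G0.PosSemidef)
    (h1 : ∀ r : ℝ, 0 ≤ r → ((T : ℂ) • (1 : Matrix α α ℂ) + (r : ℂ) • Y0).det.re ≤
      ((T : ℂ) • (1 : Matrix α α ℂ) + (r : ℂ) • Y).det.re)
    (h2 : ∀ r : ℝ, 0 ≤ r →
      ((T : ℂ) • (1 : Matrix α α ℂ) + (r : ℂ) • ((c : ℂ) • Y0 + G0)).det.re ≤
      ((T : ℂ) • (1 : Matrix α α ℂ) + (r : ℂ) • ((c : ℂ) • Y + G)).det.re) :
    ((T : ℂ) • (1 : Matrix (κ × α) (κ × α) ℂ) + Q ⊗ₖ Y0 + (r1 q) ⊗ₖ G0).det.re ≤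
    ((T : ℂ) • (1 : Matrix (κ × α) (κ × α) ℂ) + Q ⊗ₖ Y + (r1 q) ⊗ₖ G).det.re := by
  have hD := defl_psd hQ hq hQq
  have hE := r1_psd q
  have key : ∀ (Y G : Matrix α α ℂ), Y.PosSemidef → G.PosSemidef →
      T ^ Fintype.card (κ × α) *
        ((T : ℂ) • (1 : Matrix (κ × α) (κ × α) ℂ) + Q ⊗ₖ Y + (r1 q) ⊗ₖ G).det.re =
      (∏ i, ((T : ℂ) • (1 : Matrix α α ℂ) + (hD.1.eigenvalues i : ℂ) • Y).det.re) *
      (∏ i, ((T : ℂ) • (1 : Matrix α α ℂ) +
        (hE.1.eigenvalues i : ℂ) • ((c : ℂ) • Y + G)).det.re) := by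
    intro Y G hY hG
    have h3 := factor_det hq hQq (T : ℂ) Y G
    rw [det_kron_herm hD.1, det_kron_herm hE.1] at h3
    have p1 : ∀ i, ((T : ℂ) • (1 : Matrix α α ℂ) + (hD.1.eigenvalues i : ℂ) • Y).det =
        ((((T : ℂ) • (1 : Matrix α α ℂ) + (hD.1.eigenvalues i : ℂ) • Y).det.re : ℝ) : ℂ) := by
      intro i
      apply det_eq_re
      apply (posDef_T hT _).posSemidef
      exact hY.smul (by exact_mod_cast hD.eigenvalues_nonneg i)
    have p2 : ∀ i, ((T : ℂ) • (1 : Matrix α α ℂ) +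
        (hE.1.eigenvalues i : ℂ) • ((c : ℂ) • Y + G)).det =
        ((((T : ℂ) • (1 : Matrix α α ℂ) +
        (hE.1.eigenvalues i : ℂ) • ((c : ℂ) • Y + G)).det.re : ℝ) : ℂ) := by
      intro i
      apply det_eq_re
      apply (posDef_T hT _).posSemidef
      apply PosSemidef.smul _ (by exact_mod_cast hE.eigenvalues_nonneg i)
      exact (hY.smul (by exact_mod_cast hc)).add hG
    rw [Finset.prod_congr rfl (fun i _ => p1 i), Finset.prod_congr rfl (fun i _ => p2 i)] at h3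
    rw [← Complex.ofReal_prod, ← Complex.ofReal_prod, ← Complex.ofReal_mul, ← Complex.ofReal_pow] at h3
    have h4 := congrArg Complex.re h3
    rw [Complex.re_ofReal_mul, Complex.ofReal_re] at h4
    exact h4
  have k0 := key Y0 G0 hY0 hG0
  have k1 := key Y G hY hG
  have hTN : 0 < T ^ Fintype.card (κ × α) := pow_pos hT _
  have hle : T ^ Fintype.card (κ × α) *
      ((T : ℂ) • (1 : Matrix (κ × α) (κ × α) ℂ) + Q ⊗ₖ Y0 + (r1 q) ⊗ₖ G0).det.re ≤
      T ^ Fintype.card (κ × α) *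
      ((T : ℂ) • (1 : Matrix (κ × α) (κ × α) ℂ) + Q ⊗ₖ Y + (r1 q) ⊗ₖ G).det.re := by
    rw [k0, k1]
    apply mul_le_mul
    · apply Finset.prod_le_prod
      · intro i _
        apply det_re_nonneg
        apply (posDef_T hT _).posSemidef
        exact hY0.smul (by exact_mod_cast hD.eigenvalues_nonneg i)
      · intro i _
        exact h1 _ (hD.eigenvalues_nonneg i)
    · apply Finset.prod_le_prod
      · intro i _
        apply det_re_nonneg
        apply (posDef_T hT _).posSemidef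
        apply PosSemidef.smul _ (by exact_mod_cast hE.eigenvalues_nonneg i)
        exact (hY0.smul (by exact_mod_cast hc)).add hG0
      · intro i _
        exact h2 _ (hE.eigenvalues_nonneg i)
    · apply Finset.prod_nonneg
      intro i _
      apply det_re_nonneg
      apply (posDef_T hT _).posSemidef
      apply PosSemidef.smul _ (by exact_mod_cast hE.eigenvalues_nonneg i)
      exact (hY0.smul (by exact_mod_cast hc)).add hG0
    · apply Finset.prod_nonneg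
      intro i _
      apply det_re_nonneg
      apply (posDef_T hT _).posSemidef
      exact hY.smul (by exact_mod_cast hD.eigenvalues_nonneg i)
  exact le_of_mul_le_mul_left hle hTN

end Pool.Agent.Helper90.Spin
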