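import Mathlib
import Pool.Agent.Helper90.Spin.Engine
import Pool.Agent.Helper90.Spin.Factor

set_option autoImplicit false
open Matrix
open scoped ComplexOrder MatrixOrder Kronecker

namespace Pool.Agent.Helper90.Spin

set_option linter.unusedSectionVars false

variable {κ α : Type*} [Fintype κ] [DecidableEq κ] [Fintype α] [DecidableEq α]

lemma trace_re_eq {m : Matrix κ κ ℂ} (hm : m.PosSemidef) : m.trace = (m.trace.re : ℂ) := by
  apply Complex.ext
  · simp
  · have := hm.trace_nonneg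
    rw [Complex.le_def] at this
    simpa using this.2.symm

lemma trace_re_nonneg {m : Matrix κ κ ℂ} (hm : m.PosSemidef) : 0 ≤ m.trace.re := by
  have := hm.trace_nonneg
  rw [Complex.le_def] at this
  simpa using this.1

lemma le_trace {m : Matrix κ κ ℂ} (hm : m.PosSemidef) :
    (((m.trace.re : ℝ) : ℂ) • (1 : Matrix κ κ ℂ) - m).PosSemidef := by
  set U : Matrix κ κ ℂ := (hm.1.eigenvectorUnitary : Matrix κ κ ℂ) with hU
  have hUU : U * Uᴴ = 1 := Unitary.coe_mul_star_self hm.1.eigenvectorUnitary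
  have hsp : m = U * diagonal (fun i => (hm.1.eigenvalues i : ℂ)) * Uᴴ := hm.1.spectral_theorem
  have htr : m.trace.re = ∑ i, hm.1.eigenvalues i := by
    have := hm.1.trace_eq_sum_eigenvalues
    rw [this]
    simp
  have e : ((m.trace.re : ℝ) : ℂ) • (1 : Matrix κ κ ℂ) - m =
      U * diagonal (fun i => (((m.trace.re : ℝ) - hm.1.eigenvalues i : ℝ) : ℂ)) * Uᴴ := by
    have hd : diagonal (fun i => (((m.trace.re : ℝ) - hm.1.eigenvalues i : ℝ) : ℂ)) =
        ((m.trace.re : ℝ) : ℂ) • (1 : Matrix κ κ ℂ) -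
          diagonal (fun i => (hm.1.eigenvalues i : ℂ)) := by
      ext i j
      by_cases hij : i = j
      · subst hij
        simp
      · simp [hij]
    rw [hd, Matrix.mul_sub, Matrix.sub_mul, ← hsp, Matrix.mul_smul, Matrix.mul_one,
      Matrix.smul_mul, hUU]
  rw [e]
  have hpd : (diagonal (fun i => (((m.trace.re : ℝ) - hm.1.eigenvalues i : ℝ) : ℂ))).PosSemidef := by
    rw [posSemidef_diagonal_iff]
    intro i
    have : hm.1.eigenvalues i ≤ m.trace.re := by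
      rw [htr]
      exact Finset.single_le_sum (f := fun i => hm.1.eigenvalues i)
        (fun j _ => hm.eigenvalues_nonneg j) (Finset.mem_univ i)
    exact_mod_cast sub_nonneg.mpr this
  exact hpd.mul_mul_conjTranspose_same _

lemma smul_psd {A : Matrix κ κ ℂ} (hA : A.PosSemidef) {r : ℝ} (hr : 0 ≤ r) :
    ((r : ℂ) • A).PosSemidef := hA.smul (by exact_mod_cast hr)

lemma comp_psd (b : κ → ℂ) {X : Matrix (κ × α) (κ × α) ℂ} (hX : X.PosSemidef) :
    (comp b X).PosSemidef := by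
  rw [comp_eq]
  exact hX.mul_mul_conjTranspose_same _

lemma comp_kron (b : κ → ℂ) (m : Matrix κ κ ℂ) (P : Matrix α α ℂ) :
    comp b (m ⊗ₖ P) = (mᵀ * r1 b).trace • P := by
  ext x y
  simp only [comp, kroneckerMap_apply, Matrix.smul_apply, smul_eq_mul, Matrix.trace,
    Matrix.diag_apply, Matrix.mul_apply, transpose_apply, r1, vecMulVec_apply, Pi.star_apply,
    Finset.sum_mul]
  rw [Finset.sum_comm]
  apply Finset.sum_congr rfl
  intro u _
  apply Finset.sum_congr rfl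
  intro v _
  ring

lemma lin_real {m : Matrix κ κ ℂ} (hm : m.PosSemidef) (b : κ → ℂ) :
    (m * r1 b).trace = ((lin m (r1 b) : ℝ) : ℂ) := by
  have h : (m * r1 b).trace = star b ⬝ᵥ (m *ᵥ b) := by
    rw [r1, mul_vecMulVec, trace_vecMulVec, dotProduct_comm]
  apply Complex.ext
  · simp [lin]
  · have h2 := hm.dotProduct_mulVec_nonneg b
    rw [Complex.le_def] at h2
    rw [h]
    simpa using h2.2.symm

/-- Compression at one site: every signal becomes a product with the top eigenvector. -/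
theorem compress {σ : Type*} [Fintype σ] (hσ : Fintype.card σ ≤ 3)
    (G : σ → Matrix κ κ ℂ) (hG : ∀ s, (G s).PosSemidef)
    {Q : Matrix κ κ ℂ} (hQ : Q.PosSemidef) {q : κ → ℂ} {c : ℝ}
    (hq : star q ⬝ᵥ q = 1) (hQq : Q *ᵥ q = (c : ℂ) • q) (hc : 0 ≤ c)
    (hQc : ((c : ℂ) • (1 : Matrix κ κ ℂ) - Q).PosSemidef) {T : ℝ} (hT : 0 < T)
    {Y P : Matrix α α ℂ} (hY : Y.PosSemidef) (hP : P.PosSemidef)
    {m : Matrix κ κ ℂ} (hm : m.PosSemidef)
    {X : Matrix (κ × α) (κ × α) ℂ} (hX : X.PosSemidef) :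
    ∃ b : κ → ℂ, (∀ s, lin (G s) (r1 b) = (G s).trace.re) ∧
      ((T : ℂ) • (1 : Matrix (κ × α) (κ × α) ℂ) + Q ⊗ₖ Y +
        (r1 q) ⊗ₖ (((m.trace.re : ℝ) : ℂ) • P + comp b X)).det.re ≤
      ((T : ℂ) • (1 : Matrix (κ × α) (κ × α) ℂ) + Q ⊗ₖ Y + m ⊗ₖ P + X).det.re := by
  set τ : ℝ := m.trace.re with hτ
  have hτ0 : 0 ≤ τ := trace_re_nonneg hm
  set B0 : Matrix (κ × α) (κ × α) ℂ := (T : ℂ) • 1 + Q ⊗ₖ Y with hB0
  have hB0pd : B0.PosDef := posDef_T hT (hQ.kronecker hY)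
  set Z0 : Matrix α α ℂ := (T : ℂ) • 1 + (c : ℂ) • Y with hZ0
  have hZ0pd : Z0.PosDef := posDef_T hT (smul_psd hY hc)
  have hone : (1 : Matrix (κ × α) (κ × α) ℂ) = (1 : Matrix κ κ ℂ) ⊗ₖ (1 : Matrix α α ℂ) :=
    one_kronecker_one.symm
  have hB0Z : ((1 : Matrix κ κ ℂ) ⊗ₖ Z0 - B0).PosSemidef := by
    have e : (1 : Matrix κ κ ℂ) ⊗ₖ Z0 - B0 = ((c : ℂ) • (1 : Matrix κ κ ℂ) - Q) ⊗ₖ Y := by
      ext ⟨u, x⟩ ⟨v, y⟩
      simp only [hZ0, hB0, hone, Matrix.sub_apply, Matrix.add_apply, Matrix.smul_apply,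
        kroneckerMap_apply, smul_eq_mul]
      ring
    rw [e]
    exact hQc.kronecker hY
  have hQq' : ∀ u, ∑ v, Q u v * q v = (c : ℂ) * q u := by
    intro u
    have := congrFun hQq u
    simpa [mulVec, dotProduct] using this
  have hqq : ∑ v, star (q v) * q v = 1 := hq
  have hB0q : ∀ u x y, ∑ v, B0 (u, x) (v, y) * q v = q u * Z0 x y := by
    intro u x y
    have e : ∀ v, B0 (u, x) (v, y) * q v =
        ((T : ℂ) * (1 : Matrix α α ℂ) x y) * ((1 : Matrix κ κ ℂ) u v * q v) +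
          (Q u v * q v) * Y x y := by
      intro v
      simp only [hB0, hone, Matrix.add_apply, Matrix.smul_apply,
        kroneckerMap_apply, smul_eq_mul]
      ring
    simp only [e]
    rw [Finset.sum_add_distrib, ← Finset.mul_sum, ← Finset.sum_mul, hQq']
    have h1 : ∑ v, (1 : Matrix κ κ ℂ) u v * q v = q u := by
      simp [Matrix.one_apply]
    rw [h1]
    simp only [hZ0, Matrix.add_apply, Matrix.smul_apply, smul_eq_mul]
    ring
  -- first application: the single site set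
  have hmt : (mᵀ).PosSemidef := hm.transpose
  obtain ⟨b1, hb1, hb1'⟩ := engine (σ := Unit) (by simp) (fun _ => mᵀ) (fun _ => hmt) hq
    (hm.kronecker hP) hB0pd hB0pd hZ0pd hB0Z hB0q
  have hb1u := hb1 ()
  have hcmp : comp b1 (m ⊗ₖ P) = ((τ : ℝ) : ℂ) • P := by
    rw [comp_kron, lin_real hmt, hb1u, trace_transpose]
  rw [hcmp] at hb1'
  have hB0det : 0 < B0.det.re := det_re_pos hB0pd
  have h1 : (B0 + (r1 q) ⊗ₖ ((τ : ℂ) • P)).det.re ≤ (B0 + m ⊗ₖ P).det.re :=
    le_of_mul_le_mul_right hb1' hB0det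
  -- second application
  set B : Matrix (κ × α) (κ × α) ℂ := B0 + m ⊗ₖ P with hB
  set B' : Matrix (κ × α) (κ × α) ℂ := B0 + (r1 q) ⊗ₖ ((τ : ℂ) • P) with hB'
  set Z : Matrix α α ℂ := Z0 + (τ : ℂ) • P with hZ
  have hBpd : B.PosDef := hB0pd.add_posSemidef (hm.kronecker hP)
  have hB'pd : B'.PosDef := hB0pd.add_posSemidef ((r1_psd q).kronecker (smul_psd hP hτ0))
  have hZpd : Z.PosDef := hZ0pd.add_posSemidef (smul_psd hP hτ0)
  have hBZ : ((1 : Matrix κ κ ℂ) ⊗ₖ Z - B).PosSemidef := by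
    have e : (1 : Matrix κ κ ℂ) ⊗ₖ Z - B =
        ((1 : Matrix κ κ ℂ) ⊗ₖ Z0 - B0) + ((τ : ℂ) • (1 : Matrix κ κ ℂ) - m) ⊗ₖ P := by
      ext ⟨u, x⟩ ⟨v, y⟩
      simp only [hZ, hB, Matrix.sub_apply, Matrix.add_apply, Matrix.smul_apply,
        kroneckerMap_apply, smul_eq_mul]
      ring
    rw [e]
    exact hB0Z.add ((le_trace hm).kronecker hP)
  have hB'q : ∀ u x y, ∑ v, B' (u, x) (v, y) * q v = q u * Z x y := by
    intro u x y
    have e : ∀ v, B' (u, x) (v, y) * q v = B0 (u, x) (v, y) * q v +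
        q u * ((τ : ℂ) * P x y) * (star (q v) * q v) := by
      intro v
      simp only [hB', Matrix.add_apply, Matrix.smul_apply,
        kroneckerMap_apply, smul_eq_mul, r1, vecMulVec_apply, Pi.star_apply]
      ring
    simp only [e]
    rw [Finset.sum_add_distrib, hB0q, ← Finset.mul_sum, hqq]
    simp only [hZ, Matrix.add_apply, Matrix.smul_apply, smul_eq_mul]
    ring
  obtain ⟨b, hb, hb'⟩ := engine hσ G hG hq hX hBpd hB'pd hZpd hBZ hB'q
  refine ⟨b, hb, ?_⟩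
  have hBdet : 0 < B.det.re := det_re_pos hBpd
  have hB'det : 0 < B'.det.re := det_re_pos hB'pd
  have hXdet : 0 ≤ (B' + (r1 q) ⊗ₖ comp b X).det.re :=
    det_re_nonneg (hB'pd.posSemidef.add ((r1_psd q).kronecker (comp_psd b hX)))
  have h2 : (B' + (r1 q) ⊗ₖ comp b X).det.re ≤ (B + X).det.re := by
    have h3 : (B' + (r1 q) ⊗ₖ comp b X).det.re * B'.det.re ≤ (B + X).det.re * B'.det.re :=
      (mul_le_mul_of_nonneg_left h1 hXdet).trans hb'
    exact le_of_mul_le_mul_right h3 hB'det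
  have e : B0 + (r1 q) ⊗ₖ ((τ : ℂ) • P + comp b X) = B' + (r1 q) ⊗ₖ comp b X := by
    rw [hB', kronecker_add, ← add_assoc]
  rw [e]
  exact h2

end Pool.Agent.Helper90.Spin
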