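import Mathlib
import Pool.Agent.Helper90.Spin.Compress

set_option autoImplicit false
open Matrix
open scoped ComplexOrder MatrixOrder Kronecker

namespace Pool.Agent.Helper90.Spin

set_option linter.unusedSectionVars false

section unital

variable {b ι : Type*} [Fintype b] [DecidableEq b] [Fintype ι]

/-- determinants increase under unital trace preserving maps -/
theorem det_unital (J : ι → Matrix b b ℂ) (h1 : ∑ k, (J k)ᴴ * J k = 1)
    (h2 : ∑ k, J k * (J k)ᴴ = 1) {M : Matrix b b ℂ} (hM : M.PosSemidef) :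
    (1 + M).det.re ≤ (1 + ∑ k, J k * M * (J k)ᴴ).det.re := by
  have hΦ : (∑ k, J k * M * (J k)ᴴ).PosSemidef :=
    posSemidef_sum _ (fun k _ => hM.mul_mul_conjTranspose_same _)
  set Φ := ∑ k, J k * M * (J k)ᴴ with hΦdef
  set U : Matrix b b ℂ := (hM.1.eigenvectorUnitary : Matrix b b ℂ) with hU
  set V : Matrix b b ℂ := (hΦ.1.eigenvectorUnitary : Matrix b b ℂ) with hV
  set m := hM.1.eigenvalues with hm
  set γ := hΦ.1.eigenvalues with hγ
  have hUU : U * Uᴴ = 1 := Unitary.coe_mul_star_self hM.1.eigenvectorUnitary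
  have hVV : V * Vᴴ = 1 := Unitary.coe_mul_star_self hΦ.1.eigenvectorUnitary
  have hUU' : Uᴴ * U = 1 := Unitary.coe_star_mul_self hM.1.eigenvectorUnitary
  have hVV' : Vᴴ * V = 1 := Unitary.coe_star_mul_self hΦ.1.eigenvectorUnitary
  have hMs : M = U * diagonal (fun i => (m i : ℂ)) * Uᴴ := hM.1.spectral_theorem
  have hΦs : Φ = V * diagonal (fun i => (γ i : ℂ)) * Vᴴ := hΦ.1.spectral_theorem
  obtain ⟨N, hN⟩ : ∃ N : ι → Matrix b b ℂ, ∀ k, N k = Vᴴ * J k * U := ⟨_, fun _ => rfl⟩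
  have e1 : ∑ k, N k * (N k)ᴴ = 1 := by
    have : ∀ k, N k * (N k)ᴴ = Vᴴ * (J k * (J k)ᴴ) * V := by
      intro k
      rw [hN, conjTranspose_mul, conjTranspose_mul, conjTranspose_conjTranspose]
      calc Vᴴ * J k * U * (Uᴴ * ((J k)ᴴ * V)) = Vᴴ * J k * (U * Uᴴ) * ((J k)ᴴ * V) := by
            simp only [Matrix.mul_assoc]
        _ = _ := by rw [hUU, Matrix.mul_one]; simp only [Matrix.mul_assoc]
    simp only [this]
    rw [← Matrix.sum_mul, ← Matrix.mul_sum, h2, Matrix.mul_one, hVV']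
  have e2 : ∑ k, (N k)ᴴ * N k = 1 := by
    have : ∀ k, (N k)ᴴ * N k = Uᴴ * ((J k)ᴴ * J k) * U := by
      intro k
      rw [hN, conjTranspose_mul, conjTranspose_mul, conjTranspose_conjTranspose]
      calc Uᴴ * ((J k)ᴴ * V) * (Vᴴ * J k * U) = Uᴴ * (J k)ᴴ * (V * Vᴴ) * (J k * U) := by
            simp only [Matrix.mul_assoc]
        _ = _ := by rw [hVV, Matrix.mul_one]; simp only [Matrix.mul_assoc]
    simp only [this]
    rw [← Matrix.sum_mul, ← Matrix.mul_sum, h1, Matrix.mul_one, hUU']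
  have e3 : ∑ k, N k * diagonal (fun i => (m i : ℂ)) * (N k)ᴴ = diagonal (fun i => (γ i : ℂ)) := by
    have h5 : ∀ k, N k * diagonal (fun i => (m i : ℂ)) * (N k)ᴴ = Vᴴ * (J k * M * (J k)ᴴ) * V := by
      intro k
      rw [hN, conjTranspose_mul, conjTranspose_mul, conjTranspose_conjTranspose, hMs]
      simp only [Matrix.mul_assoc]
    simp only [h5]
    rw [← Matrix.sum_mul, ← Matrix.mul_sum, ← hΦdef, hΦs]
    calc Vᴴ * (V * diagonal (fun i => (γ i : ℂ)) * Vᴴ) * V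
        = (Vᴴ * V) * diagonal (fun i => (γ i : ℂ)) * (Vᴴ * V) := by simp only [Matrix.mul_assoc]
      _ = _ := by rw [hVV', Matrix.one_mul, Matrix.mul_one]
  obtain ⟨S, hS⟩ : ∃ S : b → b → ℝ, ∀ i j, S i j = ∑ k, Complex.normSq (N k i j) :=
    ⟨_, fun _ _ => rfl⟩
  have hS0 : ∀ i j, 0 ≤ S i j := fun i j => by
    rw [hS]; exact Finset.sum_nonneg (fun k _ => Complex.normSq_nonneg _)
  have hrow : ∀ i, ∑ j, S i j = 1 := by
    intro i
    have h := congrFun (congrFun e1 i) i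
    rw [Matrix.sum_apply, Matrix.one_apply_eq] at h
    have h' : ((∑ j, S i j : ℝ) : ℂ) = 1 := by
      rw [← h]
      push_cast [hS]
      rw [Finset.sum_comm]
      apply Finset.sum_congr rfl
      intro k _
      rw [Matrix.mul_apply]
      apply Finset.sum_congr rfl
      intro j _
      rw [conjTranspose_apply, ← Complex.mul_conj]
      rfl
    exact_mod_cast h'
  have hcol : ∀ j, ∑ i, S i j = 1 := by
    intro j
    have h := congrFun (congrFun e2 j) j
    rw [Matrix.sum_apply, Matrix.one_apply_eq] at h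
    have h' : ((∑ i, S i j : ℝ) : ℂ) = 1 := by
      rw [← h]
      push_cast [hS]
      rw [Finset.sum_comm]
      apply Finset.sum_congr rfl
      intro k _
      rw [Matrix.mul_apply]
      apply Finset.sum_congr rfl
      intro i _
      rw [conjTranspose_apply, ← Complex.mul_conj, mul_comm]
      rfl
    exact_mod_cast h'
  have hγm : ∀ i, γ i = ∑ j, S i j * m j := by
    intro i
    have h := congrFun (congrFun e3 i) i
    rw [Matrix.sum_apply, diagonal_apply_eq] at h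
    have h' : (γ i : ℂ) = ((∑ j, S i j * m j : ℝ) : ℂ) := by
      rw [← h]
      push_cast [hS]
      simp only [Finset.sum_mul]
      rw [Finset.sum_comm]
      apply Finset.sum_congr rfl
      intro k _
      rw [Matrix.mul_apply]
      apply Finset.sum_congr rfl
      intro j _
      rw [Matrix.mul_diagonal, conjTranspose_apply, ← Complex.mul_conj]
      simp only [RCLike.star_def]
      ring
    exact_mod_cast h'
  have hm0 : ∀ j, 0 ≤ m j := hM.eigenvalues_nonneg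
  have d1 := det_shift hM.1 1
  have d2 := det_shift hΦ.1 1
  rw [Complex.ofReal_one, one_smul] at d1 d2
  rw [d1, d2, ← Complex.ofReal_prod, ← Complex.ofReal_prod, Complex.ofReal_re, Complex.ofReal_re]
  have key : ∀ i, ∏ j, (1 + m j) ^ (S i j) ≤ 1 + γ i := by
    intro i
    have h := Real.geom_mean_le_arith_mean_weighted Finset.univ (fun j => S i j)
      (fun j => 1 + m j) (fun j _ => hS0 i j) (hrow i) (fun j _ => by have := hm0 j; positivity)
    refine h.trans (le_of_eq ?_)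
    rw [hγm i]
    simp only [mul_add, mul_one, Finset.sum_add_distrib, hrow]
  calc ∏ j, (1 + m j) = ∏ j, (1 + m j) ^ (∑ i, S i j) := by
        apply Finset.prod_congr rfl
        intro j _
        rw [hcol, Real.rpow_one]
    _ = ∏ j, ∏ i, (1 + m j) ^ (S i j) := by
        apply Finset.prod_congr rfl
        intro j _
        rw [Real.rpow_sum_of_pos (by have := hm0 j; positivity)]
    _ = ∏ i, ∏ j, (1 + m j) ^ (S i j) := Finset.prod_comm
    _ ≤ ∏ i, (1 + γ i) := by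
        apply Finset.prod_le_prod
        · intro i _
          exact Finset.prod_nonneg (fun j _ => Real.rpow_nonneg (by have := hm0 j; positivity) _)
        · intro i _
          exact key i

end unital

variable {κ α Ω : Type*} [Fintype κ] [DecidableEq κ] [Fintype α] [DecidableEq α]
  [Fintype Ω] [DecidableEq Ω]

lemma psd_factor {n : Type*} [Fintype n] [DecidableEq n] {X : Matrix n n ℂ} (hX : X.PosSemidef) :
    ∃ V : Matrix n n ℂ, X = V * Vᴴ := by
  obtain ⟨S, hS⟩ := CStarAlgebra.nonneg_iff_eq_star_mul_self.mp hX.nonneg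
  refine ⟨Sᴴ, ?_⟩
  rw [conjTranspose_conjTranspose]
  exact hS

lemma det_q {β : Type*} [Fintype β] [DecidableEq β] {B' : Matrix (κ × α) (κ × α) ℂ}
    {Z : Matrix α α ℂ} {q : κ → ℂ} (hq : star q ⬝ᵥ q = 1) (hB' : B'.PosDef) (hZ : Z.PosDef)
    (hB'Z : ∀ u x y, ∑ v, B' (u, x) (v, y) * q v = q u * Z x y) (C : Matrix α β ℂ) :
    (B' + (r1 q) ⊗ₖ (C * Cᴴ)).det.re = B'.det.re * (1 + Cᴴ * Z⁻¹ * C).det.re := by
  have hBu' : IsUnit B' := hB'.isUnit
  obtain ⟨V', hV'⟩ : ∃ V' : Matrix (κ × α) β ℂ, ∀ p j, V' p j = q p.1 * C p.2 j :=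
    ⟨fun p j => q p.1 * C p.2 j, fun _ _ => rfl⟩
  obtain ⟨V'', hV''⟩ : ∃ V'' : Matrix (κ × α) β ℂ,
      ∀ p j, V'' p j = q p.1 * (Z⁻¹ * C) p.2 j :=
    ⟨fun p j => q p.1 * (Z⁻¹ * C) p.2 j, fun _ _ => rfl⟩
  have hV'V' : V' * V'ᴴ = (r1 q) ⊗ₖ (C * Cᴴ) := by
    ext ⟨u, x⟩ ⟨v, y⟩
    rw [kroneckerMap_apply, Matrix.mul_apply, Matrix.mul_apply, Finset.mul_sum]
    apply Finset.sum_congr rfl
    intro j _
    simp only [hV', conjTranspose_apply, star_mul', r1, vecMulVec_apply, Pi.star_apply]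
    ring
  have hB'V : B' * V'' = V' := by
    ext ⟨u, x⟩ j
    rw [Matrix.mul_apply, Fintype.sum_prod_type, Finset.sum_comm]
    have h2 : ∀ y, ∑ v, B' (u, x) (v, y) * V'' (v, y) j = q u * (Z x y * (Z⁻¹ * C) y j) := by
      intro y
      rw [← mul_assoc, ← hB'Z, Finset.sum_mul]
      apply Finset.sum_congr rfl
      intro v _
      rw [hV'']
      ring
    simp only [h2]
    rw [← Finset.mul_sum, ← Matrix.mul_apply, ← Matrix.mul_assoc,
      Matrix.mul_nonsing_inv Z ((Matrix.isUnit_iff_isUnit_det Z).mp hZ.isUnit), Matrix.one_mul,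
      hV']
  have hV'i : B'⁻¹ * V' = V'' := by
    rw [← hB'V, ← Matrix.mul_assoc,
      Matrix.nonsing_inv_mul B' ((Matrix.isUnit_iff_isUnit_det B').mp hBu'), Matrix.one_mul]
  have hXi : V'ᴴ * B'⁻¹ * V' = Cᴴ * Z⁻¹ * C := by
    rw [Matrix.mul_assoc, hV'i, Matrix.mul_assoc]
    ext j k
    rw [Matrix.mul_apply, Matrix.mul_apply, Fintype.sum_prod_type, Finset.sum_comm]
    apply Finset.sum_congr rfl
    intro x _
    simp only [conjTranspose_apply, hV', hV'', star_mul']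
    have h4 : ∑ u, star (q u) * q u = 1 := hq
    calc ∑ u, star (q u) * star (C x j) * (q u * (Z⁻¹ * C) x k)
        = (∑ u, star (q u) * q u) * (star (C x j) * (Z⁻¹ * C) x k) := by
          rw [Finset.sum_mul]
          apply Finset.sum_congr rfl
          intro u _
          ring
      _ = _ := by rw [h4, one_mul]
  rw [← hV'V', det_add_mul_conj hBu', hXi, det_eq_re hB'.posSemidef, Complex.re_ofReal_mul,
    Complex.ofReal_re]

/-- alignment of product signals, rank one version -/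
theorem prodAlign1 {B B' : Matrix (κ × α) (κ × α) ℂ} {Z : Matrix α α ℂ} {q : κ → ℂ}
    (hq : star q ⬝ᵥ q = 1) (hB : B.PosDef) (hB' : B'.PosDef) (hZ : Z.PosDef)
    (hBZ : ((1 : Matrix κ κ ℂ) ⊗ₖ Z - B).PosSemidef)
    (hB'Z : ∀ u x y, ∑ v, B' (u, x) (v, y) * q v = q u * Z x y)
    (g : Ω → κ → ℂ) (hg : ∀ ω, star (g ω) ⬝ᵥ g ω = 1) (W : Ω → Matrix α α ℂ)
    (hW : ∀ ω, (W ω).PosSemidef) :
    (B' + (r1 q) ⊗ₖ (∑ ω, W ω)).det.re * B.det.re ≤
      (B + ∑ ω, (r1 (g ω)) ⊗ₖ W ω).det.re * B'.det.re := by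
  choose Cw hCw using fun ω => psd_factor (hW ω)
  obtain ⟨C, hC⟩ : ∃ C : Matrix α (Ω × α) ℂ, ∀ x ω l, C x (ω, l) = Cw ω x l :=
    ⟨fun x p => Cw p.1 x p.2, fun _ _ _ => rfl⟩
  have hCC : ∑ ω, W ω = C * Cᴴ := by
    ext x y
    rw [Matrix.sum_apply, Matrix.mul_apply, Fintype.sum_prod_type]
    apply Finset.sum_congr rfl
    intro ω _
    rw [hCw ω, Matrix.mul_apply]
    apply Finset.sum_congr rfl
    intro l _
    rw [conjTranspose_apply, conjTranspose_apply, hC, hC]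
  obtain ⟨V, hV⟩ : ∃ V : Matrix (κ × α) (Ω × α) ℂ, ∀ u x ω l, V (u, x) (ω, l) = g ω u * C x (ω, l) :=
    ⟨fun p j => g j.1 p.1 * C p.2 j, fun _ _ _ _ => rfl⟩
  have hVV : ∑ ω, (r1 (g ω)) ⊗ₖ W ω = V * Vᴴ := by
    ext ⟨u, x⟩ ⟨v, y⟩
    rw [Matrix.sum_apply, Matrix.mul_apply, Fintype.sum_prod_type]
    apply Finset.sum_congr rfl
    intro ω _
    rw [kroneckerMap_apply, hCw ω, Matrix.mul_apply, Finset.mul_sum]
    apply Finset.sum_congr rfl
    intro l _
    simp only [conjTranspose_apply, hV, hC, star_mul', r1, vecMulVec_apply, Pi.star_apply]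
    ring
  have hBu : IsUnit B := hB.isUnit
  have hone : (1 : Matrix κ κ ℂ).PosDef := PosDef.one
  have hZk : ((1 : Matrix κ κ ℂ) ⊗ₖ Z).PosDef := hone.kronecker hZ
  have hinv : (B⁻¹ - ((1 : Matrix κ κ ℂ) ⊗ₖ Z)⁻¹).PosSemidef := inv_anti hB hZk hBZ
  have hinv' : (B⁻¹ - (1 : Matrix κ κ ℂ) ⊗ₖ Z⁻¹).PosSemidef := by
    rw [inv_kronecker, inv_one] at hinv
    exact hinv
  have hZi : (Z⁻¹).PosDef := hZ.inv
  have h1 : (1 + Vᴴ * ((1 : Matrix κ κ ℂ) ⊗ₖ Z⁻¹) * V).det.re ≤ (1 + Vᴴ * B⁻¹ * V).det.re := by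
    apply det_mono
    · exact PosDef.one.add_posSemidef
        ((hone.posSemidef.kronecker hZi.posSemidef).conjTranspose_mul_mul_same _)
    · have : 1 + Vᴴ * B⁻¹ * V - (1 + Vᴴ * ((1 : Matrix κ κ ℂ) ⊗ₖ Z⁻¹) * V) =
          Vᴴ * (B⁻¹ - (1 : Matrix κ κ ℂ) ⊗ₖ Z⁻¹) * V := by
        rw [Matrix.mul_sub, Matrix.sub_mul]
        abel
      rw [this]
      exact hinv'.conjTranspose_mul_mul_same _
  have hdetB : (B + ∑ ω, (r1 (g ω)) ⊗ₖ W ω).det.re = B.det.re * (1 + Vᴴ * B⁻¹ * V).det.re := by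
    rw [hVV, det_add_mul_conj hBu, det_eq_re hB.posSemidef, Complex.re_ofReal_mul,
      Complex.ofReal_re]
  -- the Schur multiplier
  obtain ⟨J, hJ⟩ : ∃ J : κ → Matrix (Ω × α) (Ω × α) ℂ,
      ∀ u, J u = diagonal (fun j : Ω × α => star (g j.1 u)) := ⟨_, fun _ => rfl⟩
  have hg' : ∀ ω, ∑ u, star (g ω u) * g ω u = 1 := fun ω => hg ω
  have hJ1 : ∑ u, (J u)ᴴ * J u = 1 := by
    ext i j
    rw [Matrix.sum_apply]
    simp only [hJ, diagonal_conjTranspose, diagonal_mul_diagonal, diagonal_apply, Matrix.one_apply]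
    by_cases hij : i = j
    · subst hij
      simp only [if_true, Pi.star_apply, star_star]
      rw [← hg' i.1]
      exact Finset.sum_congr rfl (fun u _ => by ring)
    · simp [hij]
  have hJ2 : ∑ u, J u * (J u)ᴴ = 1 := by
    ext i j
    rw [Matrix.sum_apply]
    simp only [hJ, diagonal_conjTranspose, diagonal_mul_diagonal, diagonal_apply, Matrix.one_apply]
    by_cases hij : i = j
    · subst hij
      simp only [if_true, Pi.star_apply, star_star]
      rw [← hg' i.1]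
    · simp [hij]
  have hM : (Cᴴ * Z⁻¹ * C).PosSemidef := hZi.posSemidef.conjTranspose_mul_mul_same _
  have hGram : Vᴴ * ((1 : Matrix κ κ ℂ) ⊗ₖ Z⁻¹) * V = ∑ u, J u * (Cᴴ * Z⁻¹ * C) * (J u)ᴴ := by
    have hVe : ∀ u : κ, ∃ Vu : Matrix α (Ω × α) ℂ, Vu = C * (J u)ᴴ := fun u => ⟨_, rfl⟩
    ext ⟨ω, l⟩ ⟨ω', l'⟩
    rw [Matrix.sum_apply]
    have hL : (Vᴴ * ((1 : Matrix κ κ ℂ) ⊗ₖ Z⁻¹) * V) (ω, l) (ω', l') =
        ∑ u, ∑ y, (∑ x, star (V (u, x) (ω, l)) * Z⁻¹ x y) * V (u, y) (ω', l') := by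
      rw [Matrix.mul_apply, Fintype.sum_prod_type]
      apply Finset.sum_congr rfl
      intro u _
      apply Finset.sum_congr rfl
      intro y _
      congr 1
      rw [Matrix.mul_apply, Fintype.sum_prod_type, Finset.sum_comm]
      apply Finset.sum_congr rfl
      intro x _
      simp only [kroneckerMap_apply, conjTranspose_apply, Matrix.one_apply, ite_mul, one_mul,
        zero_mul, mul_ite, mul_zero, Finset.sum_ite_eq', Finset.mem_univ, if_true]
    rw [hL]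
    apply Finset.sum_congr rfl
    intro u _
    rw [hJ u, diagonal_conjTranspose, Matrix.mul_diagonal, Matrix.diagonal_mul]
    simp only [Pi.star_apply, star_star]
    rw [Matrix.mul_apply, Finset.mul_sum, Finset.sum_mul]
    apply Finset.sum_congr rfl
    intro y _
    rw [Matrix.mul_apply, Finset.sum_mul, Finset.sum_mul, Finset.mul_sum, Finset.sum_mul]
    apply Finset.sum_congr rfl
    intro x _
    simp only [hV, conjTranspose_apply, star_mul']
    ring
  have h2 : (1 + Cᴴ * Z⁻¹ * C).det.re ≤ (1 + Vᴴ * ((1 : Matrix κ κ ℂ) ⊗ₖ Z⁻¹) * V).det.re := by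
    rw [hGram]
    exact det_unital J hJ1 hJ2 hM
  have hdetB' : (B' + (r1 q) ⊗ₖ (∑ ω, W ω)).det.re = B'.det.re * (1 + Cᴴ * Z⁻¹ * C).det.re := by
    rw [hCC]
    exact det_q hq hB' hZ hB'Z C
  rw [hdetB, hdetB']
  have hp : 0 < B.det.re := det_re_pos hB
  have hp' : 0 < B'.det.re := det_re_pos hB'
  calc B'.det.re * (1 + Cᴴ * Z⁻¹ * C).det.re * B.det.re
      = (B'.det.re * B.det.re) * (1 + Cᴴ * Z⁻¹ * C).det.re := by ring
    _ ≤ (B'.det.re * B.det.re) * (1 + Vᴴ * B⁻¹ * V).det.re :=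
        mul_le_mul_of_nonneg_left (h2.trans h1) (mul_pos hp' hp).le
    _ = _ := by ring

lemma spectral_sum {σ : Matrix κ κ ℂ} (hσ : σ.PosSemidef) :
    ∃ (lam : κ → ℝ) (u : κ → κ → ℂ), (∀ j, 0 ≤ lam j) ∧ (∀ j, star (u j) ⬝ᵥ u j = 1) ∧
      σ = ∑ j, (lam j : ℂ) • r1 (u j) ∧ σ.trace.re = ∑ j, lam j := by
  set U : Matrix κ κ ℂ := (hσ.1.eigenvectorUnitary : Matrix κ κ ℂ) with hU
  have hUU' : Uᴴ * U = 1 := Unitary.coe_star_mul_self hσ.1.eigenvectorUnitary
  have hsp : σ = U * diagonal (fun i => (hσ.1.eigenvalues i : ℂ)) * Uᴴ := hσ.1.spectral_theorem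
  refine ⟨hσ.1.eigenvalues, fun j i => U i j, hσ.eigenvalues_nonneg, ?_, ?_, ?_⟩
  · intro j
    have := congrFun (congrFun hUU' j) j
    rw [Matrix.mul_apply, Matrix.one_apply_eq] at this
    exact this
  · ext i k
    conv_lhs => rw [hsp]
    rw [Matrix.mul_apply, Matrix.sum_apply]
    apply Finset.sum_congr rfl
    intro j _
    rw [Matrix.mul_diagonal, Matrix.smul_apply, smul_eq_mul, conjTranspose_apply]
    simp only [r1, vecMulVec_apply, Pi.star_apply]
    ring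
  · have := hσ.1.trace_eq_sum_eigenvalues
    rw [this]
    simp

/-- alignment of product signals -/
theorem prodAlign {B B' : Matrix (κ × α) (κ × α) ℂ} {Z : Matrix α α ℂ} {q : κ → ℂ}
    (hq : star q ⬝ᵥ q = 1) (hB : B.PosDef) (hB' : B'.PosDef) (hZ : Z.PosDef)
    (hBZ : ((1 : Matrix κ κ ℂ) ⊗ₖ Z - B).PosSemidef)
    (hB'Z : ∀ u x y, ∑ v, B' (u, x) (v, y) * q v = q u * Z x y)
    (σ : Ω → Matrix κ κ ℂ) (hσ : ∀ ω, (σ ω).PosSemidef) (W : Ω → Matrix α α ℂ)
    (hW : ∀ ω, (W ω).PosSemidef) :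
    (B' + (r1 q) ⊗ₖ (∑ ω, (((σ ω).trace.re : ℝ) : ℂ) • W ω)).det.re * B.det.re ≤
      (B + ∑ ω, (σ ω) ⊗ₖ W ω).det.re * B'.det.re := by
  choose lam u hlam hu hσe htr using fun ω => spectral_sum (hσ ω)
  have h := prodAlign1 (Ω := Ω × κ) hq hB hB' hZ hBZ hB'Z (fun p => u p.1 p.2)
    (fun p => hu p.1 p.2) (fun p => (lam p.1 p.2 : ℂ) • W p.1)
    (fun p => smul_psd (hW p.1) (hlam p.1 p.2))
  have e1 : ∑ p : Ω × κ, (lam p.1 p.2 : ℂ) • W p.1 =
      ∑ ω, (((σ ω).trace.re : ℝ) : ℂ) • W ω := by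
    rw [Fintype.sum_prod_type]
    apply Finset.sum_congr rfl
    intro ω _
    rw [htr ω, Complex.ofReal_sum, Finset.sum_smul]
  have e2 : ∑ p : Ω × κ, (r1 (u p.1 p.2)) ⊗ₖ ((lam p.1 p.2 : ℂ) • W p.1) =
      ∑ ω, (σ ω) ⊗ₖ W ω := by
    rw [Fintype.sum_prod_type]
    apply Finset.sum_congr rfl
    intro ω _
    ext ⟨a, x⟩ ⟨b, y⟩
    rw [Matrix.sum_apply, kroneckerMap_apply]
    conv_rhs => rw [hσe ω]
    rw [Matrix.sum_apply, Finset.sum_mul]
    apply Finset.sum_congr rfl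
    intro j _
    simp only [kroneckerMap_apply, Matrix.smul_apply, smul_eq_mul]
    ring
  rw [e1, e2] at h
  exact h

end Pool.Agent.Helper90.Spin
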