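import Mathlib
import Pool.Agent.Helper90.Spin.Prod

set_option autoImplicit false
open Matrix
open scoped ComplexOrder MatrixOrder Kronecker

namespace Pool.Agent.Helper90.Spin

set_option linter.unusedSectionVars false

variable {κ α Ω : Type*} [Fintype κ] [DecidableEq κ] [Fintype α] [DecidableEq α]
  [Fintype Ω] [DecidableEq Ω]

/-- Compression at one site: all product signals and up to three entangled ones. -/
theorem compress2 {σ : Type*} [Fintype σ] (hσ : Fintype.card σ ≤ 3)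
    (G : σ → Matrix κ κ ℂ) (hG : ∀ s, (G s).PosSemidef)
    {Q : Matrix κ κ ℂ} (hQ : Q.PosSemidef) {q : κ → ℂ} {c : ℝ}
    (hq : star q ⬝ᵥ q = 1) (hQq : Q *ᵥ q = (c : ℂ) • q) (hc : 0 ≤ c)
    (hQc : ((c : ℂ) • (1 : Matrix κ κ ℂ) - Q).PosSemidef) {T : ℝ} (hT : 0 < T)
    {Y : Matrix α α ℂ} (hY : Y.PosSemidef)
    (s : Ω → Matrix κ κ ℂ) (hs : ∀ ω, (s ω).PosSemidef)
    (W : Ω → Matrix α α ℂ) (hW : ∀ ω, (W ω).PosSemidef)
    {X : Matrix (κ × α) (κ × α) ℂ} (hX : X.PosSemidef) :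
    ∃ b : κ → ℂ, (∀ j, lin (G j) (r1 b) = (G j).trace.re) ∧
      ((T : ℂ) • (1 : Matrix (κ × α) (κ × α) ℂ) + Q ⊗ₖ Y +
        (r1 q) ⊗ₖ ((∑ ω, (((s ω).trace.re : ℝ) : ℂ) • W ω) + comp b X)).det.re ≤
      ((T : ℂ) • (1 : Matrix (κ × α) (κ × α) ℂ) + Q ⊗ₖ Y + (∑ ω, (s ω) ⊗ₖ W ω) + X).det.re := by
  set B0 : Matrix (κ × α) (κ × α) ℂ := (T : ℂ) • 1 + Q ⊗ₖ Y with hB0
  have hB0pd : B0.PosDef := posDef_T hT (hQ.kronecker hY)
  set Z0 : Matrix α α ℂ := (T : ℂ) • 1 + (c : ℂ) • Y with hZ0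
  have hZ0pd : Z0.PosDef := posDef_T hT (smul_psd hY hc)
  have hone : (1 : Matrix (κ × α) (κ × α) ℂ) = (1 : Matrix κ κ ℂ) ⊗ₖ (1 : Matrix α α ℂ) :=
    one_kronecker_one.symm
  have hB0Z : ((1 : Matrix κ κ ℂ) ⊗ₖ Z0 - B0).PosSemidef := by
    have e : (1 : Matrix κ κ ℂ) ⊗ₖ Z0 - B0 = ((c : ℂ) • (1 : Matrix κ κ ℂ) - Q) ⊗ₖ Y := by
      ext ⟨u, x⟩ ⟨v, y⟩
      simp only [hZ0, hB0, hone, Matrix.sub_apply, Matrix.add_apply, Matrix.smul_apply,
        kroneckerMap_apply, smul_eq_mul]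
      ring
    rw [e]
    exact hQc.kronecker hY
  have hQq' : ∀ u, ∑ v, Q u v * q v = (c : ℂ) * q u := by
    intro u
    have := congrFun hQq u
    simpa [mulVec, dotProduct] using this
  have hqq : ∑ v, star (q v) * q v = 1 := hq
  have hB0q : ∀ u x y, ∑ v, B0 (u, x) (v, y) * q v = q u * Z0 x y := by
    intro u x y
    have e : ∀ v, B0 (u, x) (v, y) * q v =
        ((T : ℂ) * (1 : Matrix α α ℂ) x y) * ((1 : Matrix κ κ ℂ) u v * q v) +
          (Q u v * q v) * Y x y := by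
      intro v
      simp only [hB0, hone, Matrix.add_apply, Matrix.smul_apply,
        kroneckerMap_apply, smul_eq_mul]
      ring
    simp only [e]
    rw [Finset.sum_add_distrib, ← Finset.mul_sum, ← Finset.sum_mul, hQq']
    have h1 : ∑ v, (1 : Matrix κ κ ℂ) u v * q v = q u := by
      simp [Matrix.one_apply]
    rw [h1]
    simp only [hZ0, Matrix.add_apply, Matrix.smul_apply, smul_eq_mul]
    ring
  -- first step: the product signals
  set Wt : Matrix α α ℂ := ∑ ω, (((s ω).trace.re : ℝ) : ℂ) • W ω with hWt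
  have hWtpsd : Wt.PosSemidef :=
    posSemidef_sum _ (fun ω _ => smul_psd (hW ω) (trace_re_nonneg (hs ω)))
  set S : Matrix (κ × α) (κ × α) ℂ := ∑ ω, (s ω) ⊗ₖ W ω with hS
  have hSpsd : S.PosSemidef := posSemidef_sum _ (fun ω _ => (hs ω).kronecker (hW ω))
  have h1' := prodAlign hq hB0pd hB0pd hZ0pd hB0Z hB0q s hs W hW
  rw [← hWt, ← hS] at h1'
  have hB0det : 0 < B0.det.re := det_re_pos hB0pd
  have h1 : (B0 + (r1 q) ⊗ₖ Wt).det.re ≤ (B0 + S).det.re :=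
    le_of_mul_le_mul_right h1' hB0det
  -- second application
  set B : Matrix (κ × α) (κ × α) ℂ := B0 + S with hB
  set B' : Matrix (κ × α) (κ × α) ℂ := B0 + (r1 q) ⊗ₖ Wt with hB'
  set Z : Matrix α α ℂ := Z0 + Wt with hZ
  have hBpd : B.PosDef := hB0pd.add_posSemidef hSpsd
  have hB'pd : B'.PosDef := hB0pd.add_posSemidef ((r1_psd q).kronecker hWtpsd)
  have hZpd : Z.PosDef := hZ0pd.add_posSemidef hWtpsd
  have hBZ : ((1 : Matrix κ κ ℂ) ⊗ₖ Z - B).PosSemidef := by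
    have e : (1 : Matrix κ κ ℂ) ⊗ₖ Z - B =
        ((1 : Matrix κ κ ℂ) ⊗ₖ Z0 - B0) +
          ∑ ω, ((((s ω).trace.re : ℝ) : ℂ) • (1 : Matrix κ κ ℂ) - s ω) ⊗ₖ W ω := by
      ext ⟨u, x⟩ ⟨v, y⟩
      simp only [hZ, hB, hWt, hS, Matrix.sub_apply, Matrix.add_apply, Matrix.smul_apply,
        kroneckerMap_apply, smul_eq_mul, Matrix.sum_apply, sub_mul, Finset.sum_sub_distrib,
        mul_add, Finset.mul_sum]
      have e2 : ∑ ω, (1 : Matrix κ κ ℂ) u v * ((((s ω).trace.re : ℝ) : ℂ) * W ω x y) =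
          ∑ ω, (((s ω).trace.re : ℝ) : ℂ) * (1 : Matrix κ κ ℂ) u v * W ω x y :=
        Finset.sum_congr rfl (fun ω _ => by ring)
      rw [e2]
      ring
    rw [e]
    exact hB0Z.add (posSemidef_sum _ (fun ω _ => (le_trace (hs ω)).kronecker (hW ω)))
  have hB'q : ∀ u x y, ∑ v, B' (u, x) (v, y) * q v = q u * Z x y := by
    intro u x y
    have e : ∀ v, B' (u, x) (v, y) * q v = B0 (u, x) (v, y) * q v +
        q u * (Wt x y) * (star (q v) * q v) := by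
      intro v
      simp only [hB', Matrix.add_apply,
        kroneckerMap_apply, r1, vecMulVec_apply, Pi.star_apply]
      ring
    simp only [e]
    rw [Finset.sum_add_distrib, hB0q, ← Finset.mul_sum, hqq]
    simp only [hZ, Matrix.add_apply]
    ring
  obtain ⟨b, hb, hb'⟩ := engine hσ G hG hq hX hBpd hB'pd hZpd hBZ hB'q
  refine ⟨b, hb, ?_⟩
  have hBdet : 0 < B.det.re := det_re_pos hBpd
  have hB'det : 0 < B'.det.re := det_re_pos hB'pd
  have hXdet : 0 ≤ (B' + (r1 q) ⊗ₖ comp b X).det.re :=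
    det_re_nonneg (hB'pd.posSemidef.add ((r1_psd q).kronecker (comp_psd b hX)))
  have h2 : (B' + (r1 q) ⊗ₖ comp b X).det.re ≤ (B + X).det.re := by
    have h3 : (B' + (r1 q) ⊗ₖ comp b X).det.re * B'.det.re ≤ (B + X).det.re * B'.det.re :=
      (mul_le_mul_of_nonneg_left h1 hXdet).trans hb'
    exact le_of_mul_le_mul_right h3 hB'det
  have e : B0 + (r1 q) ⊗ₖ (Wt + comp b X) = B' + (r1 q) ⊗ₖ comp b X := by
    rw [hB', kronecker_add, ← add_assoc]
  rw [e]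
  exact h2

end Pool.Agent.Helper90.Spin
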