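import Mathlib

set_option autoImplicit false
open Matrix
open scoped ComplexOrder

namespace Pool.Agent.Helper90.Spin

/-- The trace of the set `I ⊆ {0,…,n}` on the sites different from `p`, the remaining sites being
renumbered increasingly by `Fin.succAbove p : Fin n → Fin (n+1)`. -/
def delSite {n : ℕ} (p : Fin (n + 1)) (I : Finset (Fin (n + 1))) : Finset (Fin n) :=
  Finset.univ.filter (fun j => p.succAbove j ∈ I)

/-- `P` is a finite family of pairs `(I, C)`, where `C` is the core (the set of sites which may be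
entangled) of the set `I`. The family is eliminable if the sites can be deleted one after the other
so that each deleted site `p` satisfies, at the time of its deletion: there are at most three
distinct sets `I`, different from the set of all current sites, which occur in a current pair
`(I, C)` with `p ∈ C` and `2 ≤ |C|`. -/
def Eliminable : (n : ℕ) → Finset (Finset (Fin n) × Finset (Fin n)) → Prop
  | 0, _ => True
  | n + 1, P => ∃ p : Fin (n + 1),
      ((P.filter (fun a => p ∈ a.2 ∧ 2 ≤ a.2.card ∧ a.1 ≠ Finset.univ)).image Prod.fst).card ≤ 3 ∧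
        Eliminable n (P.image (fun a => (delSite p a.1, delSite p a.2)))

/-- `ρ` (a matrix on the sites of `I`) is a finite sum of operators of the form
`ξ ⊗ ⨂_{i ∈ I \ C} σ_i` with `ξ ≥ 0` on the sites of `C` and all `σ_i ≥ 0`. For `C = I` this holds
for every positive semidefinite `ρ`; for `C = ∅` it says that `ρ` is fully separable. -/
def SepOff {d n : ℕ} (I C : Finset (Fin n))
    (ρ : Matrix ({j // j ∈ I} → Fin d) ({j // j ∈ I} → Fin d) ℂ) : Prop :=
  ∃ (m : ℕ) (ξ : Fin m → Matrix ({j // j ∈ C} → Fin d) ({j // j ∈ C} → Fin d) ℂ)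
    (σ : Fin m → Fin n → Matrix (Fin d) (Fin d) ℂ),
    (∀ k, (ξ k).PosSemidef) ∧ (∀ k i, (σ k i).PosSemidef) ∧
    ∀ x y : Fin n → Fin d, ρ (fun i => x i.1) (fun i => y i.1) =
      ∑ k, ξ k (fun i => x i.1) (fun i => y i.1) * ∏ i ∈ I \ C, σ k i (x i) (y i)

/-- The alignment operator `∑_I μ_I (ρ_I ⊗ Q^{⊗ Iᶜ})`. -/
def alignOp {d n : ℕ} (Q : Matrix (Fin d) (Fin d) ℂ) (μ : Finset (Fin n) → ℝ)
    (ρ : (I : Finset (Fin n)) → Matrix ({j // j ∈ I} → Fin d) ({j // j ∈ I} → Fin d) ℂ) :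
    Matrix (Fin n → Fin d) (Fin n → Fin d) ℂ :=
  Matrix.of fun x y => ∑ I, (μ I : ℂ) * ρ I (fun i => x i.1) (fun i => y i.1)
    * ∏ j ∈ Iᶜ, Q (x j) (y j)

/-- The alignment operator of the aligned tuple `ρ_I = (|q⟩⟨q|)^{⊗ I}`. -/
def alignOp0 {d n : ℕ} (Q : Matrix (Fin d) (Fin d) ℂ) (q : Fin d → ℂ)
    (μ : Finset (Fin n) → ℝ) : Matrix (Fin n → Fin d) (Fin n → Fin d) ℂ :=
  Matrix.of fun x y => ∑ I, (μ I : ℂ) * (∏ i ∈ I, q (x i) * star (q (y i)))
    * ∏ j ∈ Iᶜ, Q (x j) (y j)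

/-- The tuple `ρ` is no better than the aligned one: `det (t + A₀) ≤ det (t + A)` for all `t > 0`,
and the entropy of `A₀` is at most the entropy of `A`. -/
def AlignedWins {d n : ℕ} (Q : Matrix (Fin d) (Fin d) ℂ) (q : Fin d → ℂ)
    (μ : Finset (Fin n) → ℝ)
    (ρ : (I : Finset (Fin n)) → Matrix ({j // j ∈ I} → Fin d) ({j // j ∈ I} → Fin d) ℂ) :
    Prop :=
  (∀ t : ℝ, 0 < t → ((t : ℂ) • 1 + alignOp0 Q q μ).det.re ≤
    ((t : ℂ) • 1 + alignOp Q μ ρ).det.re) ∧
  ∀ (hA : (alignOp Q μ ρ).IsHermitian) (hA0 : (alignOp0 Q q μ).IsHermitian),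
    ∑ x, Real.negMulLog (hA0.eigenvalues x) ≤ ∑ x, Real.negMulLog (hA.eigenvalues x)

end Pool.Agent.Helper90.Spin
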