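import Mathlib

set_option autoImplicit false

namespace Pool.Agent.Helper90.Spin

/-- `x log x` -/
noncomputable def phi (x : ℝ) : ℝ := x * Real.log x

lemma phi_continuous : Continuous phi := Real.continuous_mul_log

lemma phi_hasDerivAt {x : ℝ} (hx : x ≠ 0) : HasDerivAt phi (Real.log x + 1) x :=
  Real.hasDerivAt_mul_log hx

lemma phi_upper {T x : ℝ} (hT : 0 < T) (hx : 0 ≤ x) :
    phi (T + x) ≤ phi T + x * (1 + Real.log T) + x ^ 2 / T := by
  have h1 : 0 < 1 + x / T := by positivity
  have e : T + x = T * (1 + x / T) := by field_simp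
  have h2 : Real.log (T + x) = Real.log T + Real.log (1 + x / T) := by
    rw [e, Real.log_mul hT.ne' h1.ne']
  have h3 : Real.log (1 + x / T) ≤ x / T := by
    have := Real.log_le_sub_one_of_pos h1
    linarith
  rw [phi, h2, phi]
  have h4 : (T + x) * Real.log (1 + x / T) ≤ (T + x) * (x / T) :=
    mul_le_mul_of_nonneg_left h3 (by positivity)
  have h5 : (T + x) * (x / T) = x + x ^ 2 / T := by field_simp
  nlinarith

lemma phi_lower {T x : ℝ} (hT : 0 < T) (hx : 0 ≤ x) :
    phi T + x * (1 + Real.log T) ≤ phi (T + x) := by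
  have h1 : 0 < 1 + x / T := by positivity
  have hTx : 0 < T + x := by positivity
  have e : T + x = T * (1 + x / T) := by field_simp
  have h2 : Real.log (T + x) = Real.log T + Real.log (1 + x / T) := by
    rw [e, Real.log_mul hT.ne' h1.ne']
  have h3 : 1 - (1 + x / T)⁻¹ ≤ Real.log (1 + x / T) := Real.one_sub_inv_le_log_of_pos h1
  rw [phi, phi, h2]
  have h4 : (T + x) * (1 - (1 + x / T)⁻¹) ≤ (T + x) * Real.log (1 + x / T) :=
    mul_le_mul_of_nonneg_left h3 hTx.le
  have h5 : (T + x) * (1 - (1 + x / T)⁻¹) = x := by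
    have : T * (1 + x / T) ≠ 0 := by positivity
    field_simp
    ring
  nlinarith

/-- An inequality between all shifted products gives the entropy inequality. -/
theorem entropy_of_prod {X : Type*} [Fintype X] (x y : X → ℝ) (hx : ∀ i, 0 ≤ x i)
    (hy : ∀ i, 0 ≤ y i) (hsum : ∑ i, x i = ∑ i, y i)
    (h : ∀ t : ℝ, 0 < t → ∏ i, (t + y i) ≤ ∏ i, (t + x i)) :
    ∑ i, Real.negMulLog (y i) ≤ ∑ i, Real.negMulLog (x i) := by
  set D : ℝ → ℝ := fun T => ∑ i, (phi (T + x i) - phi (T + y i)) with hD
  have hcont : Continuous D := by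
    apply continuous_finset_sum
    intro i _
    exact (phi_continuous.comp (continuous_id.add continuous_const)).sub
      (phi_continuous.comp (continuous_id.add continuous_const))
  have hder : ∀ T : ℝ, 0 < T → HasDerivAt D (∑ i, (Real.log (T + x i) - Real.log (T + y i))) T := by
    intro T hT
    have := HasDerivAt.fun_sum (u := Finset.univ) (A := fun i (T : ℝ) => phi (T + x i) - phi (T + y i))
      (A' := fun i => (Real.log (T + x i) + 1) - (Real.log (T + y i) + 1)) (x := T) (by
        intro i _
        have h1 : HasDerivAt (fun T : ℝ => T + x i) 1 T := (hasDerivAt_id T).add_const _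
        have h2 : HasDerivAt (fun T : ℝ => T + y i) 1 T := (hasDerivAt_id T).add_const _
        have p1 : T + x i ≠ 0 := by have := hx i; positivity
        have p2 : T + y i ≠ 0 := by have := hy i; positivity
        have h3 := (phi_hasDerivAt p1).comp T h1
        have h4 := (phi_hasDerivAt p2).comp T h2
        simp only [mul_one] at h3 h4
        exact h3.sub h4)
    have e : ∑ i, (Real.log (T + x i) - Real.log (T + y i)) =
        ∑ i, ((Real.log (T + x i) + 1) - (Real.log (T + y i) + 1)) := by
      apply Finset.sum_congr rfl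
      intro i _
      ring
    rw [e]
    exact this
  have hmono : MonotoneOn D (Set.Ici 0) := by
    apply monotoneOn_of_deriv_nonneg (convex_Ici 0) hcont.continuousOn
    · intro T hT
      rw [interior_Ici] at hT
      exact (hder T hT).differentiableAt.differentiableWithinAt
    · intro T hT
      rw [interior_Ici] at hT
      have hT' : 0 < T := hT
      rw [(hder T hT').deriv, Finset.sum_sub_distrib]
      have p1 : ∀ i, T + x i ≠ 0 := fun i => by have := hx i; positivity
      have p2 : ∀ i, T + y i ≠ 0 := fun i => by have := hy i; positivity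
      rw [← Real.log_prod (fun i _ => p1 i), ← Real.log_prod (fun i _ => p2 i)]
      have h3 : 0 < ∏ i, (T + y i) := Finset.prod_pos (fun i _ => by have := hy i; positivity)
      have := Real.log_le_log h3 (h T hT')
      linarith
  have hbound : ∀ T : ℝ, 0 < T → D T ≤ (∑ i, x i ^ 2) / T := by
    intro T hT
    have h1 : ∀ i, phi (T + x i) - phi (T + y i) ≤ (x i - y i) * (1 + Real.log T) + x i ^ 2 / T := by
      intro i
      have a1 := phi_upper hT (hx i)
      have a2 := phi_lower hT (hy i)
      nlinarith
    calc D T ≤ ∑ i, ((x i - y i) * (1 + Real.log T) + x i ^ 2 / T) :=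
          Finset.sum_le_sum (fun i _ => h1 i)
      _ = (∑ i, x i - ∑ i, y i) * (1 + Real.log T) + (∑ i, x i ^ 2) / T := by
          rw [Finset.sum_add_distrib, ← Finset.sum_mul, Finset.sum_sub_distrib, Finset.sum_div]
      _ = _ := by rw [hsum, sub_self, zero_mul, zero_add]
  have hD0 : D 0 = ∑ i, Real.negMulLog (y i) - ∑ i, Real.negMulLog (x i) := by
    simp only [hD, zero_add, phi]
    rw [← Finset.sum_sub_distrib]
    apply Finset.sum_congr rfl
    intro i _
    simp only [Real.negMulLog]
    ring
  have hD0le : D 0 ≤ 0 := by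
    apply le_of_forall_pos_le_add
    intro ε hε
    rw [zero_add]
    set C := ∑ i, x i ^ 2 with hC
    have hC0 : 0 ≤ C := Finset.sum_nonneg (fun i _ => sq_nonneg _)
    set T : ℝ := C / ε + 1 with hT
    have hTpos : 0 < T := by positivity
    have h1 : D 0 ≤ D T := hmono (Set.mem_Ici.mpr le_rfl) (Set.mem_Ici.mpr hTpos.le) hTpos.le
    refine h1.trans ((hbound T hTpos).trans ?_)
    rw [div_le_iff₀ hTpos, hT]
    have : ε * (C / ε + 1) = C + ε := by field_simp
    rw [this]
    linarith
  rw [hD0] at hD0le
  linarith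

end Pool.Agent.Helper90.Spin
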