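import Mathlib
import Pool.Agent.Helper90.Spin.Defs
import Pool.Agent.Helper90.Spin.Compress

set_option autoImplicit false
open Matrix
open scoped ComplexOrder MatrixOrder Kronecker

namespace Pool.Agent.Helper90.Spin

set_option linter.unusedSectionVars false

/-- lift of a set of sites to the sites different from `p` -/
def liftS {n : ℕ} (p : Fin (n + 1)) (K : Finset (Fin n)) : Finset (Fin (n + 1)) :=
  K.map p.succAboveEmb

/-- the lift together with `p` -/
def upS {n : ℕ} (p : Fin (n + 1)) (K : Finset (Fin n)) : Finset (Fin (n + 1)) :=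
  insert p (liftS p K)

lemma sa_mem_liftS {n : ℕ} (p : Fin (n + 1)) (K : Finset (Fin n)) (j : Fin n) :
    p.succAbove j ∈ liftS p K ↔ j ∈ K := by
  simp only [liftS, Finset.mem_map, Fin.succAboveEmb_apply]
  constructor
  · rintro ⟨a, ha, hb⟩
    rwa [Fin.succAbove_right_injective hb] at ha
  · intro h
    exact ⟨j, h, rfl⟩

lemma p_notMem_liftS {n : ℕ} (p : Fin (n + 1)) (K : Finset (Fin n)) : p ∉ liftS p K := by
  simp only [liftS, Finset.mem_map, Fin.succAboveEmb_apply, not_exists, not_and]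
  intro a _
  exact Fin.succAbove_ne p a

lemma sa_mem_upS {n : ℕ} (p : Fin (n + 1)) (K : Finset (Fin n)) (j : Fin n) :
    p.succAbove j ∈ upS p K ↔ j ∈ K := by
  rw [upS, Finset.mem_insert, sa_mem_liftS]
  constructor
  · rintro (h | h)
    · exact absurd h (Fin.succAbove_ne p j)
    · exact h
  · exact Or.inr

lemma p_mem_upS {n : ℕ} (p : Fin (n + 1)) (K : Finset (Fin n)) : p ∈ upS p K :=
  Finset.mem_insert_self _ _

lemma mem_delSite {n : ℕ} (p : Fin (n + 1)) (I : Finset (Fin (n + 1))) (j : Fin n) :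
    j ∈ delSite p I ↔ p.succAbove j ∈ I := by
  simp [delSite]

lemma delSite_liftS {n : ℕ} (p : Fin (n + 1)) (K : Finset (Fin n)) : delSite p (liftS p K) = K := by
  ext j
  rw [mem_delSite, sa_mem_liftS]

lemma delSite_upS {n : ℕ} (p : Fin (n + 1)) (K : Finset (Fin n)) : delSite p (upS p K) = K := by
  ext j
  rw [mem_delSite, sa_mem_upS]

lemma liftS_delSite {n : ℕ} (p : Fin (n + 1)) {I : Finset (Fin (n + 1))} (h : p ∉ I) :
    liftS p (delSite p I) = I := by
  ext j
  rcases Fin.eq_self_or_eq_succAbove p j with rfl | ⟨i, rfl⟩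
  · simp [h, p_notMem_liftS]
  · rw [sa_mem_liftS, mem_delSite]

lemma upS_delSite {n : ℕ} (p : Fin (n + 1)) {I : Finset (Fin (n + 1))} (h : p ∈ I) :
    upS p (delSite p I) = I := by
  ext j
  rcases Fin.eq_self_or_eq_succAbove p j with rfl | ⟨i, rfl⟩
  · simp [h, p_mem_upS]
  · rw [sa_mem_upS, mem_delSite]

lemma sum_split {n : ℕ} {M : Type*} [AddCommMonoid M] (p : Fin (n + 1))
    (f : Finset (Fin (n + 1)) → M) :
    ∑ I, f I = ∑ K, f (liftS p K) + ∑ K, f (upS p K) := by
  rw [← Finset.sum_filter_not_add_sum_filter Finset.univ (fun I => p ∈ I)]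
  congr 1
  · apply Finset.sum_nbij' (delSite p) (liftS p)
    · intro I _; simp
    · intro K _; simp [p_notMem_liftS]
    · intro I hI
      exact liftS_delSite p (by simpa using hI)
    · intro K _; exact delSite_liftS p K
    · intro I hI
      rw [liftS_delSite p (by simpa using hI)]
  · apply Finset.sum_nbij' (delSite p) (upS p)
    · intro I _; simp
    · intro K _; simp [p_mem_upS]
    · intro I hI
      exact upS_delSite p (by simpa using hI)
    · intro K _; exact delSite_upS p K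
    · intro I hI
      rw [upS_delSite p (by simpa using hI)]

lemma upS_eq_univ {n : ℕ} (p : Fin (n + 1)) (K : Finset (Fin n)) :
    upS p K = Finset.univ ↔ K = Finset.univ := by
  constructor
  · intro h
    ext j
    have := (sa_mem_upS p K j)
    rw [h] at this
    simp at this
    simp [this]
  · rintro rfl
    ext j
    rcases Fin.eq_self_or_eq_succAbove p j with rfl | ⟨i, rfl⟩
    · simp [p_mem_upS]
    · simp [sa_mem_upS]

lemma upS_eq_singleton {n : ℕ} (p : Fin (n + 1)) (K : Finset (Fin n)) :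
    upS p K = {p} ↔ K = ∅ := by
  constructor
  · intro h
    ext j
    have := (sa_mem_upS p K j)
    rw [h] at this
    simp at this
    simp [this]
  · rintro rfl
    ext j
    rcases Fin.eq_self_or_eq_succAbove p j with rfl | ⟨i, rfl⟩
    · simp [p_mem_upS]
    · simp [sa_mem_upS]

lemma card_compl_liftS {n : ℕ} (p : Fin (n + 1)) (K : Finset (Fin n)) :
    ((liftS p K)ᶜ).card = Kᶜ.card + 1 := by
  rw [Finset.card_compl, Finset.card_compl, liftS, Finset.card_map, Fintype.card_fin,
    Fintype.card_fin]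
  have := Finset.card_le_univ K
  rw [Fintype.card_fin] at this
  omega

lemma card_compl_upS {n : ℕ} (p : Fin (n + 1)) (K : Finset (Fin n)) :
    ((upS p K)ᶜ).card = Kᶜ.card := by
  rw [Finset.card_compl, Finset.card_compl, upS, Finset.card_insert_of_notMem (p_notMem_liftS p K),
    liftS, Finset.card_map, Fintype.card_fin, Fintype.card_fin]
  omega

variable {d n : ℕ}

/-- the noise factor on the complement of `I` -/
def NQ (Q : Matrix (Fin d) (Fin d) ℂ) (I : Finset (Fin n)) :
    Matrix (Fin n → Fin d) (Fin n → Fin d) ℂ :=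
  Matrix.of fun x y => ∏ j, if j ∈ I then 1 else Q (x j) (y j)

/-- the aligned signal on `I` -/
def Al (q : Fin d → ℂ) (I : Finset (Fin n)) :
    Matrix (Fin n → Fin d) (Fin n → Fin d) ℂ :=
  Matrix.of fun x y => ∏ j, if j ∈ I then q (x j) * star (q (y j)) else 1

/-- dependence on the coordinates in `I` only -/
def Dep (I : Finset (Fin n)) (M : Matrix (Fin n → Fin d) (Fin n → Fin d) ℂ) : Prop :=
  ∀ x x' y y', (∀ i ∈ I, x i = x' i) → (∀ i ∈ I, y i = y' i) → M x y = M x' y'

lemma ones_psd {X : Type*} [Fintype X] : (Matrix.of fun _ _ : X => (1 : ℂ)).PosSemidef := by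
  have h := posSemidef_vecMulVec_self_star (fun _ : X => (1 : ℂ))
  have e : (Matrix.of fun _ _ : X => (1 : ℂ)) = vecMulVec (fun _ : X => (1 : ℂ)) (star fun _ => 1) := by
    ext x y
    simp [vecMulVec_apply]
  rw [e]
  exact h

lemma prodH_psd {ι X : Type*} [DecidableEq ι] [Fintype X] (s : Finset ι) (W : ι → Matrix X X ℂ)
    (h : ∀ i ∈ s, (W i).PosSemidef) : (Matrix.of fun x y => ∏ i ∈ s, W i x y).PosSemidef := by
  induction s using Finset.induction_on with
  | empty => simpa using ones_psd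
  | insert a s ha ih =>
    have h1 := ih (fun i hi => h i (Finset.mem_insert_of_mem hi))
    have h2 := (h a (Finset.mem_insert_self a s)).hadamard h1
    have e : (Matrix.of fun x y => ∏ i ∈ insert a s, W i x y) =
        W a ⊙ (Matrix.of fun x y => ∏ i ∈ s, W i x y) := by
      ext x y
      simp [Finset.prod_insert ha, hadamard_apply]
    rw [e]
    exact h2

lemma NQ_psd {Q : Matrix (Fin d) (Fin d) ℂ} (hQ : Q.PosSemidef) (I : Finset (Fin n)) :
    (NQ Q I).PosSemidef := by
  have := prodH_psd (X := Fin n → Fin d) Finset.univ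
    (fun j : Fin n => if j ∈ I then (Matrix.of fun _ _ => (1 : ℂ))
      else Q.submatrix (fun x => x j) (fun x => x j)) (by
      intro j _
      split_ifs
      · exact ones_psd
      · exact hQ.submatrix _)
  have e : NQ Q I = (Matrix.of fun x y => ∏ j : Fin n,
      (if j ∈ I then (Matrix.of fun _ _ => (1 : ℂ))
      else Q.submatrix (fun x : Fin n → Fin d => x j) (fun x => x j)) x y) := by
    ext x y
    simp only [NQ, Matrix.of_apply]
    apply Finset.prod_congr rfl
    intro j _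
    split_ifs <;> simp
  rw [e]
  exact this

lemma Al_psd (q : Fin d → ℂ) (I : Finset (Fin n)) : (Al q I).PosSemidef := by
  have := prodH_psd (X := Fin n → Fin d) Finset.univ
    (fun j : Fin n => if j ∈ I then (r1 q).submatrix (fun x => x j) (fun x => x j)
      else (Matrix.of fun _ _ => (1 : ℂ))) (by
      intro j _
      split_ifs
      · exact (r1_psd q).submatrix _
      · exact ones_psd)
  have e : Al q I = (Matrix.of fun x y => ∏ j : Fin n,
      (if j ∈ I then (r1 q).submatrix (fun x : Fin n → Fin d => x j) (fun x => x j)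
      else (Matrix.of fun _ _ => (1 : ℂ))) x y) := by
    ext x y
    simp only [Al, Matrix.of_apply]
    apply Finset.prod_congr rfl
    intro j _
    split_ifs
    · simp [r1, vecMulVec_apply]
    · simp
  rw [e]
  exact this

/-- admissible signal families -/
structure GoodFam (t : Finset (Fin n) → ℝ)
    (M : Finset (Fin n) → Matrix (Fin n → Fin d) (Fin n → Fin d) ℂ) : Prop where
  psd : ∀ I, (M I).PosSemidef
  dep : ∀ I, Dep I (M I)
  tr : ∀ I, (M I).trace = (t I : ℂ) * (d : ℂ) ^ (Iᶜ.card)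

/-- the alignment operator -/
def opA (Q : Matrix (Fin d) (Fin d) ℂ)
    (M : Finset (Fin n) → Matrix (Fin n → Fin d) (Fin n → Fin d) ℂ) :
    Matrix (Fin n → Fin d) (Fin n → Fin d) ℂ := ∑ I, (M I) ⊙ (NQ Q I)

/-- the aligned operator -/
def opA0 (Q : Matrix (Fin d) (Fin d) ℂ) (q : Fin d → ℂ) (t : Finset (Fin n) → ℝ) :
    Matrix (Fin n → Fin d) (Fin n → Fin d) ℂ := ∑ I, (t I : ℂ) • ((Al q I) ⊙ (NQ Q I))

/-- the log-determinant statement for families supported on `F` -/
def LD (Q : Matrix (Fin d) (Fin d) ℂ) (q : Fin d → ℂ) (n : ℕ)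
    (F : Finset (Finset (Fin n))) : Prop :=
  ∀ (T : ℝ), 0 < T → ∀ (t : Finset (Fin n) → ℝ)
    (M : Finset (Fin n) → Matrix (Fin n → Fin d) (Fin n → Fin d) ℂ),
    GoodFam t M → (∀ I ∉ F, t I = 0) →
    ((T : ℂ) • (1 : Matrix (Fin n → Fin d) (Fin n → Fin d) ℂ) + opA0 Q q t).det.re ≤
    ((T : ℂ) • (1 : Matrix (Fin n → Fin d) (Fin n → Fin d) ℂ) + opA Q M).det.re

lemma LD_mono {Q : Matrix (Fin d) (Fin d) ℂ} {q : Fin d → ℂ} {F F' : Finset (Finset (Fin n))}
    (h : LD Q q n F) (hF : F' ⊆ F) : LD Q q n F' := by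
  intro T hT t M hM ht
  exact h T hT t M hM (fun I hI => ht I (fun h' => hI (hF h')))

lemma GoodFam.t_nonneg {t : Finset (Fin n) → ℝ} (hd : 0 < d)
    {M : Finset (Fin n) → Matrix (Fin n → Fin d) (Fin n → Fin d) ℂ} (h : GoodFam t M)
    (I : Finset (Fin n)) : 0 ≤ t I := by
  have h1 := trace_re_nonneg (h.psd I)
  rw [h.tr I] at h1
  have h2 : (t I : ℂ) * (d : ℂ) ^ (Iᶜ.card) = ((t I * (d:ℝ) ^ (Iᶜ.card) : ℝ) : ℂ) := by
    push_cast
    ring
  rw [h2, Complex.ofReal_re] at h1
  have h3 : (0:ℝ) < (d:ℝ) ^ (Iᶜ.card) := by positivity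
  exact nonneg_of_mul_nonneg_left h1 h3

lemma opA0_psd {Q : Matrix (Fin d) (Fin d) ℂ} (hQ : Q.PosSemidef) (q : Fin d → ℂ)
    {t : Finset (Fin n) → ℝ} (ht : ∀ I, 0 ≤ t I) : (opA0 Q q t).PosSemidef := by
  apply posSemidef_sum
  intro I _
  exact smul_psd ((Al_psd q I).hadamard (NQ_psd hQ I)) (ht I)

lemma opA_psd {Q : Matrix (Fin d) (Fin d) ℂ} (hQ : Q.PosSemidef)
    {M : Finset (Fin n) → Matrix (Fin n → Fin d) (Fin n → Fin d) ℂ}
    (hM : ∀ I, (M I).PosSemidef) : (opA Q M).PosSemidef := by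
  apply posSemidef_sum
  intro I _
  exact (hM I).hadamard (NQ_psd hQ I)

/-- the reindexing equivalence -/
def eqv (d : ℕ) {n : ℕ} (p : Fin (n + 1)) : Fin d × (Fin n → Fin d) ≃ (Fin (n + 1) → Fin d) :=
  Fin.insertNthEquiv (fun _ => Fin d) p

lemma eqv_same (p : Fin (n + 1)) (u : Fin d) (x : Fin n → Fin d) : eqv d p (u, x) p = u := by
  simp [eqv, Fin.insertNthEquiv]

lemma eqv_sa (p : Fin (n + 1)) (u : Fin d) (x : Fin n → Fin d) (j : Fin n) :
    eqv d p (u, x) (p.succAbove j) = x j := by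
  simp [eqv, Fin.insertNthEquiv]

lemma NQ_lift (Q : Matrix (Fin d) (Fin d) ℂ) (p : Fin (n + 1)) (K : Finset (Fin n)) (u v : Fin d)
    (x y : Fin n → Fin d) :
    NQ Q (liftS p K) (eqv d p (u, x)) (eqv d p (v, y)) = Q u v * NQ Q K x y := by
  simp only [NQ, Matrix.of_apply]
  rw [Fin.prod_univ_succAbove _ p]
  simp only [p_notMem_liftS, if_false, sa_mem_liftS, eqv_same, eqv_sa]

lemma NQ_up (Q : Matrix (Fin d) (Fin d) ℂ) (p : Fin (n + 1)) (K : Finset (Fin n)) (u v : Fin d)
    (x y : Fin n → Fin d) :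
    NQ Q (upS p K) (eqv d p (u, x)) (eqv d p (v, y)) = NQ Q K x y := by
  simp only [NQ, Matrix.of_apply]
  rw [Fin.prod_univ_succAbove _ p]
  simp only [p_mem_upS, if_true, one_mul, sa_mem_upS, eqv_sa]

lemma Al_lift (q : Fin d → ℂ) (p : Fin (n + 1)) (K : Finset (Fin n)) (u v : Fin d)
    (x y : Fin n → Fin d) :
    Al q (liftS p K) (eqv d p (u, x)) (eqv d p (v, y)) = Al q K x y := by
  simp only [Al, Matrix.of_apply]
  rw [Fin.prod_univ_succAbove _ p]
  simp only [p_notMem_liftS, if_false, one_mul, sa_mem_liftS, eqv_sa]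

lemma Al_up (q : Fin d → ℂ) (p : Fin (n + 1)) (K : Finset (Fin n)) (u v : Fin d)
    (x y : Fin n → Fin d) :
    Al q (upS p K) (eqv d p (u, x)) (eqv d p (v, y)) = (q u * star (q v)) * Al q K x y := by
  simp only [Al, Matrix.of_apply]
  rw [Fin.prod_univ_succAbove _ p]
  simp only [p_mem_upS, if_true, sa_mem_upS, eqv_same, eqv_sa]

end Pool.Agent.Helper90.Spin
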