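import Mathlib
import Pool.Agent.Helper90.Spin.Sites

set_option autoImplicit false
open Matrix
open scoped ComplexOrder MatrixOrder Kronecker

namespace Pool.Agent.Helper90.Spin

set_option linter.unusedSectionVars false

section abs

variable {κ α : Type*} [Fintype κ] [DecidableEq κ] [Fintype α] [DecidableEq α]

/-- partial trace over the second factor -/
def ptr (S : Matrix (κ × α) (κ × α) ℂ) : Matrix κ κ ℂ := Matrix.of fun u v => ∑ x, S (u, x) (v, x)

lemma ptr_psd {S : Matrix (κ × α) (κ × α) ℂ} (hS : S.PosSemidef) : (ptr S).PosSemidef := by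
  have e : ptr S = ∑ x, S.submatrix (fun u => (u, x)) (fun u => (u, x)) := by
    ext u v
    simp [ptr, Matrix.sum_apply]
  rw [e]
  apply posSemidef_sum
  intro x _
  exact hS.submatrix _

lemma trace_ptr (S : Matrix (κ × α) (κ × α) ℂ) : (ptr S).trace = S.trace := by
  simp [ptr, Matrix.trace, Fintype.sum_prod_type]

lemma trace_comp (b : κ → ℂ) (S : Matrix (κ × α) (κ × α) ℂ) :
    (comp b S).trace = ((ptr S)ᵀ * r1 b).trace := by
  simp only [Matrix.trace, Matrix.diag_apply, comp, Matrix.mul_apply, transpose_apply, ptr,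
    Matrix.of_apply, r1, vecMulVec_apply, Pi.star_apply, Finset.sum_mul]
  rw [Finset.sum_comm, Finset.sum_comm]
  rw [Finset.sum_comm]
  have : ∀ u : κ, ∑ x : α, ∑ v, b u * star (b v) * S (u, x) (v, x) =
      ∑ v, ∑ x : α, S (u, x) (v, x) * (b u * star (b v)) := by
    intro u
    rw [Finset.sum_comm]
    apply Finset.sum_congr rfl
    intro v _
    apply Finset.sum_congr rfl
    intro x _
    ring
  simp only [this]
  rw [Finset.sum_comm]

lemma comp_sum {ι : Type*} (b : κ → ℂ) (s : Finset ι) (S : ι → Matrix (κ × α) (κ × α) ℂ) :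
    comp b (∑ i ∈ s, S i) = ∑ i ∈ s, comp b (S i) := by
  simp only [comp_eq, Matrix.mul_sum, Matrix.sum_mul]

lemma comp_hadamard (b : κ → ℂ) (S : Matrix (κ × α) (κ × α) ℂ) (N : Matrix α α ℂ) :
    comp b (S ⊙ ((Matrix.of fun _ _ => (1 : ℂ)) ⊗ₖ N)) = comp b S ⊙ N := by
  ext x y
  simp only [comp, hadamard_apply, kroneckerMap_apply, Matrix.of_apply, one_mul, Finset.sum_mul]
  apply Finset.sum_congr rfl
  intro u _
  apply Finset.sum_congr rfl
  intro v _
  ring

lemma comp_zero (b : κ → ℂ) : comp b (0 : Matrix (κ × α) (κ × α) ℂ) = 0 := by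
  ext x y
  simp [comp]

end abs

variable {d n : ℕ}

lemma opA_smul (Q : Matrix (Fin d) (Fin d) ℂ)
    (M : Finset (Fin n) → Matrix (Fin n → Fin d) (Fin n → Fin d) ℂ) (r : ℂ) :
    r • opA Q M = opA Q (fun K => r • M K) := by
  simp only [opA, Finset.smul_sum, smul_hadamard]

lemma opA_add (Q : Matrix (Fin d) (Fin d) ℂ)
    (M M' : Finset (Fin n) → Matrix (Fin n → Fin d) (Fin n → Fin d) ℂ) :
    opA Q M + opA Q M' = opA Q (fun K => M K + M' K) := by
  simp only [opA, ← Finset.sum_add_distrib, add_hadamard]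

lemma opA0_smul (Q : Matrix (Fin d) (Fin d) ℂ) (q : Fin d → ℂ) (t : Finset (Fin n) → ℝ) (r : ℝ) :
    (r : ℂ) • opA0 Q q t = opA0 Q q (fun K => r * t K) := by
  simp only [opA0, Finset.smul_sum, smul_smul, Complex.ofReal_mul]

lemma opA0_add (Q : Matrix (Fin d) (Fin d) ℂ) (q : Fin d → ℂ) (t t' : Finset (Fin n) → ℝ) :
    opA0 Q q t + opA0 Q q t' = opA0 Q q (fun K => t K + t' K) := by
  simp only [opA0, ← Finset.sum_add_distrib, Complex.ofReal_add, add_smul]

lemma opA_reindex (Q : Matrix (Fin d) (Fin d) ℂ)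
    (M : Finset (Fin (n + 1)) → Matrix (Fin (n + 1) → Fin d) (Fin (n + 1) → Fin d) ℂ)
    (p : Fin (n + 1)) (Md : Finset (Fin n) → Matrix (Fin n → Fin d) (Fin n → Fin d) ℂ)
    (hMd : ∀ K u v x y, M (liftS p K) (eqv d p (u, x)) (eqv d p (v, y)) = Md K x y) :
    (opA Q M).submatrix (eqv d p) (eqv d p) = Q ⊗ₖ opA Q Md +
      ∑ K, ((M (upS p K)).submatrix (eqv d p) (eqv d p)) ⊙
        ((Matrix.of fun _ _ => (1 : ℂ)) ⊗ₖ NQ Q K) := by
  ext ⟨u, x⟩ ⟨v, y⟩
  rw [submatrix_apply, opA, sum_split p, Matrix.add_apply, Matrix.add_apply, Matrix.sum_apply,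
    Matrix.sum_apply, kroneckerMap_apply, opA, Matrix.sum_apply, Finset.mul_sum, Matrix.sum_apply]
  congr 1
  · apply Finset.sum_congr rfl
    intro K _
    rw [hadamard_apply, NQ_lift, hMd, hadamard_apply]
    ring
  · apply Finset.sum_congr rfl
    intro K _
    rw [hadamard_apply, NQ_up, hadamard_apply, kroneckerMap_apply, Matrix.of_apply, one_mul,
      submatrix_apply]

lemma opA0_reindex (Q : Matrix (Fin d) (Fin d) ℂ) (q : Fin d → ℂ) (t : Finset (Fin (n + 1)) → ℝ)
    (p : Fin (n + 1)) :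
    (opA0 Q q t).submatrix (eqv d p) (eqv d p) = Q ⊗ₖ opA0 Q q (fun K => t (liftS p K)) +
      r1 q ⊗ₖ opA0 Q q (fun K => t (upS p K)) := by
  ext ⟨u, x⟩ ⟨v, y⟩
  rw [submatrix_apply, opA0, sum_split p, Matrix.add_apply, Matrix.add_apply, Matrix.sum_apply,
    Matrix.sum_apply, kroneckerMap_apply, kroneckerMap_apply, opA0, Matrix.sum_apply,
    Finset.mul_sum, opA0, Matrix.sum_apply, Finset.mul_sum]
  congr 1
  · apply Finset.sum_congr rfl
    intro K _
    rw [Matrix.smul_apply, hadamard_apply, NQ_lift, Al_lift, Matrix.smul_apply, hadamard_apply,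
      smul_eq_mul, smul_eq_mul]
    ring
  · apply Finset.sum_congr rfl
    intro K _
    rw [Matrix.smul_apply, hadamard_apply, NQ_up, Al_up, Matrix.smul_apply, hadamard_apply,
      smul_eq_mul, smul_eq_mul, r1, vecMulVec_apply, Pi.star_apply]
    ring

lemma det_reindex_T (p : Fin (n + 1)) (T : ℂ)
    (A : Matrix (Fin (n + 1) → Fin d) (Fin (n + 1) → Fin d) ℂ) :
    (T • (1 : Matrix (Fin (n + 1) → Fin d) (Fin (n + 1) → Fin d) ℂ) + A).det =
      (T • (1 : Matrix (Fin d × (Fin n → Fin d)) (Fin d × (Fin n → Fin d)) ℂ) +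
        A.submatrix (eqv d p) (eqv d p)).det := by
  rw [← det_submatrix_equiv_self (eqv d p)]
  congr 1
  ext a b
  simp [Matrix.one_apply]

theorem rec_step (hd : 0 < d) {Q : Matrix (Fin d) (Fin d) ℂ} (hQ : Q.PosSemidef) {q : Fin d → ℂ}
    {c : ℝ} (hq : star q ⬝ᵥ q = 1) (hQq : Q *ᵥ q = (c : ℂ) • q) (hc : 0 ≤ c)
    (hQc : ((c : ℂ) • (1 : Matrix (Fin d) (Fin d) ℂ) - Q).PosSemidef)
    (F : Finset (Finset (Fin (n + 1)))) (p : Fin (n + 1)) (huniv : Finset.univ ∉ F)
    (hcard : (F.filter (fun K => p ∈ K ∧ K ≠ {p} ∧ K ≠ Finset.univ)).card ≤ 3)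
    (hLD : LD Q q n (F.image (delSite p))) : LD Q q (n + 1) F := by
  classical
  intro T hT t M hM ht
  have ht0 : ∀ I, 0 ≤ t I := fun I => hM.t_nonneg hd I
  set u0 : Fin d := ⟨0, hd⟩
  set e := eqv d p with he
  -- lower family
  obtain ⟨Md, hMd0⟩ : ∃ Md : Finset (Fin n) → Matrix (Fin n → Fin d) (Fin n → Fin d) ℂ,
      ∀ K, Md K = (M (liftS p K)).submatrix (fun x => e (u0, x)) (fun x => e (u0, x)) :=
    ⟨_, fun _ => rfl⟩
  have hMd : ∀ K u v x y, M (liftS p K) (e (u, x)) (e (v, y)) = Md K x y := by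
    intro K u v x y
    rw [hMd0, submatrix_apply]
    apply hM.dep
    · intro i hi
      rcases Fin.eq_self_or_eq_succAbove p i with rfl | ⟨j, rfl⟩
      · exact absurd hi (p_notMem_liftS _ K)
      · rw [he, eqv_sa, eqv_sa]
    · intro i hi
      rcases Fin.eq_self_or_eq_succAbove p i with rfl | ⟨j, rfl⟩
      · exact absurd hi (p_notMem_liftS _ K)
      · rw [he, eqv_sa, eqv_sa]
  have hdC : (d : ℂ) ≠ 0 := by exact_mod_cast hd.ne'
  have hMdG : GoodFam (fun K => t (liftS p K)) Md := by
    refine ⟨fun K => ?_, fun K => ?_, fun K => ?_⟩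
    · rw [hMd0]; exact (hM.psd _).submatrix _
    · intro x x' y y' hx hy
      rw [hMd0, submatrix_apply, submatrix_apply]
      apply hM.dep
      · intro i hi
        rcases Fin.eq_self_or_eq_succAbove p i with rfl | ⟨j, rfl⟩
        · exact absurd hi (p_notMem_liftS _ K)
        · rw [he, eqv_sa, eqv_sa]
          exact hx j ((sa_mem_liftS p K j).mp hi)
      · intro i hi
        rcases Fin.eq_self_or_eq_succAbove p i with rfl | ⟨j, rfl⟩
        · exact absurd hi (p_notMem_liftS _ K)
        · rw [he, eqv_sa, eqv_sa]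
          exact hy j ((sa_mem_liftS p K j).mp hi)
    · have h1 := hM.tr (liftS p K)
      have h2 : (M (liftS p K)).trace = (d : ℂ) * (Md K).trace := by
        rw [Matrix.trace, ← Equiv.sum_comp e, Fintype.sum_prod_type]
        simp only [Matrix.diag_apply, hMd]
        simp [Matrix.trace]
      rw [h2, card_compl_liftS, pow_succ] at h1
      have h3 : (d : ℂ) * (Md K).trace = (d : ℂ) * ((t (liftS p K) : ℂ) * (d : ℂ) ^ Kᶜ.card) := by
        rw [h1]; ring
      exact mul_left_cancel₀ hdC h3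
  -- signals
  obtain ⟨S, hS⟩ : ∃ S : Finset (Fin n) → Matrix (Fin d × (Fin n → Fin d)) (Fin d × (Fin n → Fin d)) ℂ,
      ∀ K, S K = (M (upS p K)).submatrix e e := ⟨_, fun _ => rfl⟩
  have hSpsd : ∀ K, (S K).PosSemidef := fun K => by rw [hS]; exact (hM.psd _).submatrix _
  have hStr : ∀ K, (S K).trace = (t (upS p K) : ℂ) * (d : ℂ) ^ (Kᶜ.card) := by
    intro K
    rw [hS, ← card_compl_upS p, ← hM.tr]
    simp only [Matrix.trace, Matrix.diag_apply, submatrix_apply]
    exact Equiv.sum_comp e (fun z => M (upS p K) z z)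
  obtain ⟨m, hm⟩ : ∃ m : Matrix (Fin d) (Fin d) ℂ, ∀ u v, m u v = S ∅ (u, fun _ => u0) (v, fun _ => u0) :=
    ⟨_, fun _ _ => rfl⟩
  have hmpsd : m.PosSemidef := by
    have : m = (S ∅).submatrix (fun u => (u, fun _ => u0)) (fun u => (u, fun _ => u0)) := by
      ext u v; rw [hm]; rfl
    rw [this]
    exact (hSpsd ∅).submatrix _
  have hS0 : ∀ u v x y, S ∅ (u, x) (v, y) = m u v := by
    intro u v x y
    rw [hm, hS, submatrix_apply, submatrix_apply]
    apply hM.dep
    · intro i hi
      rcases Fin.eq_self_or_eq_succAbove p i with rfl | ⟨j, rfl⟩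
      · rw [he, eqv_same, eqv_same]
      · rw [sa_mem_upS] at hi
        simp at hi
    · intro i hi
      rcases Fin.eq_self_or_eq_succAbove p i with rfl | ⟨j, rfl⟩
      · rw [he, eqv_same, eqv_same]
      · rw [sa_mem_upS] at hi
        simp at hi
  have hmtr : m.trace = (t (upS p ∅) : ℂ) := by
    have h1 := hStr ∅
    have h2 : (S ∅).trace = m.trace * (d : ℂ) ^ n := by
      rw [Matrix.trace, Fintype.sum_prod_type]
      simp only [Matrix.diag_apply, hS0]
      simp only [Matrix.trace, Matrix.diag_apply, Finset.sum_const, Finset.card_univ,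
        Fintype.card_pi, Fintype.card_fin, Finset.prod_const, nsmul_eq_mul, Nat.cast_pow]
      rw [Finset.sum_mul]
      exact Finset.sum_congr rfl (fun i _ => by ring)
    rw [h2] at h1
    have h3 : (∅ : Finset (Fin n))ᶜ.card = n := by simp
    rw [h3] at h1
    exact mul_right_cancel₀ (pow_ne_zero n hdC) h1
  have hmtr' : m.trace.re = t (upS p ∅) := by rw [hmtr]; simp
  set P := NQ Q (∅ : Finset (Fin n)) with hP
  have hPpsd : P.PosSemidef := NQ_psd hQ _
  set X : Matrix (Fin d × (Fin n → Fin d)) (Fin d × (Fin n → Fin d)) ℂ :=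
    ∑ K ∈ Finset.univ.erase ∅, S K ⊙ ((Matrix.of fun _ _ => (1 : ℂ)) ⊗ₖ NQ Q K) with hX
  have hXpsd : X.PosSemidef := by
    apply posSemidef_sum
    intro K _
    exact (hSpsd K).hadamard (ones_psd.kronecker (NQ_psd hQ K))
  have hYpsd : (opA Q Md).PosSemidef := opA_psd hQ hMdG.psd
  set Ff := F.filter (fun K => p ∈ K ∧ K ≠ {p} ∧ K ≠ Finset.univ) with hFf
  obtain ⟨b, hb1, hb2⟩ := compress (σ := {I // I ∈ Ff}) (by
      rw [Fintype.card_coe]; exact hcard)
    (fun I => (ptr ((M I.1).submatrix e e))ᵀ)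
    (fun I => (ptr_psd ((hM.psd I.1).submatrix _)).transpose) hQ hq hQq hc hQc hT hYpsd hPpsd
    hmpsd hXpsd
  -- compressed family
  obtain ⟨R, hR⟩ : ∃ R : Finset (Fin n) → Matrix (Fin n → Fin d) (Fin n → Fin d) ℂ,
      ∀ K, R K = if K = ∅ then (t (upS p ∅) : ℂ) • (Matrix.of fun _ _ => (1 : ℂ))
        else comp b (S K) := ⟨_, fun _ => rfl⟩
  have hRG : GoodFam (fun K => t (upS p K)) R := by
    refine ⟨fun K => ?_, fun K => ?_, fun K => ?_⟩
    · rw [hR]
      split_ifs
      · exact smul_psd ones_psd (ht0 _)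
      · exact comp_psd b (hSpsd K)
    · intro x x' y y' hx hy
      rw [hR]
      split_ifs
      · simp
      · simp only [comp]
        apply Finset.sum_congr rfl
        intro u _
        apply Finset.sum_congr rfl
        intro v _
        congr 1
        rw [hS, submatrix_apply, submatrix_apply]
        apply hM.dep
        · intro i hi
          rcases Fin.eq_self_or_eq_succAbove p i with rfl | ⟨j, rfl⟩
          · rw [he, eqv_same, eqv_same]
          · rw [he, eqv_sa, eqv_sa]
            exact hx j ((sa_mem_upS p K j).mp hi)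
        · intro i hi
          rcases Fin.eq_self_or_eq_succAbove p i with rfl | ⟨j, rfl⟩
          · rw [he, eqv_same, eqv_same]
          · rw [he, eqv_sa, eqv_sa]
            exact hy j ((sa_mem_upS p K j).mp hi)
    · rw [hR]
      split_ifs with hK
      · subst hK
        simp [Matrix.trace, Matrix.of_apply, mul_comm]
      · by_cases hKF : upS p K ∈ F
        · have hmem : upS p K ∈ Ff := by
            rw [hFf, Finset.mem_filter]
            refine ⟨hKF, p_mem_upS p K, ?_, ?_⟩
            · intro h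
              exact hK ((upS_eq_singleton p K).mp h)
            · intro h
              rw [h] at hKF
              exact huniv hKF
          have h1 := hb1 ⟨upS p K, hmem⟩
          simp only at h1
          rw [← hS] at h1
          rw [trace_comp, lin_real (ptr_psd (hSpsd K)).transpose, h1, trace_transpose, trace_ptr,
            ← trace_re_eq (hSpsd K), hStr]
        · have h0 : t (upS p K) = 0 := ht _ hKF
          have h1 : (S K).trace = 0 := by rw [hStr, h0]; simp
          have h2 : S K = 0 := (hSpsd K).trace_eq_zero_iff.mp h1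
          rw [h2, comp_zero, h0]
          simp
  have hGeq : ((m.trace.re : ℝ) : ℂ) • P + comp b X = opA Q R := by
    rw [hX, comp_sum, opA, ← Finset.add_sum_erase Finset.univ _ (Finset.mem_univ ∅)]
    congr 1
    · rw [hmtr', hR, if_pos rfl, hP, smul_hadamard]
      congr 1
      ext x y
      simp
    · apply Finset.sum_congr rfl
      intro K hK
      rw [Finset.mem_erase] at hK
      rw [comp_hadamard, hR, if_neg hK.1]
  have hRpsd : (opA Q R).PosSemidef := opA_psd hQ hRG.psd
  -- reindexing of both sides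
  have hright : (opA Q M).submatrix e e = Q ⊗ₖ opA Q Md + m ⊗ₖ P + X := by
    rw [he, opA_reindex Q M p Md hMd, ← Finset.add_sum_erase Finset.univ _ (Finset.mem_univ ∅),
      ← add_assoc, hX]
    congr 1
    · congr 1
      ext ⟨u, x⟩ ⟨v, y⟩
      rw [hadamard_apply, kroneckerMap_apply, kroneckerMap_apply, ← he, ← hS, hS0]
      simp [hP]
    · apply Finset.sum_congr rfl
      intro K _
      rw [hS, he]
  have hleft := opA0_reindex Q q t p
  rw [det_reindex_T p, det_reindex_T p, hleft, ← he, hright, ← add_assoc, ← add_assoc, ← add_assoc]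
  refine le_trans ?_ hb2
  rw [hGeq]
  apply factor_mono hQ hq hQq hc hT hYpsd hRpsd (opA0_psd hQ q (fun K => ht0 _))
    (opA0_psd hQ q (fun K => ht0 _))
  · intro r hr
    rw [opA0_smul, opA_smul]
    apply hLD T hT
    · refine ⟨fun K => smul_psd (hMdG.psd K) hr, fun K => ?_, fun K => ?_⟩
      · intro x x' y y' hx hy
        rw [Matrix.smul_apply, Matrix.smul_apply, hMdG.dep K x x' y y' hx hy]
      · rw [trace_smul, hMdG.tr, smul_eq_mul]
        push_cast
        ring
    · intro K hK
      have : liftS p K ∉ F := by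
        intro h
        apply hK
        rw [Finset.mem_image]
        exact ⟨_, h, delSite_liftS p K⟩
      rw [ht _ this, mul_zero]
  · intro r hr
    rw [opA0_smul, opA0_add, opA0_smul, opA_smul, opA_add, opA_smul]
    apply hLD T hT
    · refine ⟨fun K => smul_psd ((smul_psd (hMdG.psd K) hc).add (hRG.psd K)) hr,
        fun K => ?_, fun K => ?_⟩
      · intro x x' y y' hx hy
        simp only [Matrix.smul_apply, Matrix.add_apply]
        rw [hMdG.dep K x x' y y' hx hy, hRG.dep K x x' y y' hx hy]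
      · rw [trace_smul, trace_add, trace_smul, hMdG.tr, hRG.tr, smul_eq_mul, smul_eq_mul]
        push_cast
        ring
    · intro K hK
      have h1 : liftS p K ∉ F := by
        intro h
        apply hK
        rw [Finset.mem_image]
        exact ⟨_, h, delSite_liftS p K⟩
      have h2 : upS p K ∉ F := by
        intro h
        apply hK
        rw [Finset.mem_image]
        exact ⟨_, h, delSite_upS p K⟩
      rw [ht _ h1, ht _ h2]
      simp

end Pool.Agent.Helper90.Spin
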