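import Mathlib
import Pool.Agent.Helper90.Spin.Sites

set_option autoImplicit false
open Matrix
open scoped ComplexOrder MatrixOrder Kronecker

namespace Pool.Agent.Helper90.Spin

set_option linter.unusedSectionVars false

variable {d n : ℕ}

/-- identity on the coordinates in `I`, all ones elsewhere -/
def Jd (I : Finset (Fin n)) : Matrix (Fin n → Fin d) (Fin n → Fin d) ℂ :=
  Matrix.of fun x y => ∏ j, if j ∈ I then (if x j = y j then 1 else 0) else 1

/-- restriction -/
def res (I : Finset (Fin n)) (x : Fin n → Fin d) : {j // j ∈ I} → Fin d := fun i => x i.1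

lemma trace_res (I : Finset (Fin n))
    (N : Matrix ({j // j ∈ I} → Fin d) ({j // j ∈ I} → Fin d) ℂ) :
    (N.submatrix (res I) (res I)).trace = N.trace * (d : ℂ) ^ (Iᶜ.card) := by
  classical
  have h := Equiv.sum_comp (Equiv.piEquivPiSubtypeProd (fun i : Fin n => i ∈ I) (fun _ => Fin d)).symm
    (fun x => N (res I x) (res I x))
  have h2 : (N.submatrix (res I) (res I)).trace = ∑ x, N (res I x) (res I x) := rfl
  rw [h2, ← h, Fintype.sum_prod_type]
  have h3 : ∀ (a : {j // j ∈ I} → Fin d) (b : {j // ¬ j ∈ I} → Fin d),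
      res I ((Equiv.piEquivPiSubtypeProd (fun i : Fin n => i ∈ I) (fun _ => Fin d)).symm (a, b)) =
        a := by
    intro a b
    funext i
    simp [res, Equiv.piEquivPiSubtypeProd]
  simp only [h3, Finset.sum_const, Finset.card_univ, nsmul_eq_mul]
  rw [← Finset.mul_sum, mul_comm]
  congr 1
  rw [Fintype.card_pi]
  simp only [Fintype.card_fin, Finset.prod_const, Finset.card_univ]
  have h4 : Fintype.card {j // ¬ j ∈ I} = Iᶜ.card := by
    rw [Fintype.card_subtype_compl, Finset.card_compl]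
    simp
  rw [h4]
  push_cast
  rfl

lemma Jd_eq (I : Finset (Fin n)) : (Jd I : Matrix (Fin n → Fin d) (Fin n → Fin d) ℂ) =
    (1 : Matrix ({j // j ∈ I} → Fin d) ({j // j ∈ I} → Fin d) ℂ).submatrix (res I) (res I) := by
  ext x y
  simp only [Jd, Matrix.of_apply, submatrix_apply, Matrix.one_apply]
  by_cases h : res I x = res I y
  · rw [if_pos h]
    apply Finset.prod_eq_one
    intro j _
    split_ifs with h1 h2
    · rfl
    · exact absurd (congrFun h ⟨j, h1⟩) h2
    · rfl
  · rw [if_neg h]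
    have : ∃ j : {j // j ∈ I}, res I x j ≠ res I y j := by
      by_contra hc
      push Not at hc
      exact h (funext hc)
    obtain ⟨⟨j, hj⟩, hne⟩ := this
    apply Finset.prod_eq_zero (Finset.mem_univ j)
    rw [if_pos hj, if_neg (show ¬ (x j = y j) from hne)]

lemma dep_le (hd : 0 < d) {I : Finset (Fin n)} {M : Matrix (Fin n → Fin d) (Fin n → Fin d) ℂ}
    (hM : M.PosSemidef) (hdep : Dep I M) {t : ℝ} (htr : M.trace = (t : ℂ) * (d : ℂ) ^ (Iᶜ.card)) :
    ((t : ℂ) • Jd I - M).PosSemidef := by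
  classical
  set u0 : Fin d := ⟨0, hd⟩
  obtain ⟨ex, hex⟩ : ∃ ex : ({j // j ∈ I} → Fin d) → (Fin n → Fin d),
      ∀ a i, ex a i = if h : i ∈ I then a ⟨i, h⟩ else u0 := ⟨_, fun _ _ => rfl⟩
  set N : Matrix ({j // j ∈ I} → Fin d) ({j // j ∈ I} → Fin d) ℂ := M.submatrix ex ex with hN
  have hNM : M = N.submatrix (res I) (res I) := by
    ext x y
    rw [submatrix_apply, hN, submatrix_apply]
    apply hdep
    · intro i hi
      rw [hex, dif_pos hi]; rfl
    · intro i hi
      rw [hex, dif_pos hi]; rfl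
  have hNpsd : N.PosSemidef := hM.submatrix _
  have htrN : N.trace = (t : ℂ) := by
    have h1 := htr
    rw [hNM, trace_res] at h1
    have hdC : (d : ℂ) ≠ 0 := by exact_mod_cast hd.ne'
    exact mul_right_cancel₀ (pow_ne_zero _ hdC) h1
  have h2 := le_trace hNpsd
  rw [htrN, Complex.ofReal_re] at h2
  have h3 : (t : ℂ) • Jd I - M = ((t : ℂ) • (1 : Matrix ({j // j ∈ I} → Fin d) ({j // j ∈ I} → Fin d) ℂ)
      - N).submatrix (res I) (res I) := by
    rw [Jd_eq, hNM]
    rfl
  rw [h3]
  exact h2.submatrix _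

/-- identity outside `J`, noise on `J` -/
def GJ (Q : Matrix (Fin d) (Fin d) ℂ) (J : Finset (Fin n)) :
    Matrix (Fin n → Fin d) (Fin n → Fin d) ℂ :=
  Matrix.of fun x y => ∏ j, if j ∈ J then Q (x j) (y j) else (if x j = y j then 1 else 0)

lemma GJ_bound {Q : Matrix (Fin d) (Fin d) ℂ} (hQ : Q.PosSemidef) {c : ℝ} (hc : 0 ≤ c)
    (hQc : ((c : ℂ) • (1 : Matrix (Fin d) (Fin d) ℂ) - Q).PosSemidef) (J : Finset (Fin n)) :
    (((c ^ J.card : ℝ) : ℂ) • (1 : Matrix (Fin n → Fin d) (Fin n → Fin d) ℂ) - GJ Q J).PosSemidef := by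
  classical
  induction J using Finset.induction_on with
  | empty =>
    have : GJ Q (∅ : Finset (Fin n)) = 1 := by
      ext x y
      simp only [GJ, Matrix.of_apply, Finset.notMem_empty, if_false, Matrix.one_apply]
      by_cases h : x = y
      · subst h; simp
      · rw [if_neg h]
        have : ∃ j, x j ≠ y j := by
          by_contra hc
          push Not at hc
          exact h (funext hc)
        obtain ⟨j, hj⟩ := this
        exact Finset.prod_eq_zero (Finset.mem_univ j) (by rw [if_neg hj])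
    rw [this]
    simp
    exact PosSemidef.zero
  | insert a J ha ih =>
    set E : Matrix (Fin n → Fin d) (Fin n → Fin d) ℂ := Matrix.of fun x y =>
      ∏ j ∈ Finset.univ.erase a, (if j ∈ J then Q (x j) (y j) else (if x j = y j then 1 else 0))
      with hE
    have hEpsd : E.PosSemidef := by
      have := prodH_psd (X := Fin n → Fin d) (Finset.univ.erase a)
        (fun j : Fin n => if j ∈ J then Q.submatrix (fun x => x j) (fun x => x j)
          else (1 : Matrix (Fin d) (Fin d) ℂ).submatrix (fun x => x j) (fun x => x j)) (by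
          intro j _
          split_ifs
          · exact hQ.submatrix _
          · exact PosSemidef.one.submatrix _)
      have e : E = (Matrix.of fun x y => ∏ j ∈ Finset.univ.erase a,
          (if j ∈ J then Q.submatrix (fun x : Fin n → Fin d => x j) (fun x => x j)
          else (1 : Matrix (Fin d) (Fin d) ℂ).submatrix (fun x => x j) (fun x => x j)) x y) := by
        ext x y
        rw [hE]
        simp only [Matrix.of_apply]
        apply Finset.prod_congr rfl
        intro j _
        split_ifs with h1 h2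
        · simp
        · simp [Matrix.one_apply, h2]
        · simp [Matrix.one_apply, h2]
      rw [e]
      exact this
    have e1 : ∀ x y, GJ Q J x y = (if x a = y a then 1 else 0) * E x y := by
      intro x y
      simp only [GJ, hE, Matrix.of_apply]
      rw [← Finset.mul_prod_erase _ _ (Finset.mem_univ a), if_neg ha]
    have e2 : ∀ x y, GJ Q (insert a J) x y = Q (x a) (y a) * E x y := by
      intro x y
      simp only [GJ, hE, Matrix.of_apply]
      rw [← Finset.mul_prod_erase _ _ (Finset.mem_univ a), if_pos (Finset.mem_insert_self a J)]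
      congr 1
      apply Finset.prod_congr rfl
      intro j hj
      have hja : j ≠ a := (Finset.mem_erase.mp hj).1
      simp [Finset.mem_insert, hja]
    have e3 : (((c ^ (insert a J).card : ℝ) : ℂ) •
        (1 : Matrix (Fin n → Fin d) (Fin n → Fin d) ℂ) - GJ Q (insert a J)) =
        (c : ℂ) • (((c ^ J.card : ℝ) : ℂ) • (1 : Matrix (Fin n → Fin d) (Fin n → Fin d) ℂ) - GJ Q J)
        + (((c : ℂ) • (1 : Matrix (Fin d) (Fin d) ℂ) - Q).submatrix (fun x : Fin n → Fin d => x a)
          (fun x => x a)) ⊙ E := by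
      ext x y
      rw [Finset.card_insert_of_notMem ha]
      simp only [Matrix.sub_apply, Matrix.add_apply, Matrix.smul_apply, hadamard_apply,
        submatrix_apply, e1, e2, smul_eq_mul]
      by_cases h : x a = y a
      · rw [if_pos h, h, Matrix.one_apply_eq]
        push_cast
        ring
      · rw [if_neg h, Matrix.one_apply_ne h]
        push_cast
        ring
    rw [e3]
    exact (smul_psd ih hc).add ((hQc.submatrix _).hadamard hEpsd)

lemma term_le (hd : 0 < d) {Q : Matrix (Fin d) (Fin d) ℂ} (hQ : Q.PosSemidef) {c : ℝ} (hc : 0 ≤ c)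
    (hQc : ((c : ℂ) • (1 : Matrix (Fin d) (Fin d) ℂ) - Q).PosSemidef)
    {I : Finset (Fin n)} {M : Matrix (Fin n → Fin d) (Fin n → Fin d) ℂ}
    (hM : M.PosSemidef) (hdep : Dep I M) {t : ℝ} (ht : 0 ≤ t)
    (htr : M.trace = (t : ℂ) * (d : ℂ) ^ (Iᶜ.card)) :
    (((t * c ^ (Iᶜ.card) : ℝ) : ℂ) • (1 : Matrix (Fin n → Fin d) (Fin n → Fin d) ℂ) -
      M ⊙ NQ Q I).PosSemidef := by
  have h1 := (dep_le hd hM hdep htr).hadamard (NQ_psd hQ I)
  have h2 := smul_psd (GJ_bound hQ hc hQc (Iᶜ)) ht
  have e : (((t * c ^ (Iᶜ.card) : ℝ) : ℂ) • (1 : Matrix (Fin n → Fin d) (Fin n → Fin d) ℂ) -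
      M ⊙ NQ Q I) = ((t : ℂ) • Jd I - M) ⊙ NQ Q I + (t : ℂ) •
      (((c ^ (Iᶜ.card) : ℝ) : ℂ) • (1 : Matrix (Fin n → Fin d) (Fin n → Fin d) ℂ) - GJ Q Iᶜ) := by
    ext x y
    have e2 : Jd I x y * NQ Q I x y = GJ Q Iᶜ x y := by
      simp only [Jd, NQ, GJ, Matrix.of_apply]
      rw [← Finset.prod_mul_distrib]
      apply Finset.prod_congr rfl
      intro j _
      by_cases hj : j ∈ I
      · simp [hj]
      · simp [hj]
    simp only [Matrix.sub_apply, Matrix.add_apply, Matrix.smul_apply, hadamard_apply, smul_eq_mul]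
    rw [← e2]
    push_cast
    ring
  rw [e]
  exact h1.add h2

/-- product vector -/
def qn (q : Fin d → ℂ) (n : ℕ) : (Fin n → Fin d) → ℂ := fun x => ∏ j, q (x j)

lemma qn_unit {q : Fin d → ℂ} (hq : star q ⬝ᵥ q = 1) (n : ℕ) : star (qn q n) ⬝ᵥ qn q n = 1 := by
  have hqq : ∑ v, star (q v) * q v = 1 := hq
  have h : star (qn q n) ⬝ᵥ qn q n = ∑ x : Fin n → Fin d, ∏ j, (star (q (x j)) * q (x j)) := by
    simp only [dotProduct, qn, Pi.star_apply, star_prod, ← Finset.prod_mul_distrib]
  rw [h]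
  have h2 := Finset.prod_univ_sum (fun _ : Fin n => (Finset.univ : Finset (Fin d)))
    (fun _ v => star (q v) * q v)
  rw [Fintype.piFinset_univ] at h2
  rw [← h2]
  simp only [hqq, Finset.prod_const_one]

lemma term_eig {Q : Matrix (Fin d) (Fin d) ℂ} {q : Fin d → ℂ} {c : ℝ} (hq : star q ⬝ᵥ q = 1)
    (hQq : Q *ᵥ q = (c : ℂ) • q) (I : Finset (Fin n)) (x : Fin n → Fin d) :
    ∑ y, (Al q I ⊙ NQ Q I) x y * qn q n y = ((c ^ (Iᶜ.card) : ℝ) : ℂ) * qn q n x := by
  have hqq : ∑ v, star (q v) * q v = 1 := hq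
  have hQq' : ∀ u, ∑ v, Q u v * q v = (c : ℂ) * q u := by
    intro u
    have := congrFun hQq u
    simpa [mulVec, dotProduct] using this
  have h1 : ∀ y, (Al q I ⊙ NQ Q I) x y * qn q n y =
      ∏ j, (if j ∈ I then q (x j) * (star (q (y j)) * q (y j)) else Q (x j) (y j) * q (y j)) := by
    intro y
    simp only [hadamard_apply, Al, NQ, qn, Matrix.of_apply]
    rw [← Finset.prod_mul_distrib, ← Finset.prod_mul_distrib]
    apply Finset.prod_congr rfl
    intro j _
    by_cases hj : j ∈ I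
    · simp [hj]; ring
    · simp [hj]
  simp only [h1]
  have h2 := Finset.prod_univ_sum (fun _ : Fin n => (Finset.univ : Finset (Fin d)))
    (fun j v => (if j ∈ I then q (x j) * (star (q v) * q v) else Q (x j) v * q v))
  rw [Fintype.piFinset_univ] at h2
  rw [← h2]
  have h3 : ∀ j, ∑ v, (if j ∈ I then q (x j) * (star (q v) * q v) else Q (x j) v * q v) =
      (if j ∈ Iᶜ then (c : ℂ) else 1) * q (x j) := by
    intro j
    by_cases hj : j ∈ I
    · simp only [hj, if_true, Finset.mem_compl, not_true, if_false]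
      rw [← Finset.mul_sum, hqq]; ring
    · simp only [hj, if_false, Finset.mem_compl, not_false_iff, if_true]
      rw [hQq']
  rw [Finset.prod_congr rfl (fun j _ => h3 j), Finset.prod_mul_distrib]
  congr 1
  rw [Finset.prod_ite_mem, Finset.univ_inter, Finset.prod_const]
  push_cast
  rfl

/-- removal of the full set -/
theorem top_core (hd : 0 < d) {Q : Matrix (Fin d) (Fin d) ℂ} (hQ : Q.PosSemidef) {q : Fin d → ℂ}
    {c : ℝ} (hq : star q ⬝ᵥ q = 1) (hQq : Q *ᵥ q = (c : ℂ) • q) (hc : 0 ≤ c)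
    (hQc : ((c : ℂ) • (1 : Matrix (Fin d) (Fin d) ℂ) - Q).PosSemidef)
    {T : ℝ} (hT : 0 < T) (t : Finset (Fin n) → ℝ)
    (M : Finset (Fin n) → Matrix (Fin n → Fin d) (Fin n → Fin d) ℂ) (hM : GoodFam t M)
    (t' : Finset (Fin n) → ℝ) (ht' : ∀ I, t' I = if I = Finset.univ then 0 else t I)
    (M' : Finset (Fin n) → Matrix (Fin n → Fin d) (Fin n → Fin d) ℂ)
    (hM' : ∀ I, M' I = if I = Finset.univ then 0 else M I)
    (hLD : ((T : ℂ) • (1 : Matrix (Fin n → Fin d) (Fin n → Fin d) ℂ) + opA0 Q q t').det.re ≤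
      ((T : ℂ) • (1 : Matrix (Fin n → Fin d) (Fin n → Fin d) ℂ) + opA Q M').det.re) :
    ((T : ℂ) • (1 : Matrix (Fin n → Fin d) (Fin n → Fin d) ℂ) + opA0 Q q t).det.re ≤
      ((T : ℂ) • (1 : Matrix (Fin n → Fin d) (Fin n → Fin d) ℂ) + opA Q M).det.re := by
  classical
  have ht0 : ∀ I, 0 ≤ t I := fun I => hM.t_nonneg hd I
  have ht'0 : ∀ I, 0 ≤ t' I := by
    intro I; rw [ht']; split_ifs
    · exact le_rfl
    · exact ht0 I
  have hG : GoodFam t' M' := by
    refine ⟨fun I => ?_, fun I => ?_, fun I => ?_⟩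
    · rw [hM']; split_ifs
      · exact PosSemidef.zero
      · exact hM.psd I
    · rw [hM']; split_ifs
      · intro x x' y y' _ _; simp
      · exact hM.dep I
    · rw [hM', ht']; split_ifs
      · simp
      · exact hM.tr I
  set W := M Finset.univ with hW
  set τ := t Finset.univ with hτ
  have hWtr : W.trace = (τ : ℂ) := by
    have := hM.tr Finset.univ
    simpa using this
  have hNU : ∀ x y, NQ Q (Finset.univ : Finset (Fin n)) x y = 1 := by
    intro x y; simp [NQ]
  have eA : opA Q M = opA Q M' + W := by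
    rw [opA, opA, ← Finset.sum_erase_add Finset.univ _ (Finset.mem_univ (Finset.univ : Finset (Fin n))),
      ← Finset.sum_erase_add Finset.univ _ (Finset.mem_univ (Finset.univ : Finset (Fin n)))]
    have e1 : M' Finset.univ = 0 := by rw [hM', if_pos rfl]
    rw [e1, zero_hadamard, add_zero]
    congr 1
    · apply Finset.sum_congr rfl
      intro I hI
      rw [hM', if_neg (Finset.mem_erase.mp hI).1]
    · ext x y
      rw [hadamard_apply, hNU, mul_one]
  have hAl : Al q (Finset.univ : Finset (Fin n)) = r1 (qn q n) := by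
    ext x y
    simp only [Al, Matrix.of_apply, Finset.mem_univ, if_true, r1, vecMulVec_apply, qn,
      Pi.star_apply, star_prod, Finset.prod_mul_distrib]
  have eA0 : opA0 Q q t = opA0 Q q t' + (τ : ℂ) • r1 (qn q n) := by
    rw [opA0, opA0, ← Finset.sum_erase_add Finset.univ _ (Finset.mem_univ (Finset.univ : Finset (Fin n))),
      ← Finset.sum_erase_add Finset.univ _ (Finset.mem_univ (Finset.univ : Finset (Fin n)))]
    have e1 : t' Finset.univ = 0 := by rw [ht', if_pos rfl]
    rw [e1, Complex.ofReal_zero, zero_smul, add_zero]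
    congr 1
    · apply Finset.sum_congr rfl
      intro I hI
      rw [ht', if_neg (Finset.mem_erase.mp hI).1]
    · rw [hAl]
      ext x y
      rw [Matrix.smul_apply, Matrix.smul_apply, hadamard_apply, hNU, mul_one]
  set B := (T : ℂ) • (1 : Matrix (Fin n → Fin d) (Fin n → Fin d) ℂ) + opA Q M' with hB
  set B' := (T : ℂ) • (1 : Matrix (Fin n → Fin d) (Fin n → Fin d) ℂ) + opA0 Q q t' with hB'
  have hBpd : B.PosDef := posDef_T hT (opA_psd hQ hG.psd)
  have hB'pd : B'.PosDef := posDef_T hT (opA0_psd hQ q ht'0)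
  set z : ℝ := T + ∑ I : Finset (Fin n), t' I * c ^ (Iᶜ.card) with hz
  have hzpos : 0 < z := by
    have : 0 ≤ ∑ I : Finset (Fin n), t' I * c ^ (Iᶜ.card) :=
      Finset.sum_nonneg (fun I _ => mul_nonneg (ht'0 I) (pow_nonneg hc _))
    linarith
  have hBz : ((z : ℂ) • (1 : Matrix (Fin n → Fin d) (Fin n → Fin d) ℂ) - B).PosSemidef := by
    have e : (z : ℂ) • (1 : Matrix (Fin n → Fin d) (Fin n → Fin d) ℂ) - B =
        ∑ I : Finset (Fin n), (((t' I * c ^ (Iᶜ.card) : ℝ) : ℂ) •
          (1 : Matrix (Fin n → Fin d) (Fin n → Fin d) ℂ) - M' I ⊙ NQ Q I) := by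
      rw [Finset.sum_sub_distrib, hB, opA, ← Finset.sum_smul, hz]
      push_cast
      rw [add_smul]
      abel
    rw [e]
    apply posSemidef_sum
    intro I _
    exact term_le hd hQ hc hQc (hG.psd I) (hG.dep I) (ht'0 I) (hG.tr I)
  have hB'z : ∀ x, ∑ y, B' x y * qn q n y = (z : ℂ) * qn q n x := by
    intro x
    have e : ∀ y, B' x y * qn q n y = (T : ℂ) * ((1 : Matrix (Fin n → Fin d) (Fin n → Fin d) ℂ) x y *
        qn q n y) + ∑ I : Finset (Fin n), (t' I : ℂ) * ((Al q I ⊙ NQ Q I) x y * qn q n y) := by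
      intro y
      rw [hB', Matrix.add_apply, Matrix.smul_apply, opA0, Matrix.sum_apply, add_mul,
        Finset.sum_mul, smul_eq_mul, mul_assoc]
      congr 1
      apply Finset.sum_congr rfl
      intro I _
      rw [Matrix.smul_apply, smul_eq_mul, mul_assoc]
    simp only [e]
    rw [Finset.sum_add_distrib, ← Finset.mul_sum, Finset.sum_comm]
    simp only [← Finset.mul_sum, term_eig hq hQq]
    have h1 : ∑ y, (1 : Matrix (Fin n → Fin d) (Fin n → Fin d) ℂ) x y * qn q n y = qn q n x := by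
      simp [Matrix.one_apply]
    rw [h1, hz]
    push_cast
    rw [add_mul, Finset.sum_mul]
    congr 1
    apply Finset.sum_congr rfl
    intro I _
    ring
  -- engine with trivial second factor
  have hone : (1 : Matrix Unit Unit ℂ).PosDef := PosDef.one
  have hWpsd : W.PosSemidef := hM.psd _
  have hdk : ∀ (A : Matrix (Fin n → Fin d) (Fin n → Fin d) ℂ),
      (A ⊗ₖ (1 : Matrix Unit Unit ℂ)).det = A.det := by
    intro A
    rw [det_kronecker]
    simp
  obtain ⟨b, hb1, hb2⟩ := engine (κ := Fin n → Fin d) (α := Unit) (σ := Unit) (by simp)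
    (fun _ => Wᵀ) (fun _ => hWpsd.transpose) (qn_unit hq n)
    (X := W ⊗ₖ (1 : Matrix Unit Unit ℂ)) (B := B ⊗ₖ (1 : Matrix Unit Unit ℂ))
    (B' := B' ⊗ₖ (1 : Matrix Unit Unit ℂ)) (Z := (z : ℂ) • (1 : Matrix Unit Unit ℂ))
    (hWpsd.kronecker hone.posSemidef) (hBpd.kronecker hone) (hB'pd.kronecker hone)
    (hone.smul (by exact_mod_cast hzpos)) (by
      have e : (1 : Matrix (Fin n → Fin d) (Fin n → Fin d) ℂ) ⊗ₖ ((z : ℂ) • (1 : Matrix Unit Unit ℂ)) -
          B ⊗ₖ (1 : Matrix Unit Unit ℂ) =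
          ((z : ℂ) • (1 : Matrix (Fin n → Fin d) (Fin n → Fin d) ℂ) - B) ⊗ₖ (1 : Matrix Unit Unit ℂ) := by
        ext ⟨u, x⟩ ⟨v, y⟩
        simp only [Matrix.sub_apply, Matrix.smul_apply, kroneckerMap_apply, smul_eq_mul]
        ring
      rw [e]
      exact hBz.kronecker hone.posSemidef) (by
      intro u x y
      simp only [kroneckerMap_apply, Matrix.smul_apply, smul_eq_mul]
      have : ∀ v, B' u v * (1 : Matrix Unit Unit ℂ) x y * qn q n v =
          (B' u v * qn q n v) * (1 : Matrix Unit Unit ℂ) x y := fun v => by ring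
      simp only [this]
      rw [← Finset.sum_mul, hB'z]
      ring)
  have hb1u := hb1 ()
  have hcmp : comp b (W ⊗ₖ (1 : Matrix Unit Unit ℂ)) = (τ : ℂ) • (1 : Matrix Unit Unit ℂ) := by
    rw [comp_kron, lin_real hWpsd.transpose, hb1u, trace_transpose, ← trace_re_eq hWpsd, hWtr]
  rw [hcmp, kronecker_smul, ← smul_kronecker, ← add_kronecker, ← add_kronecker, hdk, hdk, hdk,
    hdk] at hb2
  have hBdet : 0 < B.det.re := det_re_pos hBpd
  have hB'det : 0 < B'.det.re := det_re_pos hB'pd
  rw [eA, eA0, ← add_assoc, ← add_assoc]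
  have hX0 : 0 ≤ (B' + (τ : ℂ) • r1 (qn q n)).det.re :=
    det_re_nonneg (hB'pd.posSemidef.add (smul_psd (r1_psd _) (ht0 _)))
  have h3 : (B' + (τ : ℂ) • r1 (qn q n)).det.re * B'.det.re ≤ (B + W).det.re * B'.det.re :=
    (mul_le_mul_of_nonneg_left hLD hX0).trans hb2
  exact le_of_mul_le_mul_right h3 hB'det

theorem top_lemma (hd : 0 < d) {Q : Matrix (Fin d) (Fin d) ℂ} (hQ : Q.PosSemidef) {q : Fin d → ℂ}
    {c : ℝ} (hq : star q ⬝ᵥ q = 1) (hQq : Q *ᵥ q = (c : ℂ) • q) (hc : 0 ≤ c)
    (hQc : ((c : ℂ) • (1 : Matrix (Fin d) (Fin d) ℂ) - Q).PosSemidef)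
    (F : Finset (Finset (Fin n))) (h : LD Q q n (F.erase Finset.univ)) : LD Q q n F := by
  classical
  intro T hT t M hM ht
  apply top_core hd hQ hq hQq hc hQc hT t M hM _ (fun _ => rfl) _ (fun _ => rfl)
  apply h T hT
  · refine ⟨fun I => ?_, fun I => ?_, fun I => ?_⟩
    · split_ifs
      · exact PosSemidef.zero
      · exact hM.psd I
    · split_ifs
      · intro x x' y y' _ _; simp
      · exact hM.dep I
    · split_ifs
      · simp
      · exact hM.tr I
  · intro I hI
    split_ifs with h1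
    · rfl
    · apply ht
      intro h2
      exact hI (Finset.mem_erase.mpr ⟨h1, h2⟩)

end Pool.Agent.Helper90.Spin
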