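import Mathlib
import Pool.Agent.Helper90.Spin.Rec
import Pool.Agent.Helper90.Spin.TopSet
import Pool.Agent.Helper90.Spin.Compress2

set_option autoImplicit false
open Matrix
open scoped ComplexOrder MatrixOrder Kronecker

namespace Pool.Agent.Helper90.Spin

set_option linter.unusedSectionVars false

variable {d n : ℕ}

/-- product outside the core `C` -/
def PO (I C : Finset (Fin n)) (M : Matrix (Fin n → Fin d) (Fin n → Fin d) ℂ) : Prop :=
  ∃ (ξ : Matrix (Fin n → Fin d) (Fin n → Fin d) ℂ) (s : Fin n → Matrix (Fin d) (Fin d) ℂ),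
    ξ.PosSemidef ∧ Dep C ξ ∧ (∀ i, (s i).PosSemidef) ∧
      ∀ x y, M x y = ξ x y * ∏ i ∈ I \ C, s i (x i) (y i)

lemma pull_psd {s : Fin n → Matrix (Fin d) (Fin d) ℂ} (hs : ∀ i, (s i).PosSemidef)
    (J : Finset (Fin n)) : (Matrix.of fun x y : Fin n → Fin d => ∏ i ∈ J, s i (x i) (y i)).PosSemidef := by
  have := prodH_psd (X := Fin n → Fin d) J (fun j => (s j).submatrix (fun x => x j) (fun x => x j))
    (fun j _ => (hs j).submatrix _)
  simpa using this

lemma PO.psd {I C : Finset (Fin n)} {M : Matrix (Fin n → Fin d) (Fin n → Fin d) ℂ}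
    (h : PO I C M) : M.PosSemidef := by
  obtain ⟨ξ, s, h1, _, h3, h4⟩ := h
  have e : M = ξ ⊙ (Matrix.of fun x y : Fin n → Fin d => ∏ i ∈ I \ C, s i (x i) (y i)) := by
    ext x y
    rw [h4, hadamard_apply, Matrix.of_apply]
  rw [e]
  exact h1.hadamard (pull_psd h3 _)

lemma PO.dep {I C : Finset (Fin n)} (hCI : C ⊆ I)
    {M : Matrix (Fin n → Fin d) (Fin n → Fin d) ℂ} (h : PO I C M) : Dep I M := by
  obtain ⟨ξ, s, _, h2, _, h4⟩ := h
  intro x x' y y' hx hy
  rw [h4, h4, h2 x x' y y' (fun i hi => hx i (hCI hi)) (fun i hi => hy i (hCI hi))]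
  congr 1
  apply Finset.prod_congr rfl
  intro i hi
  rw [hx i (Finset.mem_sdiff.mp hi).1, hy i (Finset.mem_sdiff.mp hi).1]

lemma PO.zero (I C : Finset (Fin n)) :
    PO I C (0 : Matrix (Fin n → Fin d) (Fin n → Fin d) ℂ) := by
  refine ⟨0, fun _ => 0, PosSemidef.zero, ?_, fun _ => PosSemidef.zero, ?_⟩
  · intro x x' y y' _ _; simp
  · intro x y; simp

lemma PO.smul {I C : Finset (Fin n)} {M : Matrix (Fin n → Fin d) (Fin n → Fin d) ℂ}
    (h : PO I C M) {r : ℝ} (hr : 0 ≤ r) : PO I C ((r : ℂ) • M) := by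
  obtain ⟨ξ, s, h1, h2, h3, h4⟩ := h
  refine ⟨(r : ℂ) • ξ, s, smul_psd h1 hr, ?_, h3, ?_⟩
  · intro x x' y y' hx hy
    rw [Matrix.smul_apply, Matrix.smul_apply, h2 x x' y y' hx hy]
  · intro x y
    rw [Matrix.smul_apply, Matrix.smul_apply, h4, smul_eq_mul, smul_eq_mul, mul_assoc]

lemma prod_del_notMem {M : Type*} [CommMonoid M] (p : Fin (n + 1)) {J : Finset (Fin (n + 1))}
    (h : p ∉ J) (f : Fin (n + 1) → M) : ∏ i ∈ J, f i = ∏ j ∈ delSite p J, f (p.succAbove j) := by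
  conv_lhs => rw [← liftS_delSite p h]
  rw [liftS, Finset.prod_map]
  rfl

lemma prod_del_mem {M : Type*} [CommMonoid M] (p : Fin (n + 1)) {J : Finset (Fin (n + 1))}
    (h : p ∈ J) (f : Fin (n + 1) → M) :
    ∏ i ∈ J, f i = f p * ∏ j ∈ delSite p J, f (p.succAbove j) := by
  conv_lhs => rw [← upS_delSite p h]
  rw [upS, Finset.prod_insert (p_notMem_liftS p _), liftS, Finset.prod_map]
  rfl

lemma delSite_sdiff (p : Fin (n + 1)) (I C : Finset (Fin (n + 1))) :
    delSite p (I \ C) = delSite p I \ delSite p C := by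
  ext j
  simp only [mem_delSite, Finset.mem_sdiff]

lemma delSite_mono (p : Fin (n + 1)) {C I : Finset (Fin (n + 1))} (h : C ⊆ I) :
    delSite p C ⊆ delSite p I := by
  intro j hj
  rw [mem_delSite] at hj ⊢
  exact h hj

lemma sum_del_dep {ξ : Matrix (Fin (n + 1) → Fin d) (Fin (n + 1) → Fin d) ℂ}
    {C : Finset (Fin (n + 1))} (hdep : Dep C ξ) {p : Fin (n + 1)} (hp : p ∉ C) (u v u' v' : Fin d)
    (x y : Fin n → Fin d) :
    ξ (eqv d p (u, x)) (eqv d p (v, y)) = ξ (eqv d p (u', x)) (eqv d p (v', y)) := by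
  apply hdep
  · intro i hi
    rcases Fin.eq_self_or_eq_succAbove p i with rfl | ⟨j, rfl⟩
    · exact absurd hi hp
    · rw [eqv_sa, eqv_sa]
  · intro i hi
    rcases Fin.eq_self_or_eq_succAbove p i with rfl | ⟨j, rfl⟩
    · exact absurd hi hp
    · rw [eqv_sa, eqv_sa]

lemma dep_del {ξ : Matrix (Fin (n + 1) → Fin d) (Fin (n + 1) → Fin d) ℂ}
    {C : Finset (Fin (n + 1))} (hdep : Dep C ξ) (p : Fin (n + 1)) (u v : Fin d)
    {x x' y y' : Fin n → Fin d} (hx : ∀ i ∈ delSite p C, x i = x' i)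
    (hy : ∀ i ∈ delSite p C, y i = y' i) :
    ξ (eqv d p (u, x)) (eqv d p (v, y)) = ξ (eqv d p (u, x')) (eqv d p (v, y')) := by
  apply hdep
  · intro i hi
    rcases Fin.eq_self_or_eq_succAbove p i with rfl | ⟨j, rfl⟩
    · rw [eqv_same, eqv_same]
    · rw [eqv_sa, eqv_sa]
      exact hx j ((mem_delSite p C j).mpr hi)
  · intro i hi
    rcases Fin.eq_self_or_eq_succAbove p i with rfl | ⟨j, rfl⟩
    · rw [eqv_same, eqv_same]
    · rw [eqv_sa, eqv_sa]
      exact hy j ((mem_delSite p C j).mpr hi)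

lemma PO_lift (u0 : Fin d) {p : Fin (n + 1)} {I C : Finset (Fin (n + 1))} (hCI : C ⊆ I)
    (hp : p ∉ I) {M : Matrix (Fin (n + 1) → Fin d) (Fin (n + 1) → Fin d) ℂ} (h : PO I C M) :
    PO (delSite p I) (delSite p C) (M.submatrix (fun x => eqv d p (u0, x)) (fun x => eqv d p (u0, x))) ∧
    ∀ u v x y, M (eqv d p (u, x)) (eqv d p (v, y)) = M (eqv d p (u0, x)) (eqv d p (u0, y)) := by
  have hdep := PO.dep hCI h
  obtain ⟨ξ, s, h1, h2, h3, h4⟩ := h
  refine ⟨⟨ξ.submatrix (fun x => eqv d p (u0, x)) (fun x => eqv d p (u0, x)),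
    fun j => s (p.succAbove j), h1.submatrix _, ?_, fun j => h3 _, ?_⟩, ?_⟩
  · intro x x' y y' hx hy
    rw [submatrix_apply, submatrix_apply]
    exact dep_del h2 p u0 u0 hx hy
  · intro x y
    have hp' : p ∉ I \ C := fun hh => hp (Finset.mem_sdiff.mp hh).1
    rw [submatrix_apply, submatrix_apply, h4, prod_del_notMem p hp', delSite_sdiff]
    simp only [eqv_sa]
  · intro u v x y
    exact sum_del_dep hdep hp _ _ _ _ _ _

/-- partial trace over the site `p` -/
def trP (p : Fin (n + 1)) (M : Matrix (Fin (n + 1) → Fin d) (Fin (n + 1) → Fin d) ℂ) :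
    Matrix (Fin n → Fin d) (Fin n → Fin d) ℂ :=
  Matrix.of fun x y => ∑ u, M (eqv d p (u, x)) (eqv d p (u, y))

lemma PO_prod (u0 : Fin d) {p : Fin (n + 1)} {I C : Finset (Fin (n + 1))} (hCI : C ⊆ I)
    (hp : p ∈ I) (hpC : p ∉ C ∨ C = {p})
    {M : Matrix (Fin (n + 1) → Fin d) (Fin (n + 1) → Fin d) ℂ} (h : PO I C M) :
    ∃ (s0 : Matrix (Fin d) (Fin d) ℂ) (W : Matrix (Fin n → Fin d) (Fin n → Fin d) ℂ),
      s0.PosSemidef ∧ PO (delSite p I) (delSite p C) W ∧
      (∀ u v x y, M (eqv d p (u, x)) (eqv d p (v, y)) = s0 u v * W x y) ∧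
      trP p M = ((s0.trace.re : ℝ) : ℂ) • W := by
  have key : ∃ (s0 : Matrix (Fin d) (Fin d) ℂ) (W : Matrix (Fin n → Fin d) (Fin n → Fin d) ℂ),
      s0.PosSemidef ∧ PO (delSite p I) (delSite p C) W ∧
      (∀ u v x y, M (eqv d p (u, x)) (eqv d p (v, y)) = s0 u v * W x y) := by
    obtain ⟨ξ, s, h1, h2, h3, h4⟩ := h
    rcases hpC with hpC | hpC
    · have hp' : p ∈ I \ C := Finset.mem_sdiff.mpr ⟨hp, hpC⟩
      refine ⟨s p, Matrix.of fun x y => ξ (eqv d p (u0, x)) (eqv d p (u0, y)) *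
        ∏ j ∈ delSite p I \ delSite p C, s (p.succAbove j) (x j) (y j), h3 p,
        ⟨ξ.submatrix (fun x => eqv d p (u0, x)) (fun x => eqv d p (u0, x)),
          fun j => s (p.succAbove j), h1.submatrix _, ?_, fun j => h3 _, ?_⟩, ?_⟩
      · intro x x' y y' hx hy
        rw [submatrix_apply, submatrix_apply]
        exact dep_del h2 p u0 u0 hx hy
      · intro x y
        rfl
      · intro u v x y
        rw [h4, prod_del_mem p hp', delSite_sdiff, sum_del_dep h2 hpC u v u0 u0 x y]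
        simp only [eqv_sa, eqv_same, Matrix.of_apply]
        ring
    · subst hpC
      have hp' : p ∉ I \ {p} := by simp
      have hdel : delSite p ({p} : Finset (Fin (n + 1))) = ∅ := by
        ext j
        rw [mem_delSite]
        simp [Fin.succAbove_ne]
      refine ⟨ξ.submatrix (fun u => eqv d p (u, fun _ => u0)) (fun u => eqv d p (u, fun _ => u0)),
        Matrix.of fun x y => ∏ j ∈ delSite p I \ delSite p {p}, s (p.succAbove j) (x j) (y j),
        h1.submatrix _, ⟨Matrix.of fun _ _ => 1, fun j => s (p.succAbove j), ones_psd, ?_,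
          fun j => h3 _, ?_⟩, ?_⟩
      · intro x x' y y' _ _
        rfl
      · intro x y
        rw [Matrix.of_apply, Matrix.of_apply, one_mul]
      · intro u v x y
        rw [h4, prod_del_notMem p hp', delSite_sdiff, submatrix_apply,
          dep_del h2 p u v (x := x) (x' := fun _ => u0) (y := y) (y' := fun _ => u0)
          (by rw [hdel]; simp) (by rw [hdel]; simp)]
        simp only [eqv_sa, Matrix.of_apply]
  obtain ⟨s0, W, hs, hW, hM⟩ := key
  refine ⟨s0, W, hs, hW, hM, ?_⟩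
  ext x y
  rw [← trace_re_eq hs, Matrix.smul_apply, smul_eq_mul, Matrix.trace, Finset.sum_mul]
  simp only [trP, Matrix.of_apply, hM, Matrix.diag_apply]

lemma PO_ent (b : Fin d → ℂ) {p : Fin (n + 1)} {I C : Finset (Fin (n + 1))}
    (hp : p ∈ C) {M : Matrix (Fin (n + 1) → Fin d) (Fin (n + 1) → Fin d) ℂ} (h : PO I C M) :
    PO (delSite p I) (delSite p C) (comp b (M.submatrix (eqv d p) (eqv d p))) := by
  obtain ⟨ξ, s, h1, h2, h3, h4⟩ := h
  have hp' : p ∉ I \ C := fun hh => (Finset.mem_sdiff.mp hh).2 hp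
  refine ⟨comp b (ξ.submatrix (eqv d p) (eqv d p)), fun j => s (p.succAbove j),
    comp_psd b (h1.submatrix _), ?_, fun j => h3 _, ?_⟩
  · intro x x' y y' hx hy
    simp only [comp]
    apply Finset.sum_congr rfl
    intro u _
    apply Finset.sum_congr rfl
    intro v _
    congr 1
    rw [submatrix_apply, submatrix_apply]
    exact dep_del h2 p u v hx hy
  · intro x y
    simp only [comp, submatrix_apply, h4, prod_del_notMem p hp', delSite_sdiff, eqv_sa,
      Finset.sum_mul]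
    apply Finset.sum_congr rfl
    intro u _
    apply Finset.sum_congr rfl
    intro v _
    ring

variable {Ω : Type} [Fintype Ω] [DecidableEq Ω]

/-- the alignment operator of a labelled family -/
def opL (Q : Matrix (Fin d) (Fin d) ℂ) (I : Ω → Finset (Fin n))
    (M : Ω → Matrix (Fin n → Fin d) (Fin n → Fin d) ℂ) :
    Matrix (Fin n → Fin d) (Fin n → Fin d) ℂ := ∑ ω, (M ω) ⊙ (NQ Q (I ω))

lemma opL_smul (Q : Matrix (Fin d) (Fin d) ℂ) (I : Ω → Finset (Fin n))
    (M : Ω → Matrix (Fin n → Fin d) (Fin n → Fin d) ℂ) (r : ℂ) :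
    r • opL Q I M = opL Q I (fun K => r • M K) := by
  simp only [opL, Finset.smul_sum, smul_hadamard]

lemma opL_add (Q : Matrix (Fin d) (Fin d) ℂ) (I : Ω → Finset (Fin n))
    (M M' : Ω → Matrix (Fin n → Fin d) (Fin n → Fin d) ℂ) :
    opL Q I M + opL Q I M' = opL Q I (fun K => M K + M' K) := by
  simp only [opL, ← Finset.sum_add_distrib, add_hadamard]

lemma opL_psd {Q : Matrix (Fin d) (Fin d) ℂ} (hQ : Q.PosSemidef) (I : Ω → Finset (Fin n))
    {M : Ω → Matrix (Fin n → Fin d) (Fin n → Fin d) ℂ} (hM : ∀ ω, (M ω).PosSemidef) :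
    (opL Q I M).PosSemidef := by
  apply posSemidef_sum
  intro ω _
  exact (hM ω).hadamard (NQ_psd hQ _)

/-- admissible labelled families -/
structure GoodL (P : Finset (Finset (Fin n) × Finset (Fin n))) (I C : Ω → Finset (Fin n))
    (M : Ω → Matrix (Fin n → Fin d) (Fin n → Fin d) ℂ) (t : Finset (Fin n) → ℝ) : Prop where
  sub : ∀ ω, C ω ⊆ I ω
  po : ∀ ω, PO (I ω) (C ω) (M ω)
  supp : ∀ ω, M ω ≠ 0 → (I ω, C ω) ∈ P
  tr : ∀ K, ∑ ω with I ω = K, (M ω).trace = (t K : ℂ) * (d : ℂ) ^ (Kᶜ.card)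

/-- the log-determinant statement for labelled families -/
def LDL (Q : Matrix (Fin d) (Fin d) ℂ) (q : Fin d → ℂ) (n : ℕ)
    (P : Finset (Finset (Fin n) × Finset (Fin n))) : Prop :=
  ∀ (T : ℝ), 0 < T → ∀ (Ω : Type) (_ : Fintype Ω) (_ : DecidableEq Ω)
    (I C : Ω → Finset (Fin n)) (M : Ω → Matrix (Fin n → Fin d) (Fin n → Fin d) ℂ)
    (t : Finset (Fin n) → ℝ), GoodL P I C M t →
    ((T : ℂ) • (1 : Matrix (Fin n → Fin d) (Fin n → Fin d) ℂ) + opA0 Q q t).det.re ≤
    ((T : ℂ) • (1 : Matrix (Fin n → Fin d) (Fin n → Fin d) ℂ) + opL Q I M).det.re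

/-- merging of the labels -/
def merge (I : Ω → Finset (Fin n)) (M : Ω → Matrix (Fin n → Fin d) (Fin n → Fin d) ℂ)
    (K : Finset (Fin n)) : Matrix (Fin n → Fin d) (Fin n → Fin d) ℂ := ∑ ω with I ω = K, M ω

lemma opL_eq_opA (Q : Matrix (Fin d) (Fin d) ℂ) (I : Ω → Finset (Fin n))
    (M : Ω → Matrix (Fin n → Fin d) (Fin n → Fin d) ℂ) : opL Q I M = opA Q (merge I M) := by
  ext x y
  rw [opL, opA, Matrix.sum_apply, Matrix.sum_apply, ← Finset.sum_fiberwise Finset.univ I]
  apply Finset.sum_congr rfl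
  intro K _
  rw [hadamard_apply, merge, Matrix.sum_apply, Finset.sum_mul]
  apply Finset.sum_congr rfl
  intro ω hω
  rw [hadamard_apply, (Finset.mem_filter.mp hω).2]

lemma goodFam_merge {P : Finset (Finset (Fin n) × Finset (Fin n))} {I C : Ω → Finset (Fin n)}
    {M : Ω → Matrix (Fin n → Fin d) (Fin n → Fin d) ℂ} {t : Finset (Fin n) → ℝ}
    (h : GoodL P I C M t) : GoodFam t (merge I M) := by
  refine ⟨fun K => ?_, fun K => ?_, fun K => ?_⟩
  · exact posSemidef_sum _ (fun ω _ => (h.po ω).psd)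
  · intro x x' y y' hx hy
    rw [merge, Matrix.sum_apply, Matrix.sum_apply]
    apply Finset.sum_congr rfl
    intro ω hω
    have hI := (Finset.mem_filter.mp hω).2
    have := (h.po ω).dep (h.sub ω)
    rw [hI] at this
    exact this x x' y y' hx hy
  · rw [merge, Matrix.trace_sum]
    exact h.tr K

/-- labels with the full set can be removed -/
theorem top_lemma2 (hd : 0 < d) {Q : Matrix (Fin d) (Fin d) ℂ} (hQ : Q.PosSemidef) {q : Fin d → ℂ}
    {c : ℝ} (hq : star q ⬝ᵥ q = 1) (hQq : Q *ᵥ q = (c : ℂ) • q) (hc : 0 ≤ c)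
    (hQc : ((c : ℂ) • (1 : Matrix (Fin d) (Fin d) ℂ) - Q).PosSemidef)
    (P : Finset (Finset (Fin n) × Finset (Fin n)))
    (h : LDL Q q n (P.filter (fun a => a.1 ≠ Finset.univ))) : LDL Q q n P := by
  intro T hT Ω _ _ I C M t hG
  rw [opL_eq_opA]
  apply top_core hd hQ hq hQq hc hQc hT t _ (goodFam_merge hG) _ (fun _ => rfl) _ (fun _ => rfl)
  have e : (fun K => if K = Finset.univ then (0 : Matrix (Fin n → Fin d) (Fin n → Fin d) ℂ)
      else merge I M K) = merge I (fun ω => if I ω = Finset.univ then 0 else M ω) := by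
    funext K
    split_ifs with hK
    · symm
      rw [merge]
      apply Finset.sum_eq_zero
      intro ω hω
      rw [(Finset.mem_filter.mp hω).2, if_pos hK]
    · rw [merge, merge]
      apply Finset.sum_congr rfl
      intro ω hω
      rw [(Finset.mem_filter.mp hω).2, if_neg hK]
  rw [e, ← opL_eq_opA]
  apply h T hT Ω inferInstance inferInstance I C
  refine ⟨hG.sub, fun ω => ?_, fun ω hω => ?_, fun K => ?_⟩
  · split_ifs
    · exact PO.zero _ _
    · exact hG.po ω
  · split_ifs at hω with h1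
    · exact absurd rfl hω
    · exact Finset.mem_filter.mpr ⟨hG.supp ω hω, h1⟩
  · split_ifs with hK
    · rw [Complex.ofReal_zero, zero_mul]
      apply Finset.sum_eq_zero
      intro ω hω
      rw [(Finset.mem_filter.mp hω).2, if_pos hK, Matrix.trace_zero]
    · rw [← hG.tr K]
      apply Finset.sum_congr rfl
      intro ω hω
      rw [(Finset.mem_filter.mp hω).2, if_neg hK]

end Pool.Agent.Helper90.Spin
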