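import Mathlib
import Pool.Agent.Helper90.Spin.Labels

set_option autoImplicit false
open Matrix
open scoped ComplexOrder MatrixOrder Kronecker

namespace Pool.Agent.Helper90.Spin

set_option linter.unusedSectionVars false

variable {d n : ℕ}

lemma NQ_notMem (Q : Matrix (Fin d) (Fin d) ℂ) {p : Fin (n + 1)} {I : Finset (Fin (n + 1))}
    (h : p ∉ I) (u v : Fin d) (x y : Fin n → Fin d) :
    NQ Q I (eqv d p (u, x)) (eqv d p (v, y)) = Q u v * NQ Q (delSite p I) x y := by
  conv_lhs => rw [← liftS_delSite p h]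
  exact NQ_lift Q p _ u v x y

lemma NQ_mem (Q : Matrix (Fin d) (Fin d) ℂ) {p : Fin (n + 1)} {I : Finset (Fin (n + 1))}
    (h : p ∈ I) (u v : Fin d) (x y : Fin n → Fin d) :
    NQ Q I (eqv d p (u, x)) (eqv d p (v, y)) = NQ Q (delSite p I) x y := by
  conv_lhs => rw [← upS_delSite p h]
  exact NQ_up Q p _ u v x y

/-- trace and partial trace -/
lemma trace_trP (p : Fin (n + 1)) (M : Matrix (Fin (n + 1) → Fin d) (Fin (n + 1) → Fin d) ℂ) :
    (trP p M).trace = M.trace := by
  rw [Matrix.trace, Matrix.trace, ← Equiv.sum_comp (eqv d p), Fintype.sum_prod_type,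
    Finset.sum_comm]
  rfl

lemma trace_sub_eqv (p : Fin (n + 1)) (M : Matrix (Fin (n + 1) → Fin d) (Fin (n + 1) → Fin d) ℂ) :
    (M.submatrix (eqv d p) (eqv d p)).trace = M.trace := by
  simp only [Matrix.trace, Matrix.diag_apply, submatrix_apply]
  exact Equiv.sum_comp (eqv d p) (fun z => M z z)

/-- the product class at `p` -/
def IsP (p : Fin (n + 1)) (I C : Finset (Fin (n + 1))) : Prop := p ∈ I ∧ (p ∉ C ∨ C = {p})

theorem rec_step2 (hd : 0 < d) {Q : Matrix (Fin d) (Fin d) ℂ} (hQ : Q.PosSemidef) {q : Fin d → ℂ}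
    {c : ℝ} (hq : star q ⬝ᵥ q = 1) (hQq : Q *ᵥ q = (c : ℂ) • q) (hc : 0 ≤ c)
    (hQc : ((c : ℂ) • (1 : Matrix (Fin d) (Fin d) ℂ) - Q).PosSemidef)
    (P : Finset (Finset (Fin (n + 1)) × Finset (Fin (n + 1)))) (p : Fin (n + 1))
    (huniv : ∀ a ∈ P, a.1 ≠ Finset.univ)
    (hcard : ((P.filter (fun a => p ∈ a.2 ∧ 2 ≤ a.2.card ∧ a.1 ≠ Finset.univ)).image
      Prod.fst).card ≤ 3)
    (hLD : LDL Q q n (P.image (fun a => (delSite p a.1, delSite p a.2)))) :
    LDL Q q (n + 1) P := by
  classical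
  intro T hT Ω _ _ I C M t hG
  have ht0 : ∀ K, 0 ≤ t K := fun K => (goodFam_merge hG).t_nonneg hd K
  set u0 : Fin d := ⟨0, hd⟩
  set e := eqv d p with he
  have hMpsd : ∀ ω, (M ω).PosSemidef := fun ω => (hG.po ω).psd
  -- lower matrices
  obtain ⟨Md, hMd⟩ : ∃ Md : Ω → Matrix (Fin n → Fin d) (Fin n → Fin d) ℂ,
      ∀ ω, Md ω = (M ω).submatrix (fun x => e (u0, x)) (fun x => e (u0, x)) := ⟨_, fun _ => rfl⟩
  have hN : ∀ ω, p ∉ I ω → PO (delSite p (I ω)) (delSite p (C ω)) (Md ω) ∧
      ∀ u v x y, M ω (e (u, x)) (e (v, y)) = Md ω x y := by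
    intro ω hω
    have := PO_lift u0 (hG.sub ω) hω (hG.po ω)
    rw [hMd]
    exact this
  have hP : ∀ ω, ∃ (s0 : Matrix (Fin d) (Fin d) ℂ) (W : Matrix (Fin n → Fin d) (Fin n → Fin d) ℂ),
      s0.PosSemidef ∧ W.PosSemidef ∧ (IsP p (I ω) (C ω) →
      PO (delSite p (I ω)) (delSite p (C ω)) W ∧
      (∀ u v x y, M ω (e (u, x)) (e (v, y)) = s0 u v * W x y) ∧
      trP p (M ω) = ((s0.trace.re : ℝ) : ℂ) • W) ∧ (¬ IsP p (I ω) (C ω) → s0 = 0) := by
    intro ω
    by_cases h : IsP p (I ω) (C ω)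
    · obtain ⟨s0, W, h1, h2, h3, h4⟩ := PO_prod u0 (hG.sub ω) h.1 h.2 (hG.po ω)
      exact ⟨s0, W, h1, h2.psd, fun _ => ⟨h2, h3, h4⟩, fun h' => absurd h h'⟩
    · exact ⟨0, 0, PosSemidef.zero, PosSemidef.zero, fun h' => absurd h' h, fun _ => rfl⟩
  choose s W hs hWpsd hPW hPn using hP
  -- entangled class
  have hE : ∀ ω, p ∈ I ω → ¬ IsP p (I ω) (C ω) → p ∈ C ω ∧ C ω ≠ {p} := by
    intro ω h1 h2
    by_contra h3
    apply h2
    refine ⟨h1, ?_⟩
    by_cases h4 : p ∈ C ω
    · right
      by_contra h5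
      exact h3 ⟨h4, h5⟩
    · exact Or.inl h4
  obtain ⟨S, hS⟩ : ∃ S : Ω → Matrix (Fin d × (Fin n → Fin d)) (Fin d × (Fin n → Fin d)) ℂ,
      ∀ ω, S ω = if p ∈ I ω ∧ ¬ IsP p (I ω) (C ω) then (M ω).submatrix e e else 0 :=
    ⟨_, fun _ => rfl⟩
  have hSpsd : ∀ ω, (S ω).PosSemidef := by
    intro ω; rw [hS]; split_ifs
    · exact (hMpsd ω).submatrix _
    · exact PosSemidef.zero
  set X : Matrix (Fin d × (Fin n → Fin d)) (Fin d × (Fin n → Fin d)) ℂ :=
    ∑ ω, S ω ⊙ ((Matrix.of fun _ _ => (1 : ℂ)) ⊗ₖ NQ Q (delSite p (I ω))) with hX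
  have hXpsd : X.PosSemidef := by
    apply posSemidef_sum
    intro ω _
    exact (hSpsd ω).hadamard (ones_psd.kronecker (NQ_psd hQ _))
  -- noise part
  obtain ⟨N1, hN1⟩ : ∃ N1 : Ω → Matrix (Fin n → Fin d) (Fin n → Fin d) ℂ,
      ∀ ω, N1 ω = if p ∈ I ω then 0 else Md ω := ⟨_, fun _ => rfl⟩
  have hN1po : ∀ ω, PO (delSite p (I ω)) (delSite p (C ω)) (N1 ω) := by
    intro ω; rw [hN1]; split_ifs with h
    · exact PO.zero _ _
    · exact (hN ω h).1
  obtain ⟨I', hI'⟩ : ∃ I' : Ω → Finset (Fin n), ∀ ω, I' ω = delSite p (I ω) := ⟨_, fun _ => rfl⟩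
  obtain ⟨C', hC'⟩ : ∃ C' : Ω → Finset (Fin n), ∀ ω, C' ω = delSite p (C ω) := ⟨_, fun _ => rfl⟩
  have hYpsd : (opL Q I' N1).PosSemidef := opL_psd hQ _ (fun ω => (hN1po ω).psd)
  set Ff := (P.filter (fun a => p ∈ a.2 ∧ 2 ≤ a.2.card ∧ a.1 ≠ Finset.univ)).image Prod.fst with hFf
  obtain ⟨b, hb1, hb2⟩ := compress2 (σ := {K // K ∈ Ff}) (Ω := Ω) (by
      rw [Fintype.card_coe]; exact hcard)
    (fun K => (ptr (∑ ω with I ω = K.1, S ω))ᵀ)
    (fun K => (ptr_psd (posSemidef_sum _ (fun ω _ => hSpsd ω))).transpose) hQ hq hQq hc hQc hT hYpsd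
    s hs (fun ω => W ω ⊙ NQ Q (I' ω)) (fun ω => (hWpsd ω).hadamard (NQ_psd hQ _)) hXpsd
  -- compressed signals
  obtain ⟨N2, hN2⟩ : ∃ N2 : Ω → Matrix (Fin n → Fin d) (Fin n → Fin d) ℂ,
      ∀ ω, N2 ω = if p ∈ I ω then
        (((s ω).trace.re : ℝ) : ℂ) • W ω + comp b (S ω) else 0 := ⟨_, fun _ => rfl⟩
  have hN2po : ∀ ω, PO (delSite p (I ω)) (delSite p (C ω)) (N2 ω) := by
    intro ω; rw [hN2]; split_ifs with h
    swap
    · exact PO.zero _ _
    · by_cases h2 : IsP p (I ω) (C ω)
      · have e1 : S ω = 0 := by rw [hS, if_neg (fun h3 => h3.2 h2)]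
        rw [e1, comp_zero, add_zero]
        exact (hPW ω h2).1.smul (trace_re_nonneg (hs ω))
      · have e1 : s ω = 0 := hPn ω h2
        have e2 : S ω = (M ω).submatrix e e := by rw [hS, if_pos ⟨h, h2⟩]
        rw [e1, e2]
        simp only [Matrix.trace_zero, Complex.zero_re, Complex.ofReal_zero, zero_smul, zero_add]
        exact PO_ent b (hE ω h h2).1 (hG.po ω)
  have hGeq : (∑ ω, (((s ω).trace.re : ℝ) : ℂ) • (W ω ⊙ NQ Q (I' ω))) + comp b X = opL Q I' N2 := by
    rw [hX, comp_sum, opL, ← Finset.sum_add_distrib]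
    apply Finset.sum_congr rfl
    intro ω _
    rw [comp_hadamard, hN2, hI']
    split_ifs with h
    swap
    · have e1 : s ω = 0 := hPn ω (fun h' => h h'.1)
      have e2 : S ω = 0 := by rw [hS, if_neg (fun h' => h h'.1)]
      rw [e1, e2, comp_zero]
      simp
    · rw [add_hadamard, smul_hadamard]
  have hGpsd : (opL Q I' N2).PosSemidef := opL_psd hQ _ (fun ω => (hN2po ω).psd)
  -- reindexing of the right-hand side
  have hright : (opL Q I M).submatrix e e = Q ⊗ₖ opL Q I' N1 +
      (∑ ω, (s ω) ⊗ₖ (W ω ⊙ NQ Q (I' ω))) + X := by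
    ext ⟨u, x⟩ ⟨v, y⟩
    rw [submatrix_apply, opL, Matrix.add_apply, Matrix.add_apply, Matrix.sum_apply,
      Matrix.sum_apply, kroneckerMap_apply, opL, Matrix.sum_apply, Finset.mul_sum, hX,
      Matrix.sum_apply, ← Finset.sum_add_distrib, ← Finset.sum_add_distrib]
    apply Finset.sum_congr rfl
    intro ω _
    rw [hadamard_apply, hadamard_apply, hadamard_apply, kroneckerMap_apply, kroneckerMap_apply,
      hadamard_apply, Matrix.of_apply, one_mul, hI', hN1, hS]
    by_cases h : p ∈ I ω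
    · rw [NQ_mem Q h, if_pos h]
      by_cases h2 : IsP p (I ω) (C ω)
      · rw [if_neg (fun h3 => h3.2 h2), (hPW ω h2).2.1]
        simp only [Matrix.zero_apply]
        ring
      · rw [if_pos ⟨h, h2⟩, hPn ω h2, submatrix_apply]
        simp only [Matrix.zero_apply]
        ring
    · rw [NQ_notMem Q h, if_neg h, if_neg (fun h3 => h h3.1), hPn ω (fun h3 => h h3.1),
        (hN ω h).2]
      simp only [Matrix.zero_apply]
      ring
  -- trace conditions
  have hdC : (d : ℂ) ≠ 0 := by exact_mod_cast hd.ne'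
  have htrN : ∀ ω, p ∉ I ω → (M ω).trace = (d : ℂ) * (Md ω).trace := by
    intro ω h
    rw [Matrix.trace, ← Equiv.sum_comp e, Fintype.sum_prod_type]
    simp only [Matrix.diag_apply, (hN ω h).2]
    simp [Matrix.trace]
  have hfl : ∀ K, (Finset.univ.filter (fun ω => I' ω = K)) =
      (Finset.univ.filter (fun ω => I ω = liftS p K)) ∪
      (Finset.univ.filter (fun ω => I ω = upS p K)) := by
    intro K
    ext ω
    simp only [Finset.mem_filter, Finset.mem_univ, true_and, Finset.mem_union, hI']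
    constructor
    · intro h
      by_cases hp : p ∈ I ω
      · right; rw [← h, upS_delSite p hp]
      · left; rw [← h, liftS_delSite p hp]
    · rintro (h | h)
      · rw [h, delSite_liftS]
      · rw [h, delSite_upS]
  have hdisj : ∀ K, Disjoint (Finset.univ.filter (fun ω => I ω = liftS p K))
      (Finset.univ.filter (fun ω => I ω = upS p K)) := by
    intro K
    rw [Finset.disjoint_filter]
    intro ω _ h1 h2
    have h3 := p_mem_upS p K
    rw [← h2, h1] at h3
    exact p_notMem_liftS p K h3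
  have hsum1 : ∀ K, ∑ ω with I' ω = K, (N1 ω).trace =
      ((t (liftS p K) : ℝ) : ℂ) * (d : ℂ) ^ (Kᶜ.card) := by
    intro K
    rw [hfl, Finset.sum_union (hdisj K)]
    have z2 : ∑ ω with I ω = upS p K, (N1 ω).trace = 0 := by
      apply Finset.sum_eq_zero
      intro ω hω
      have h := (Finset.mem_filter.mp hω).2
      rw [hN1, if_pos (by rw [h]; exact p_mem_upS p K), Matrix.trace_zero]
    rw [z2, add_zero]
    have h1 := hG.tr (liftS p K)
    have h2 : ∑ ω with I ω = liftS p K, (M ω).trace =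
        (d : ℂ) * ∑ ω with I ω = liftS p K, (N1 ω).trace := by
      rw [Finset.mul_sum]
      apply Finset.sum_congr rfl
      intro ω hω
      have h := (Finset.mem_filter.mp hω).2
      have hp : p ∉ I ω := by rw [h]; exact p_notMem_liftS p K
      rw [hN1, if_neg hp, htrN ω hp]
    rw [h2, card_compl_liftS, pow_succ] at h1
    have h3 : (d : ℂ) * ∑ ω with I ω = liftS p K, (N1 ω).trace =
        (d : ℂ) * ((t (liftS p K) : ℂ) * (d : ℂ) ^ Kᶜ.card) := by
      rw [h1]; ring
    exact mul_left_cancel₀ hdC h3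
  have hsum2 : ∀ K, ∑ ω with I' ω = K, (N2 ω).trace =
      ((t (upS p K) : ℝ) : ℂ) * (d : ℂ) ^ (Kᶜ.card) := by
    intro K
    rw [hfl, Finset.sum_union (hdisj K)]
    have z1 : ∑ ω with I ω = liftS p K, (N2 ω).trace = 0 := by
      apply Finset.sum_eq_zero
      intro ω hω
      have h := (Finset.mem_filter.mp hω).2
      rw [hN2, if_neg (by rw [h]; exact p_notMem_liftS p K), Matrix.trace_zero]
    rw [z1, zero_add, ← card_compl_upS p K, ← hG.tr (upS p K)]
    -- split N2 in product and entangled part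
    have e1 : ∑ ω with I ω = upS p K, (N2 ω).trace =
        ∑ ω with I ω = upS p K, ((((s ω).trace.re : ℝ) : ℂ) • W ω).trace +
        ∑ ω with I ω = upS p K, (comp b (S ω)).trace := by
      rw [← Finset.sum_add_distrib]
      apply Finset.sum_congr rfl
      intro ω hω
      have h := (Finset.mem_filter.mp hω).2
      rw [hN2, if_pos (by rw [h]; exact p_mem_upS p K), Matrix.trace_add]
    have e2 : ∑ ω with I ω = upS p K, (comp b (S ω)).trace =
        ∑ ω with I ω = upS p K, (S ω).trace := by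
      rw [← Matrix.trace_sum, ← comp_sum, ← Matrix.trace_sum]
      have hSp : (∑ ω with I ω = upS p K, S ω).PosSemidef :=
        posSemidef_sum _ (fun ω _ => hSpsd ω)
      by_cases hK : upS p K ∈ Ff
      · have h1 := hb1 ⟨upS p K, hK⟩
        simp only at h1
        rw [trace_comp, lin_real (ptr_psd hSp).transpose, h1, trace_transpose, trace_ptr,
          ← trace_re_eq hSp]
      · have h0 : ∑ ω with I ω = upS p K, S ω = 0 := by
          apply Finset.sum_eq_zero
          intro ω hω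
          have h := (Finset.mem_filter.mp hω).2
          rw [hS]
          split_ifs with h1
          · have hM0 : M ω = 0 := by
              by_contra hne
              have hmem := hG.supp ω hne
              have hC := hE ω h1.1 h1.2
              apply hK
              rw [hFf, Finset.mem_image]
              refine ⟨(I ω, C ω), ?_, h⟩
              rw [Finset.mem_filter]
              refine ⟨hmem, hC.1, ?_, huniv _ hmem⟩
              by_contra hlt
              have h3 : (C ω).card = 1 := by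
                have := Finset.card_pos.mpr ⟨p, hC.1⟩
                simp only at hlt
                omega
              obtain ⟨a, ha⟩ := Finset.card_eq_one.mp h3
              apply hC.2
              have h4 := hC.1
              rw [ha, Finset.mem_singleton] at h4
              rw [ha, h4]
            rw [hM0]
            rfl
          · rfl
        rw [h0, comp_zero]
        simp
    rw [e1, e2, ← Finset.sum_add_distrib]
    apply Finset.sum_congr rfl
    intro ω hω
    have h := (Finset.mem_filter.mp hω).2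
    have hp : p ∈ I ω := by rw [h]; exact p_mem_upS p K
    by_cases h2 : IsP p (I ω) (C ω)
    · rw [hS, if_neg (fun h3 => h3.2 h2), Matrix.trace_zero, add_zero, ← (hPW ω h2).2.2,
        trace_trP]
    · rw [hS, if_pos ⟨hp, h2⟩, hPn ω h2, he, trace_sub_eqv]
      simp
  have hleft := opA0_reindex Q q t p
  rw [det_reindex_T p, det_reindex_T p, hleft, ← he, hright, ← add_assoc, ← add_assoc, ← add_assoc]
  refine le_trans ?_ hb2
  rw [hGeq]
  have hsub' : ∀ ω, C' ω ⊆ I' ω := fun ω => by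
    rw [hC', hI']; exact delSite_mono p (hG.sub ω)
  have hMd0 : ∀ ω, M ω = 0 → Md ω = 0 := by
    intro ω h; rw [hMd, h]; rfl
  have hN20 : ∀ ω, M ω = 0 → N2 ω = 0 := by
    intro ω h
    rw [hN2]
    split_ifs with h1
    swap
    · rfl
    · have e1 : S ω = 0 := by
        rw [hS, h]; split_ifs <;> rfl
      rw [e1, comp_zero, add_zero]
      by_cases h2 : IsP p (I ω) (C ω)
      · rw [← (hPW ω h2).2.2, h]
        ext x y
        simp [trP]
      · rw [hPn ω h2]
        simp
  apply factor_mono hQ hq hQq hc hT hYpsd hGpsd (opA0_psd hQ q (fun K => ht0 _))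
    (opA0_psd hQ q (fun K => ht0 _))
  · intro r hr
    rw [opA0_smul, opL_smul]
    apply hLD T hT Ω inferInstance inferInstance I' C'
    refine ⟨hsub', fun ω => ?_, fun ω hω => ?_, fun K => ?_⟩
    · rw [hI', hC']
      exact (hN1po ω).smul hr
    · have hne : M ω ≠ 0 := by
        intro h
        apply hω
        rw [hN1, hMd0 ω h]
        simp
      rw [Finset.mem_image]
      exact ⟨(I ω, C ω), hG.supp ω hne, by rw [hI', hC']⟩
    · simp only [trace_smul]
      rw [← Finset.smul_sum, hsum1, smul_eq_mul]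
      push_cast
      ring
  · intro r hr
    rw [opA0_smul, opA0_add, opA0_smul, opL_smul, opL_add, opL_smul]
    apply hLD T hT Ω inferInstance inferInstance I' C'
    refine ⟨hsub', fun ω => ?_, fun ω hω => ?_, fun K => ?_⟩
    · rw [hI', hC']
      apply PO.smul _ hr
      by_cases h : p ∈ I ω
      · have e1 : N1 ω = 0 := by rw [hN1, if_pos h]
        rw [e1, smul_zero, zero_add]
        exact hN2po ω
      · have e1 : N2 ω = 0 := by rw [hN2, if_neg h]
        rw [e1, add_zero]
        exact (hN1po ω).smul hc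
    · have hne : M ω ≠ 0 := by
        intro h
        apply hω
        rw [hN1, hMd0 ω h, hN20 ω h]
        simp
      rw [Finset.mem_image]
      exact ⟨(I ω, C ω), hG.supp ω hne, by rw [hI', hC']⟩
    · simp only [trace_smul, trace_add]
      rw [← Finset.smul_sum, Finset.sum_add_distrib, ← Finset.smul_sum, hsum1, hsum2, smul_eq_mul,
        smul_eq_mul]
      push_cast
      ring

end Pool.Agent.Helper90.Spin
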