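import Mathlib
import Pool.Agent.Helper90.Spin.Rec2
import Pool.Agent.Helper90.Spin.Entropy

set_option autoImplicit false
open Matrix
open scoped ComplexOrder MatrixOrder Kronecker

namespace Pool.Agent.Helper90.Spin

set_option linter.unusedSectionVars false

variable {d : ℕ}

lemma LDL_empty {n : ℕ} (hd : 0 < d) (Q : Matrix (Fin d) (Fin d) ℂ) (q : Fin d → ℂ) :
    LDL Q q n (∅ : Finset (Finset (Fin n) × Finset (Fin n))) := by
  intro T hT Ω _ _ I C M t hG
  have hM0 : ∀ ω, M ω = 0 := by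
    intro ω
    by_contra h
    exact absurd (hG.supp ω h) (Finset.notMem_empty _)
  have ht0 : ∀ K, t K = 0 := by
    intro K
    have h := hG.tr K
    simp only [hM0, Matrix.trace_zero, Finset.sum_const_zero] at h
    have hdC : (d : ℂ) ≠ 0 := by exact_mod_cast hd.ne'
    have := (mul_eq_zero.mp h.symm).resolve_right (pow_ne_zero _ hdC)
    exact_mod_cast this
  have e1 : opL Q I M = 0 := by
    rw [opL]
    apply Finset.sum_eq_zero
    intro ω _
    rw [hM0, zero_hadamard]
  have e2 : opA0 Q q t = 0 := by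
    rw [opA0]
    apply Finset.sum_eq_zero
    intro I _
    rw [ht0]; simp
  rw [e1, e2]

theorem LDL_of_eliminable (hd : 0 < d) {Q : Matrix (Fin d) (Fin d) ℂ} (hQ : Q.PosSemidef)
    {q : Fin d → ℂ} {c : ℝ} (hq : star q ⬝ᵥ q = 1) (hQq : Q *ᵥ q = (c : ℂ) • q) (hc : 0 ≤ c)
    (hQc : ((c : ℂ) • (1 : Matrix (Fin d) (Fin d) ℂ) - Q).PosSemidef) :
    ∀ (n : ℕ) (P : Finset (Finset (Fin n) × Finset (Fin n))), Eliminable n P → LDL Q q n P := by
  intro n
  induction n with
  | zero =>
    intro P _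
    apply top_lemma2 hd hQ hq hQq hc hQc
    have : P.filter (fun a => a.1 ≠ Finset.univ) = ∅ := by
      apply Finset.filter_false_of_mem
      intro a _ h
      exact h (Subsingleton.elim _ _)
    rw [this]
    exact LDL_empty hd Q q
  | succ n ih =>
    intro P hP
    obtain ⟨p, hcard, hel⟩ := hP
    apply top_lemma2 hd hQ hq hQq hc hQc
    apply rec_step2 hd hQ hq hQq hc hQc _ p
    · intro a ha
      exact (Finset.mem_filter.mp ha).2
    · refine le_trans (Finset.card_le_card (Finset.image_subset_image ?_)) hcard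
      exact Finset.filter_subset_filter _ (Finset.filter_subset _ _)
    · have h1 := ih _ hel
      intro T hT Ω i1 i2 I C M t hG
      apply h1 T hT Ω i1 i2 I C M t
      refine ⟨hG.sub, hG.po, fun ω hω => ?_, hG.tr⟩
      exact Finset.image_subset_image (Finset.filter_subset _ _) (hG.supp ω hω)

lemma card_delSite_le {n : ℕ} (p : Fin (n + 1)) (I : Finset (Fin (n + 1))) :
    (delSite p I).card ≤ I.card := by
  by_cases h : p ∈ I
  · have e := upS_delSite p h
    have h1 : I.card = (delSite p I).card + 1 := by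
      conv_lhs => rw [← e]
      rw [upS, Finset.card_insert_of_notMem (p_notMem_liftS p _), liftS, Finset.card_map]
    omega
  · have e := liftS_delSite p h
    have h1 : I.card = (delSite p I).card := by
      conv_lhs => rw [← e]
      rw [liftS, Finset.card_map]
    omega

lemma delSite_univ {n : ℕ} (p : Fin (n + 1)) : delSite p Finset.univ = Finset.univ := by
  ext j
  simp [mem_delSite]

lemma eliminable_of_degree (n : ℕ) : ∀ (P : Finset (Finset (Fin n) × Finset (Fin n))),
    (∀ p : Fin n, ((P.filter (fun a => p ∈ a.2 ∧ 2 ≤ a.2.card ∧ a.1 ≠ Finset.univ)).image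
      Prod.fst).card ≤ 3) → Eliminable n P := by
  induction n with
  | zero => intro P _; trivial
  | succ n ih =>
    intro P hP
    refine ⟨0, hP 0, ?_⟩
    apply ih
    intro p
    have hsub : (((P.image (fun a => (delSite 0 a.1, delSite 0 a.2))).filter
        (fun a => p ∈ a.2 ∧ 2 ≤ a.2.card ∧ a.1 ≠ Finset.univ)).image Prod.fst) ⊆
        (((P.filter (fun a => (Fin.succAbove 0 p) ∈ a.2 ∧ 2 ≤ a.2.card ∧
          a.1 ≠ Finset.univ)).image Prod.fst).image (delSite 0)) := by
      intro K hK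
      rw [Finset.mem_image] at hK
      obtain ⟨a, ha, rfl⟩ := hK
      rw [Finset.mem_filter, Finset.mem_image] at ha
      obtain ⟨⟨b, hb, rfl⟩, h1, h2, h3⟩ := ha
      rw [Finset.mem_image]
      refine ⟨b.1, ?_, rfl⟩
      rw [Finset.mem_image]
      refine ⟨b, ?_, rfl⟩
      rw [Finset.mem_filter]
      refine ⟨hb, (mem_delSite 0 b.2 p).mp h1, h2.trans (card_delSite_le 0 b.2), ?_⟩
      intro h4
      apply h3
      simp only [h4]
      exact delSite_univ 0
    exact (Finset.card_le_card hsub).trans (Finset.card_image_le.trans (hP _))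

lemma eliminable_of_le_three (n : ℕ) (hn : n ≤ 3) (P : Finset (Finset (Fin n) × Finset (Fin n)))
    (hP : ∀ a ∈ P, a.2 ⊆ a.1) : Eliminable n P := by
  apply eliminable_of_degree
  intro p
  have hsub : ((P.filter (fun a => p ∈ a.2 ∧ 2 ≤ a.2.card ∧ a.1 ≠ Finset.univ)).image Prod.fst) ⊆
      Finset.univ.filter (fun I : Finset (Fin n) => p ∈ I ∧ 2 ≤ I.card ∧ I ≠ Finset.univ) := by
    intro K hK
    rw [Finset.mem_image] at hK
    obtain ⟨a, ha, rfl⟩ := hK
    rw [Finset.mem_filter] at ha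
    obtain ⟨h0, h1, h2, h3⟩ := ha
    rw [Finset.mem_filter]
    exact ⟨Finset.mem_univ _, hP a h0 h1, h2.trans (Finset.card_le_card (hP a h0)), h3⟩
  refine (Finset.card_le_card hsub).trans ?_
  clear hsub hP
  interval_cases n
  · exact p.elim0
  · revert p; decide
  · revert p; decide
  · revert p; decide

lemma sepOff_self {n : ℕ} (I : Finset (Fin n))
    {ρ : Matrix ({j // j ∈ I} → Fin d) ({j // j ∈ I} → Fin d) ℂ} (h : ρ.PosSemidef) :
    SepOff I I ρ := by
  refine ⟨1, fun _ => ρ, fun _ _ => 1, fun _ => h, fun _ _ => PosSemidef.one, ?_⟩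
  intro x y
  simp

lemma trace_term {n : ℕ} {Q : Matrix (Fin d) (Fin d) ℂ} (hQ1 : Q.trace = 1) (I : Finset (Fin n))
    (N : Matrix ({j // j ∈ I} → Fin d) ({j // j ∈ I} → Fin d) ℂ) :
    ∑ x : Fin n → Fin d, N (res I x) (res I x) * ∏ j ∈ Iᶜ, Q (x j) (x j) = N.trace := by
  classical
  have h := Equiv.sum_comp (Equiv.piEquivPiSubtypeProd (fun i : Fin n => i ∈ I) (fun _ => Fin d)).symm
    (fun x => N (res I x) (res I x) * ∏ j ∈ Iᶜ, Q (x j) (x j))
  rw [← h, Fintype.sum_prod_type]
  have h3 : ∀ (a : {j // j ∈ I} → Fin d) (b : {j // ¬ j ∈ I} → Fin d),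
      res I ((Equiv.piEquivPiSubtypeProd (fun i : Fin n => i ∈ I) (fun _ => Fin d)).symm (a, b)) =
        a := by
    intro a b
    funext i
    simp [res, Equiv.piEquivPiSubtypeProd]
  have h4 : ∀ (a : {j // j ∈ I} → Fin d) (b : {j // ¬ j ∈ I} → Fin d),
      ∏ j ∈ Iᶜ, Q ((Equiv.piEquivPiSubtypeProd (fun i : Fin n => i ∈ I) (fun _ => Fin d)).symm (a, b) j)
        ((Equiv.piEquivPiSubtypeProd (fun i : Fin n => i ∈ I) (fun _ => Fin d)).symm (a, b) j) =
        ∏ j, Q (b j) (b j) := by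
    intro a b
    rw [Finset.prod_subtype Iᶜ (p := fun j => ¬ j ∈ I) (fun x => Finset.mem_compl)]
    apply Finset.prod_congr rfl
    intro j _
    simp [Equiv.piEquivPiSubtypeProd, j.2]
  have h5 : ∑ b : {j // ¬ j ∈ I} → Fin d, ∏ j, Q (b j) (b j) = 1 := by
    have h2 := Finset.prod_univ_sum (fun _ : {j // ¬ j ∈ I} => (Finset.univ : Finset (Fin d)))
      (fun _ v => Q v v)
    rw [Fintype.piFinset_univ] at h2
    rw [← h2]
    have : ∑ v, Q v v = 1 := hQ1
    simp only [this, Finset.prod_const_one]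
  simp only [h3, h4, ← Finset.mul_sum, h5, mul_one]
  rfl

theorem main_core {d n : ℕ} {Q : Matrix (Fin d) (Fin d) ℂ} (hQ : Q.PosSemidef) (hQ1 : Q.trace = 1)
    {q : Fin d → ℂ} {c : ℝ} (hq : star q ⬝ᵥ q = 1) (hQq : Q *ᵥ q = (c : ℂ) • q)
    (hRay : ∀ v : Fin d → ℂ, (star v ⬝ᵥ (Q *ᵥ v)).re ≤ c * (star v ⬝ᵥ v).re)
    (μ : Finset (Fin n) → ℝ) (hμ : ∀ I, 0 ≤ μ I)
    (ρ : (I : Finset (Fin n)) → Matrix ({j // j ∈ I} → Fin d) ({j // j ∈ I} → Fin d) ℂ)
    (hρ : ∀ I, (ρ I).PosSemidef ∧ (ρ I).trace = 1)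
    (C : Finset (Fin n) → Finset (Fin n)) (hC : ∀ I, C I ⊆ I)
    (hsep : ∀ I, μ I ≠ 0 → SepOff I (C I) (ρ I))
    (hE : Eliminable n ((Finset.univ.filter (fun I : Finset (Fin n) => μ I ≠ 0)).image
      (fun I => (I, C I)))) : AlignedWins Q q μ ρ := by
  classical
  have hd : 0 < d := by
    rcases Nat.eq_zero_or_pos d with h | h
    · subst h
      simp [dotProduct] at hq
    · exact h
  have hc : 0 ≤ c := by
    have h1 := hQ.dotProduct_mulVec_nonneg q
    rw [hQq, dotProduct_smul, hq, smul_eq_mul, mul_one] at h1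
    exact_mod_cast h1
  have hQc : ((c : ℂ) • (1 : Matrix (Fin d) (Fin d) ℂ) - Q).PosSemidef := by
    apply PosSemidef.of_dotProduct_mulVec_nonneg
    · apply IsHermitian.sub _ hQ.1
      rw [IsHermitian, conjTranspose_smul, conjTranspose_one]
      simp
    · intro v
      have h1 := hRay v
      have h2 : star v ⬝ᵥ (((c : ℂ) • (1 : Matrix (Fin d) (Fin d) ℂ) - Q) *ᵥ v) =
          (c : ℂ) * (star v ⬝ᵥ v) - star v ⬝ᵥ (Q *ᵥ v) := by
        rw [sub_mulVec, dotProduct_sub, smul_mulVec, one_mulVec, dotProduct_smul, smul_eq_mul]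
      have h3 : (star v ⬝ᵥ v).im = 0 := by
        have := (PosSemidef.one (n := Fin d) (R := ℂ)).dotProduct_mulVec_nonneg v
        rw [one_mulVec, Complex.le_def] at this
        simpa using this.2.symm
      have h4 : (star v ⬝ᵥ (Q *ᵥ v)).im = 0 := by
        have := hQ.dotProduct_mulVec_nonneg v
        rw [Complex.le_def] at this
        simpa using this.2.symm
      rw [h2, Complex.le_def]
      constructor
      · rw [Complex.sub_re, Complex.re_ofReal_mul]
        simpa using h1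
      · rw [Complex.sub_im, Complex.im_ofReal_mul, h3, h4]
        simp
  have hLD := LDL_of_eliminable hd hQ hq hQq hc hQc n _ hE
  -- decomposition into labels
  have hdec : ∀ I, ∃ (m : ℕ) (ξ : Fin m → Matrix ({j // j ∈ C I} → Fin d) ({j // j ∈ C I} → Fin d) ℂ)
      (σ : Fin m → Fin n → Matrix (Fin d) (Fin d) ℂ),
      (∀ k, (ξ k).PosSemidef) ∧ (∀ k i, (σ k i).PosSemidef) ∧
      ∀ x y : Fin n → Fin d, (μ I : ℂ) * ρ I (fun i => x i.1) (fun i => y i.1) =
        ∑ k, (μ I : ℂ) * (ξ k (fun i => x i.1) (fun i => y i.1) *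
          ∏ i ∈ I \ C I, σ k i (x i) (y i)) := by
    intro I
    by_cases h : μ I = 0
    · refine ⟨0, fun k => k.elim0, fun k => k.elim0, fun k => k.elim0, fun k => k.elim0, ?_⟩
      intro x y
      rw [h]
      simp
    · obtain ⟨m, ξ, σ, h1, h2, h3⟩ := hsep I h
      refine ⟨m, ξ, σ, h1, h2, ?_⟩
      intro x y
      rw [h3, Finset.mul_sum]
  choose m ξ σ hξ hσ hdec using hdec
  obtain ⟨M, hM⟩ : ∃ M : (Σ I : Finset (Fin n), Fin (m I)) →
      Matrix (Fin n → Fin d) (Fin n → Fin d) ℂ,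
      ∀ ω x y, M ω x y = (μ ω.1 : ℂ) * (ξ ω.1 ω.2 (fun i => x i.1) (fun i => y i.1) *
          ∏ i ∈ ω.1 \ C ω.1, σ ω.1 ω.2 i (x i) (y i)) :=
    ⟨fun ω x y => (μ ω.1 : ℂ) * (ξ ω.1 ω.2 (fun i => x i.1) (fun i => y i.1) *
          ∏ i ∈ ω.1 \ C ω.1, σ ω.1 ω.2 i (x i) (y i)), fun _ _ _ => rfl⟩
  have hG : GoodL ((Finset.univ.filter (fun I : Finset (Fin n) => μ I ≠ 0)).image
      (fun I => (I, C I))) (fun ω : (Σ I : Finset (Fin n), Fin (m I)) => ω.1)
      (fun ω => C ω.1) M μ := by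
    refine ⟨fun ω => hC _, fun ω => ?_, fun ω hω => ?_, fun K => ?_⟩
    · refine ⟨(μ ω.1 : ℂ) • (ξ ω.1 ω.2).submatrix (res (C ω.1)) (res (C ω.1)), σ ω.1 ω.2,
        smul_psd ((hξ _ _).submatrix _) (hμ _), ?_, hσ _ _, ?_⟩
      · intro x x' y y' hx hy
        have e1 : res (C ω.1) x = res (C ω.1) x' := funext fun i => hx i.1 i.2
        have e2 : res (C ω.1) y = res (C ω.1) y' := funext fun i => hy i.1 i.2
        rw [Matrix.smul_apply, Matrix.smul_apply, submatrix_apply, submatrix_apply, e1, e2]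
      · intro x y
        rw [hM, Matrix.smul_apply, submatrix_apply, smul_eq_mul, mul_assoc]
        rfl
    · rw [Finset.mem_image]
      refine ⟨ω.1, ?_, rfl⟩
      rw [Finset.mem_filter]
      refine ⟨Finset.mem_univ _, ?_⟩
      intro h
      apply hω
      ext x y
      rw [hM, h]
      simp
    · have h1 : ∑ ω : (Σ I : Finset (Fin n), Fin (m I)) with ω.1 = K, (M ω).trace =
          ((μ K : ℂ) • (ρ K).submatrix (res K) (res K)).trace := by
        rw [Finset.sum_filter, Fintype.sum_sigma, Finset.sum_eq_single K]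
        · simp only [if_true]
          rw [← Matrix.trace_sum]
          congr 1
          ext x y
          rw [Matrix.sum_apply, Matrix.smul_apply, submatrix_apply, smul_eq_mul]
          simp only [hM]
          exact (hdec K x y).symm
        · intro I _ hI
          apply Finset.sum_eq_zero
          intro k _
          rw [if_neg hI]
        · intro h
          exact absurd (Finset.mem_univ K) h
      rw [h1, trace_smul, trace_res, (hρ K).2, one_mul, smul_eq_mul]
  have hNQ : ∀ (I : Finset (Fin n)) (x y : Fin n → Fin d), NQ Q I x y = ∏ j ∈ Iᶜ, Q (x j) (y j) := by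
    intro I x y
    simp only [NQ, Matrix.of_apply]
    rw [← Finset.prod_mul_prod_compl I]
    rw [Finset.prod_eq_one (fun j hj => by rw [if_pos hj]), one_mul]
    apply Finset.prod_congr rfl
    intro j hj
    rw [if_neg (Finset.mem_compl.mp hj)]
  have hAl : ∀ (I : Finset (Fin n)) (x y : Fin n → Fin d),
      Al q I x y = ∏ i ∈ I, q (x i) * star (q (y i)) := by
    intro I x y
    simp only [Al, Matrix.of_apply]
    rw [← Finset.prod_mul_prod_compl I]
    rw [Finset.prod_eq_one (s := Iᶜ) (fun j hj => by rw [if_neg (Finset.mem_compl.mp hj)]), mul_one]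
    apply Finset.prod_congr rfl
    intro j hj
    rw [if_pos hj]
  set A := alignOp Q μ ρ with hAdef
  set A0 := alignOp0 Q q μ with hA0def
  have hA : ∀ x y, A x y = ∑ I, (μ I : ℂ) * ρ I (fun i => x i.1) (fun i => y i.1)
      * ∏ j ∈ Iᶜ, Q (x j) (y j) := fun x y => rfl
  have hA0 : ∀ x y, A0 x y = ∑ I, (μ I : ℂ) * (∏ i ∈ I, q (x i) * star (q (y i)))
      * ∏ j ∈ Iᶜ, Q (x j) (y j) := fun x y => rfl
  have eA : A = opL Q (fun ω : (Σ I : Finset (Fin n), Fin (m I)) => ω.1) M := by
    ext x y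
    rw [hA, opL, Matrix.sum_apply, Fintype.sum_sigma]
    apply Finset.sum_congr rfl
    intro I _
    rw [hdec, Finset.sum_mul]
    apply Finset.sum_congr rfl
    intro k _
    rw [hadamard_apply, hNQ, hM]
  have eA0 : A0 = opA0 Q q μ := by
    ext x y
    rw [hA0, opA0, Matrix.sum_apply]
    apply Finset.sum_congr rfl
    intro I _
    rw [Matrix.smul_apply, hadamard_apply, hNQ, hAl, smul_eq_mul]
    ring
  have hdet : ∀ t : ℝ, 0 < t → ((t : ℂ) • 1 + A0).det.re ≤ ((t : ℂ) • 1 + A).det.re := by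
    intro t ht
    rw [eA, eA0]
    exact hLD t ht _ inferInstance inferInstance _ _ M μ hG
  refine ⟨hdet, ?_⟩
  intro hAh hA0h
  have hApsd : A.PosSemidef := by rw [eA]; exact opL_psd hQ _ (fun ω => (hG.po ω).psd)
  have hA0psd : A0.PosSemidef := by rw [eA0]; exact opA0_psd hQ q hμ
  apply entropy_of_prod _ _ (fun i => hApsd.eigenvalues_nonneg i)
    (fun i => hA0psd.eigenvalues_nonneg i)
  · -- traces
    have h1 := hAh.trace_eq_sum_eigenvalues
    have h2 := hA0h.trace_eq_sum_eigenvalues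
    have hmk : ∀ (ρ' : (I : Finset (Fin n)) →
        Matrix ({j // j ∈ I} → Fin d) ({j // j ∈ I} → Fin d) ℂ), (∀ I, (ρ' I).trace = 1) →
        ∑ x : Fin n → Fin d, ∑ I, (μ I : ℂ) * ρ' I (fun i => x i.1) (fun i => x i.1)
          * ∏ j ∈ Iᶜ, Q (x j) (x j) = ∑ I, (μ I : ℂ) := by
      intro ρ' hρ'
      rw [Finset.sum_comm]
      apply Finset.sum_congr rfl
      intro I _
      have h5 := trace_term hQ1 I (ρ' I)
      rw [hρ'] at h5
      simp only [mul_assoc]
      rw [← Finset.mul_sum]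
      have h6 : ∑ x : Fin n → Fin d, ρ' I (fun i => x i.1) (fun i => x i.1) *
          ∏ j ∈ Iᶜ, Q (x j) (x j) = 1 := h5
      rw [h6, mul_one]
    have hqq : ∑ v, star (q v) * q v = 1 := hq
    have h3 : A.trace = A0.trace := by
      have e1 : A.trace = ∑ I, (μ I : ℂ) := by
        rw [← hmk ρ (fun I => (hρ I).2), Matrix.trace]
        apply Finset.sum_congr rfl
        intro x _
        rw [Matrix.diag_apply, hA]
      have e2 : A0.trace = ∑ I, (μ I : ℂ) := by
        rw [← hmk (fun I => Matrix.of fun x y => ∏ i, (q (x i) * star (q (y i)))) ?_, Matrix.trace]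
        · apply Finset.sum_congr rfl
          intro x _
          rw [Matrix.diag_apply, hA0]
          apply Finset.sum_congr rfl
          intro I _
          rw [Matrix.of_apply, Finset.prod_subtype I (p := fun j => j ∈ I) (fun x => Iff.rfl)]
        · intro I
          have h2 := Finset.prod_univ_sum (fun _ : {j // j ∈ I} => (Finset.univ : Finset (Fin d)))
            (fun _ v => star (q v) * q v)
          rw [Fintype.piFinset_univ] at h2
          simp only [hqq, Finset.prod_const_one] at h2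
          rw [Matrix.trace, h2]
          apply Finset.sum_congr rfl
          intro x _
          rw [Matrix.diag_apply, Matrix.of_apply]
          apply Finset.prod_congr rfl
          intro i _
          ring
      rw [e1, e2]
    rw [h1, h2] at h3
    have h4 := congrArg Complex.re h3
    simpa using h4
  · intro t ht
    have h1 := hdet t ht
    rw [det_shift hAh, det_shift hA0h, ← Complex.ofReal_prod, ← Complex.ofReal_prod,
      Complex.ofReal_re, Complex.ofReal_re] at h1
    exact h1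

theorem main_result :
    ∀ (d n : ℕ) (Q : Matrix (Fin d) (Fin d) ℂ), Q.PosSemidef → Q.trace = 1 →
    ∀ (q : Fin d → ℂ) (c : ℝ), star q ⬝ᵥ q = 1 → Q *ᵥ q = (c : ℂ) • q →
    (∀ v : Fin d → ℂ, (star v ⬝ᵥ (Q *ᵥ v)).re ≤ c * (star v ⬝ᵥ v).re) →
    ∀ (μ : Finset (Fin n) → ℝ), (∀ I, 0 ≤ μ I) → ∑ I, μ I = 1 →
    ∀ (ρ : (I : Finset (Fin n)) →
        Matrix ({j // j ∈ I} → Fin d) ({j // j ∈ I} → Fin d) ℂ),
    (∀ I, (ρ I).PosSemidef ∧ (ρ I).trace = 1) →
    ∀ C : Finset (Fin n) → Finset (Fin n), (∀ I, C I ⊆ I) →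
    (∀ I, μ I ≠ 0 → SepOff I (C I) (ρ I)) →
    (n ≤ 3 ∨
      (∀ p : Fin n, (Finset.univ.filter (fun I : Finset (Fin n) =>
        μ I ≠ 0 ∧ p ∈ C I ∧ 2 ≤ (C I).card ∧ I ≠ Finset.univ)).card ≤ 3) ∨
      Eliminable n ((Finset.univ.filter (fun I : Finset (Fin n) => μ I ≠ 0)).image
        (fun I => (I, C I)))) →
    AlignedWins Q q μ ρ := by
  intro d n Q hQ hQ1 q c hq hQq hRay μ hμ _ ρ hρ C hC hsep h
  apply main_core hQ hQ1 hq hQq hRay μ hμ ρ hρ C hC hsep
  rcases h with h | h | h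
  · apply eliminable_of_le_three n h
    intro a ha
    rw [Finset.mem_image] at ha
    obtain ⟨I, _, rfl⟩ := ha
    exact hC I
  · apply eliminable_of_degree
    intro p
    refine le_trans (Finset.card_le_card ?_) (h p)
    intro K hK
    rw [Finset.mem_image] at hK
    obtain ⟨a, ha, rfl⟩ := hK
    rw [Finset.mem_filter, Finset.mem_image] at ha
    obtain ⟨⟨I, hI, rfl⟩, h1, h2, h3⟩ := ha
    rw [Finset.mem_filter] at hI ⊢
    exact ⟨Finset.mem_univ _, hI.2, h1, h2, h3⟩
  · exact h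

end Pool.Agent.Helper90.Spin
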